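import Mathlib

section

/-! Families of binomial quadrics and Taylor coefficient functionals. -/

namespace Pool.Agent.MP_f49c72_ag

open MvPolynomial

universe u

structure Binom (k : Type u) (ι κ : Type) where
  a : κ → ι
  b : κ → ι
  a' : κ → ι
  b' : κ → ι
  α : κ → k
  β : κ → k

variable {k : Type u} [Field k] {ι κ : Type}

namespace Binom

def ev {B : Type u} [CommRing B] (Q : Binom B ι κ) {𝒜 : Type*} [CommRing 𝒜] [Algebra B 𝒜]
    (y y' : ι → 𝒜) (j : κ) : 𝒜 :=
  Q.α j • (y (Q.a j) * y' (Q.b j)) + Q.β j • (y (Q.a' j) * y' (Q.b' j))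

def map {B B' : Type u} (Q : Binom B ι κ) (f : B → B') : Binom B' ι κ :=
  ⟨Q.a, Q.b, Q.a', Q.b', fun j => f (Q.α j), fun j => f (Q.β j)⟩

variable (Q : Binom k ι κ)

noncomputable def q (j : κ) : MvPolynomial ι k := Q.ev X X j

noncomputable def I2 : Submodule k (MvPolynomial ι k) := Submodule.span k (Set.range Q.q)

noncomputable def I : Ideal (MvPolynomial ι k) := Ideal.span (Set.range Q.q)

abbrev A : Type u := MvPolynomial ι k ⧸ Q.I

noncomputable def pr : MvPolynomial ι k →ₐ[k] Q.A := Ideal.Quotient.mkₐ k Q.I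

noncomputable def x (a : ι) : Q.A := Q.pr (X a)

noncomputable def M3 : Submodule k Q.A :=
  Submodule.span k (Set.range fun p : ι × ι × ι => Q.x p.1 * Q.x p.2.1 * Q.x p.2.2)

lemma q_mem_I2 (j : κ) : Q.q j ∈ Q.I2 := Submodule.subset_span ⟨j, rfl⟩

lemma q_mem_I (j : κ) : Q.q j ∈ Q.I := Ideal.subset_span ⟨j, rfl⟩

lemma I2_le {f : MvPolynomial ι k} (hf : f ∈ Q.I2) : f ∈ Q.I := by
  induction hf using Submodule.span_induction with
  | mem x hx => obtain ⟨j, rfl⟩ := hx; exact Q.q_mem_I j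
  | zero => exact zero_mem _
  | add x y _ _ hx hy => exact add_mem hx hy
  | smul a x _ hx => rw [smul_eq_C_mul]; exact Ideal.mul_mem_left _ _ hx

lemma pr_surj : Function.Surjective Q.pr := Ideal.Quotient.mkₐ_surjective k Q.I

lemma pr_eq_zero {f : MvPolynomial ι k} : Q.pr f = 0 ↔ f ∈ Q.I := Ideal.Quotient.eq_zero_iff_mem

lemma map_ev {𝒜 ℬ : Type*} [CommRing 𝒜] [Algebra k 𝒜] [CommRing ℬ] [Algebra k ℬ]
    (φ : 𝒜 →ₐ[k] ℬ) (y y' : ι → 𝒜) (j : κ) :
    φ (Q.ev y y' j) = Q.ev (fun a => φ (y a)) (fun a => φ (y' a)) j := by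
  simp [ev]

lemma aeval_q {𝒜 : Type*} [CommRing 𝒜] [Algebra k 𝒜] (z : ι → 𝒜) (j : κ) :
    aeval z (Q.q j) = Q.ev z z j := by
  simp [q, map_ev]

lemma ev_x (j : κ) : Q.ev Q.x Q.x j = 0 := by
  have := Q.pr_eq_zero.2 (Q.q_mem_I j)
  rw [q, map_ev] at this
  exact this

structure Rigid [Fintype ι] : Prop where
  quart : ∀ a b c d : ι, ∃ (e f : ι) (j : κ) (γ : k),
    (X a * X b * X c * X d : MvPolynomial ι k) = γ • (X e * X f * Q.q j)
  t1 : ∀ ψ : Q.I2 →ₗ[k] Q.A,
    (∀ f : ι → Q.I2, ∑ a, X a * (f a : MvPolynomial ι k) = 0 → ∑ a, Q.x a * ψ (f a) = 0) →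
    ∃ h : ι → Q.A, ∀ j, ψ ⟨Q.q j, Q.q_mem_I2 j⟩ - (Q.ev Q.x h j + Q.ev h Q.x j) ∈ Q.M3

lemma Rigid.quart_x [Fintype ι] {Q : Binom k ι κ} (hQ : Q.Rigid) (a b c d : ι) :
    Q.x a * Q.x b * Q.x c * Q.x d = 0 := by
  obtain ⟨e, f, j, γ, h⟩ := hQ.quart a b c d
  have := congrArg Q.pr h
  rw [map_smul, map_mul Q.pr _ (Q.q j), Q.pr_eq_zero.2 (Q.q_mem_I j)] at this
  simpa [x] using this

lemma Rigid.x_mul_M3 [Fintype ι] {Q : Binom k ι κ} (hQ : Q.Rigid) (a : ι) {y : Q.A}
    (hy : y ∈ Q.M3) : y * Q.x a = 0 := by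
  induction hy using Submodule.span_induction with
  | mem x hx => obtain ⟨p, rfl⟩ := hx; exact hQ.quart_x _ _ _ _
  | zero => simp
  | add x y _ _ hx hy => rw [add_mul, hx, hy, add_zero]
  | smul a x _ hx => rw [smul_mul_assoc, hx, smul_zero]

end Binom

/-- constant term. -/
noncomputable def c0 : MvPolynomial ι k →ₐ[k] k := aeval fun _ => 0

@[simp] lemma c0_X (a : ι) : c0 (X a : MvPolynomial ι k) = 0 := by simp [c0]

@[simp] lemma c0_C (r : k) : c0 (C r : MvPolynomial ι k) = r := by simp [c0]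

noncomputable def d1 (a : ι) : MvPolynomial ι k →ₗ[k] k :=
  c0.toLinearMap ∘ₗ (pderiv a).toLinearMap

noncomputable def d2 (a b : ι) : MvPolynomial ι k →ₗ[k] k := d1 a ∘ₗ (pderiv b).toLinearMap

noncomputable def d3 (a b c : ι) : MvPolynomial ι k →ₗ[k] k := d2 a b ∘ₗ (pderiv c).toLinearMap

lemma d1_apply (a : ι) (f : MvPolynomial ι k) : d1 a f = c0 (pderiv a f) := rfl
lemma d2_apply (a b : ι) (f : MvPolynomial ι k) : d2 a b f = d1 a (pderiv b f) := rfl
lemma d3_apply (a b c : ι) (f : MvPolynomial ι k) : d3 a b c f = d2 a b (pderiv c f) := rfl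

lemma d1_mul (a : ι) (f g : MvPolynomial ι k) : d1 a (f * g) = d1 a f * c0 g + c0 f * d1 a g := by
  simp only [d1_apply, pderiv_mul, map_add, map_mul]

lemma d2_mul (a b : ι) (f g : MvPolynomial ι k) : d2 a b (f * g) =
    d2 a b f * c0 g + d1 a f * d1 b g + d1 b f * d1 a g + c0 f * d2 a b g := by
  simp only [d2_apply, pderiv_mul, map_add, d1_mul, ← d1_apply]; ring

lemma d3_mul (a b c : ι) (f g : MvPolynomial ι k) : d3 a b c (f * g) =
    d3 a b c f * c0 g + d2 a b f * d1 c g + d2 a c f * d1 b g + d2 b c f * d1 a g +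
      d1 a f * d2 b c g + d1 b f * d2 a c g + d1 c f * d2 a b g + c0 f * d3 a b c g := by
  simp only [d3_apply, pderiv_mul, map_add, d2_mul, ← d1_apply, ← d2_apply]; ring

@[simp] lemma d1_C (a : ι) (r : k) : d1 a (C r : MvPolynomial ι k) = 0 := by simp [d1_apply]
@[simp] lemma d2_C (a b : ι) (r : k) : d2 a b (C r : MvPolynomial ι k) = 0 := by simp [d2_apply]
@[simp] lemma d3_C (a b c : ι) (r : k) : d3 a b c (C r : MvPolynomial ι k) = 0 := by
  simp [d3_apply]
@[simp] lemma d1_one (a : ι) : d1 a (1 : MvPolynomial ι k) = 0 := by simp [d1_apply]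
@[simp] lemma d2_one (a b : ι) : d2 a b (1 : MvPolynomial ι k) = 0 := by simp [d2_apply]

variable [DecidableEq ι]

@[simp] lemma d1_X (a e : ι) : d1 a (X e : MvPolynomial ι k) = if a = e then 1 else 0 := by
  rw [d1_apply, pderiv_X]
  by_cases h : a = e
  · subst h; simp
  · simp [h]

@[simp] lemma d2_X (a b e : ι) : d2 a b (X e : MvPolynomial ι k) = 0 := by
  rw [d2_apply, pderiv_X]
  by_cases h : b = e
  · subst h; simp
  · simp [Pi.single_eq_of_ne' h]

@[simp] lemma d3_X (a b c e : ι) : d3 a b c (X e : MvPolynomial ι k) = 0 := by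
  rw [d3_apply, pderiv_X]
  by_cases h : c = e
  · subst h; simp
  · simp [Pi.single_eq_of_ne' h]

lemma d2_comm (a b : ι) (f : MvPolynomial ι k) : d2 a b f = d2 b a f := by
  induction f using MvPolynomial.induction_on with
  | C r => simp
  | add p q hp hq => simp [hp, hq]
  | mul_X p e hp => simp only [d2_mul, hp, d2_X]; ring

lemma d3_cyc (a b c : ι) (f : MvPolynomial ι k) : d3 a b c f = d3 b c a f := by
  induction f using MvPolynomial.induction_on with
  | C r => simp
  | add p q hp hq => simp [hp, hq]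
  | mul_X p e hp => simp only [d3_mul, hp, d2_X, d3_X, d2_comm b a, d2_comm c a]; ring

namespace Binom

variable (Q : Binom k ι κ)

omit [DecidableEq ι] in
@[simp] lemma c0_q (j : κ) : c0 (Q.q j) = 0 := by simp [q, ev]

omit [DecidableEq ι] in
@[simp] lemma d1_q (a : ι) (j : κ) : d1 a (Q.q j) = 0 := by simp [q, ev, d1_mul]

@[simp] lemma d3_q (a b c : ι) (j : κ) : d3 a b c (Q.q j) = 0 := by simp [q, ev, d3_mul]

omit [DecidableEq ι] in
lemma c0_d1_I {f : MvPolynomial ι k} (hf : f ∈ Q.I) : c0 f = 0 ∧ ∀ a, d1 a f = 0 := by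
  induction hf using Submodule.span_induction with
  | mem x hx => obtain ⟨j, rfl⟩ := hx; simp
  | zero => simp
  | add x y _ _ hx hy => simp [hx.1, hy.1, hx.2, hy.2]
  | smul a x _ hx => simp [d1_mul, hx.1, hx.2]

variable [Fintype ι]

/-- Taylor expansion up to order two. -/
lemma Rigid0_taylor (h2 : (2 : k) ≠ 0)
    (hq : ∀ a b c d : ι, Q.x a * Q.x b * Q.x c * Q.x d = 0) (f : MvPolynomial ι k) :
    Q.pr f - (algebraMap k _ (c0 f) + ∑ a, d1 a f • Q.x a +
      (2 : k)⁻¹ • ∑ a, ∑ b, d2 a b f • (Q.x a * Q.x b)) ∈ Q.M3 := by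
  have hM : ∀ (a : ι) {y : Q.A}, y ∈ Q.M3 → y * Q.x a = 0 := by
    intro a y hy
    induction hy using Submodule.span_induction with
    | mem x hx => obtain ⟨p, rfl⟩ := hx; exact hq _ _ _ _
    | zero => simp
    | add x y _ _ hx hy => rw [add_mul, hx, hy, add_zero]
    | smul a x _ hx => rw [smul_mul_assoc, hx, smul_zero]
  induction f using MvPolynomial.induction_on with
  | C r =>
    have : Q.pr (C r) = algebraMap k _ r := Q.pr.commutes r
    simp [this]
  | add p q hp hq =>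
    convert add_mem hp hq using 1
    simp only [map_add, add_smul, Finset.sum_add_distrib, smul_add]; abel
  | mul_X p e hp =>
    have h1 := hM e hp
    have hx : Q.pr (X e) = Q.x e := rfl
    have h3 : ((2 : k)⁻¹ • ∑ a, ∑ b, d2 a b p • (Q.x a * Q.x b)) * Q.x e ∈ Q.M3 := by
      rw [smul_mul_assoc, Finset.sum_mul]
      refine Submodule.smul_mem _ _ (Submodule.sum_mem _ fun a _ => ?_)
      rw [Finset.sum_mul]
      refine Submodule.sum_mem _ fun b _ => ?_
      rw [smul_mul_assoc]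
      exact Submodule.smul_mem _ _ (Submodule.subset_span ⟨(a, b, e), rfl⟩)
    convert h3 using 1
    rw [sub_mul, sub_eq_zero] at h1
    rw [map_mul, hx, h1]
    simp only [map_mul, c0_X, mul_zero, map_zero, zero_add, d1_mul, d1_X, d2_mul, d2_X, add_zero,
      add_smul, Finset.sum_add_distrib, mul_ite, mul_one, ite_smul, zero_smul,
      Finset.sum_ite_eq', Finset.mem_univ, if_true]
    rw [Finset.sum_comm (f := fun a b => if a = e then d1 b p • (Q.x a * Q.x b) else 0)]
    simp only [Finset.sum_ite_eq', Finset.mem_univ, if_true]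
    have : ∑ a, d1 a p • (Q.x e * Q.x a) = ∑ a, d1 a p • (Q.x a * Q.x e) := by
      simp only [mul_comm]
    rw [this, ← two_smul k, smul_smul, inv_mul_cancel₀ h2, one_smul, add_mul, add_mul,
      Finset.sum_mul, ← Algebra.smul_def]
    simp only [smul_mul_assoc]
    abel

end Binom

end Pool.Agent.MP_f49c72_ag

end

section

/-! Lifting the generators along nilpotent thickenings. -/

namespace Pool.Agent.MP_f49c72_ag

open MvPolynomial Module

universe u v

variable {ι κ : Type}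

def cub {𝒜 : Type*} [Mul 𝒜] (z : ι → 𝒜) (p : ι × ι × ι) : 𝒜 := z p.1 * z p.2.1 * z p.2.2

def opt {𝒜 : Type*} [One 𝒜] (z : ι → 𝒜) (o : Option ι) : 𝒜 := o.elim 1 z

/-- span of the cubic monomials. -/
def C3 (B : Type u) [CommRing B] {𝒜 : Type v} [CommRing 𝒜] [Algebra B 𝒜] (z : ι → 𝒜) :
    Submodule B 𝒜 := Submodule.span B (Set.range (cub z))

lemma cub_mem (B : Type u) [CommRing B] {𝒜 : Type v} [CommRing 𝒜] [Algebra B 𝒜] (z : ι → 𝒜)
    (a b c : ι) : z a * z b * z c ∈ C3 B z := Submodule.subset_span ⟨(a, b, c), rfl⟩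

/-- generators satisfying the quadrics up to cubic terms. -/
structure Good {B : Type u} [CommRing B] (Q : Binom B ι κ) {𝒜 : Type v} [CommRing 𝒜] [Algebra B 𝒜]
    (z : ι → 𝒜) : Prop where
  quad : ∀ j, Q.ev z z j ∈ C3 B z
  quart : ∀ a b c d, z a * z b * z c * z d = 0
  span : ∀ y, y ∈ C3 B (opt z)

lemma nil_nakayama {B M : Type*} [CommRing B] [AddCommGroup M] [Module B M] {I : Ideal B}
    (hI : IsNilpotent I) {N F : Submodule B M} (h : N ≤ I • N ⊔ F) : N ≤ F := by
  obtain ⟨n, hn⟩ := hI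
  have : ∀ n : ℕ, N ≤ I ^ n • N ⊔ F := by
    intro n
    induction n with
    | zero => simp
    | succ n ih =>
      refine ih.trans (sup_le ?_ le_sup_right)
      refine (Submodule.smul_mono le_rfl h).trans ?_
      rw [Submodule.smul_sup, ← Submodule.mul_smul, ← pow_succ]
      exact sup_le_sup_left Submodule.smul_le_right _
  have := this n
  rw [hn] at this
  simpa using this

lemma exists_split {k P M : Type*} [Field k] [AddCommGroup P] [Module k P] [AddCommGroup M]
    [Module k M] (U W : Submodule k M) (g : P →ₗ[k] M) (hg : ∀ p, g p ∈ U ⊔ W) :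
    ∃ r : P →ₗ[k] M, ∀ p, r p ∈ W ∧ g p - r p ∈ U := by
  let b := Basis.ofVectorSpace k P
  have := fun i => Submodule.mem_sup.1 (hg (b i))
  choose y hy w hw hyw using this
  refine ⟨b.constr k w, fun p => ?_⟩
  have hp : p ∈ Submodule.span k (Set.range b) := by rw [b.span_eq]; trivial
  induction hp using Submodule.span_induction with
  | mem x hx =>
    obtain ⟨i, rfl⟩ := hx
    rw [b.constr_basis, ← hyw i, add_sub_cancel_right]
    exact ⟨hw i, hy i⟩
  | zero => simp
  | add x y _ _ hx hy =>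
    rw [map_add, map_add, add_sub_add_comm]
    exact ⟨add_mem hx.1 hy.1, add_mem hx.2 hy.2⟩
  | smul a x _ hx =>
    rw [map_smul, map_smul, ← smul_sub]
    exact ⟨W.smul_mem _ hx.1, U.smul_mem _ hx.2⟩

lemma mul_mem_smul_top {B 𝒜 : Type*} [CommRing B] [CommRing 𝒜] [Algebra B 𝒜] {J : Ideal B}
    (w : 𝒜) {a : 𝒜} (ha : a ∈ J • (⊤ : Submodule B 𝒜)) : w * a ∈ J • (⊤ : Submodule B 𝒜) := by
  refine Submodule.smul_induction_on ha (fun t ht x _ => ?_) (fun x y hx hy => ?_)
  · rw [mul_smul_comm]; exact Submodule.smul_mem_smul ht trivial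
  · rw [mul_add]; exact add_mem hx hy

lemma mem_smul_top_iff_repr {B M τ : Type*} [CommRing B] [AddCommGroup M] [Module B M] [Fintype τ]
    (bb : Basis τ B M) {J : Ideal B} {a : M} :
    a ∈ J • (⊤ : Submodule B M) ↔ ∀ i, bb.repr a i ∈ J := by
  constructor
  · intro ha
    refine Submodule.smul_induction_on ha (fun t ht x _ i => ?_) (fun x y hx hy i => ?_)
    · simpa using J.mul_mem_right _ ht
    · simpa using add_mem (hx i) (hy i)
  · intro h
    rw [← bb.sum_repr a]
    exact Submodule.sum_mem _ fun i _ => Submodule.smul_mem_smul (h i) trivial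

variable {k : Type u} [Field k]

lemma span_opt (Q : Binom k ι κ) (hq : ∀ a b c d, Q.x a * Q.x b * Q.x c * Q.x d = 0) (y : Q.A) :
    y ∈ C3 k (opt Q.x) := by
  obtain ⟨f, rfl⟩ := Q.pr_surj y
  induction f using MvPolynomial.induction_on with
  | C r =>
    have : Q.pr (C r) = r • (opt Q.x none * opt Q.x none * opt Q.x none) := by
      rw [← algebraMap_eq, Q.pr.commutes, Algebra.algebraMap_eq_smul_one]; simp [opt]
    rw [this]
    exact Submodule.smul_mem _ _ (cub_mem k _ _ _ _)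
  | add p q hp hq => rw [map_add]; exact add_mem hp hq
  | mul_X p e hp =>
    rw [map_mul]
    change _ * Q.x e ∈ _
    generalize Q.pr p = y at hp
    induction hp using Submodule.span_induction with
    | mem x hx =>
      obtain ⟨⟨a, b, c⟩, rfl⟩ := hx
      rcases a with _ | a
      · convert cub_mem k (opt Q.x) b c (some e) using 1; simp [cub, opt]
      rcases b with _ | b
      · convert cub_mem k (opt Q.x) (some a) c (some e) using 1; simp [cub, opt]
      rcases c with _ | c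
      · convert cub_mem k (opt Q.x) (some a) (some b) (some e) using 1; simp [cub, opt]
      · have : cub (opt Q.x) (some a, some b, some c) * Q.x e = 0 := hq a b c e
        rw [this]; exact zero_mem _
    | zero => simp
    | add x y _ _ hx hy => rw [add_mul]; exact add_mem hx hy
    | smul a x _ hx => rw [smul_mul_assoc]; exact Submodule.smul_mem _ _ hx

section lift

variable {B : Type u} [CommRing B] [Algebra k B] {𝒜 : Type v} [CommRing 𝒜] [Algebra B 𝒜]
  [Algebra k 𝒜] [IsScalarTower k B 𝒜]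

omit [Algebra k B] [IsScalarTower k B 𝒜] in
lemma quart_mem [Fintype ι] {Q : Binom k ι κ} (hQ : Q.Rigid) {m J : Ideal B} (hm : IsNilpotent m)
    {z : ι → 𝒜} (hz : ∀ j, Q.ev z z j ∈ m • C3 B z ⊔ J • (⊤ : Submodule B 𝒜)) (a : ι) {y : 𝒜}
    (hy : y ∈ C3 B z) : z a * y ∈ J • (⊤ : Submodule B 𝒜) := by
  let N : Submodule B 𝒜 :=
    Submodule.span B (Set.range fun p : 𝒜 × ι × ι × ι × ι => p.1 * z p.2.1 * cub z p.2.2)
  have hN : ∀ w a, ∀ y ∈ C3 B z, w * z a * y ∈ N := by
    intro w a y hy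
    induction hy using Submodule.span_induction with
    | mem x hx => obtain ⟨p, rfl⟩ := hx; exact Submodule.subset_span ⟨(w, a, p), rfl⟩
    | zero => simp
    | add x y _ _ hx hy => rw [mul_add]; exact add_mem hx hy
    | smul a x _ hx => rw [mul_smul_comm]; exact Submodule.smul_mem _ _ hx
  have : N ≤ J • (⊤ : Submodule B 𝒜) := by
    apply nil_nakayama hm
    rw [Submodule.span_le]
    rintro _ ⟨⟨w, a, b, c, d⟩, rfl⟩
    obtain ⟨e, f, j, γ, h⟩ := hQ.quart a b c d
    have h1 := congrArg (aeval z) h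
    simp only [map_mul, aeval_X, map_smul, Q.aeval_q] at h1
    obtain ⟨y, hy, r, hr, hyr⟩ := Submodule.mem_sup.1 (hz j)
    have h2 : w * z a * cub z (b, c, d) = (γ • w * z e) * z f * y + (γ • w * z e * z f) * r := by
      rw [← mul_add, hyr]
      rw [Algebra.smul_def] at h1
      simp only [cub, Algebra.smul_def]
      linear_combination w * h1
    change w * z a * cub z (b, c, d) ∈ _
    rw [h2]
    refine Submodule.add_mem_sup ?_ (mul_mem_smul_top _ hr)
    refine Submodule.smul_induction_on hy (fun t ht x hx => ?_) (fun x y hx hy => ?_)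
    · rw [mul_smul_comm]; exact Submodule.smul_mem_smul ht (hN _ _ _ hx)
    · rw [mul_add]; exact add_mem hx hy
  have h1 := this (hN 1 a y hy)
  rwa [one_mul] at h1

lemma lift_C3 {A : Type*} [CommRing A] [Algebra k A] {ι' : Type} (ev : 𝒜 →ₐ[k] A) (z : ι' → 𝒜)
    (x : ι' → A) (hz : ∀ a, ev (z a) = x a) {y : A} (hy : y ∈ C3 k x) :
    ∃ w ∈ C3 B z, ev w = y := by
  induction hy using Submodule.span_induction with
  | mem x hx =>
    obtain ⟨⟨a, b, c⟩, rfl⟩ := hx
    exact ⟨_, cub_mem B z a b c, by simp [cub, hz]⟩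
  | zero => exact ⟨0, zero_mem _, map_zero _⟩
  | add x y _ _ hx hy =>
    obtain ⟨w, hw, rfl⟩ := hx
    obtain ⟨w', hw', rfl⟩ := hy
    exact ⟨w + w', add_mem hw hw', map_add _ _ _⟩
  | smul a x _ hx =>
    obtain ⟨w, hw, rfl⟩ := hx
    exact ⟨a • w, Submodule.smul_of_tower_mem _ _ hw, map_smul _ _ _⟩

variable {τ : Type} [Fintype τ] [Fintype ι] {Q : Binom k ι κ} (ρ : B →ₐ[k] k) (bb : Basis τ B 𝒜)
  (e : Basis τ k Q.A) (ev : 𝒜 →ₐ[k] Q.A)

omit [Fintype ι] [IsScalarTower k B 𝒜] in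
lemma ev_eq (h1 : ∀ (b : B) a, ev (b • a) = ρ b • ev a) (h2 : ∀ i, ev (bb i) = e i) (a : 𝒜) :
    ev a = ∑ i, ρ (bb.repr a i) • e i := by
  conv_lhs => rw [← bb.sum_repr a]
  simp only [map_sum, h1, h2]

omit [Fintype ι] [Algebra k B] [IsScalarTower k B 𝒜] in
lemma ev_surj (h2 : ∀ i, ev (bb i) = e i) : Function.Surjective ev := by
  intro y
  refine ⟨∑ i, e.repr y i • bb i, ?_⟩
  simp [h2]

lemma exists_theta {m J : Ideal B} (hm : IsNilpotent m) (hJ0 : J ≠ ⊥) :
    ∃ t ∈ J, ∃ θ : B →ₗ[k] k, θ t = 1 ∧ ∀ s ∈ m, ∀ b ∈ J, θ (s * b) = 0 := by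
  have : ¬ J ≤ m * J := fun h => hJ0 (le_bot_iff.1 (nil_nakayama hm (h.trans le_sup_left)))
  obtain ⟨t, ht, ht'⟩ := SetLike.not_le_iff_exists.1 this
  have h0 : t ∉ (m * J).restrictScalars k := ht'
  obtain ⟨θ, h1, h2⟩ := Submodule.exists_dual_map_eq_bot_of_notMem h0 inferInstance
  refine ⟨(θ t)⁻¹ • t, Submodule.smul_of_tower_mem _ _ ht, θ, by simp [h1], fun s hs b hb => ?_⟩
  have h3 : s * b ∈ (m * J).restrictScalars k := Ideal.mul_mem_mul hs hb
  have := Submodule.mem_map_of_mem (f := θ) h3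
  rwa [h2] at this

lemma lift_step (hQ : Q.Rigid) (h1 : ∀ (b : B) a, ev (b • a) = ρ b • ev a)
    (h2 : ∀ i, ev (bb i) = e i) {m : Ideal B} (hmdef : m = RingHom.ker ρ) (hm : IsNilpotent m)
    {J : Ideal B} (hJ : J ≤ m) (hJ0 : J ≠ ⊥) {z : ι → 𝒜} (hz1 : ∀ a, ev (z a) = Q.x a)
    (hz : ∀ j, Q.ev z z j ∈ m • C3 B z ⊔ J • (⊤ : Submodule B 𝒜)) :
    ∃ J' < J, ∃ z' : ι → 𝒜, (∀ a, ev (z' a) = Q.x a) ∧
      ∀ j, Q.ev z' z' j ∈ m • C3 B z' ⊔ J' • (⊤ : Submodule B 𝒜) := by
  obtain ⟨t, htJ, θ, hθt, hθ⟩ := exists_theta (k := k) hm hJ0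
  have hθ' : ∀ b ∈ J, ∀ s, θ (b * s) = θ b * ρ s := by
    intro b hb s
    have := hθ (s - algebraMap k B (ρ s)) (by simp [hmdef, RingHom.mem_ker]) b hb
    rw [sub_mul, map_sub, ← Algebra.smul_def, map_smul, smul_eq_mul] at this
    rw [mul_comm b]; linear_combination this
  let J' : Ideal B :=
    { carrier := {b | b ∈ J ∧ θ b = 0}
      add_mem' := fun ha hb => ⟨add_mem ha.1 hb.1, by rw [map_add, ha.2, hb.2, add_zero]⟩
      zero_mem' := ⟨zero_mem _, map_zero _⟩
      smul_mem' := fun s b hb => ⟨J.mul_mem_left _ hb.1, by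
        rw [smul_eq_mul, mul_comm, hθ' b hb.1, hb.2, zero_mul]⟩ }
  have hmJ : m • J ≤ J' := by
    rw [Submodule.smul_le]
    intro s hs b hb
    exact ⟨J.mul_mem_left _ hb, hθ s hs b hb⟩
  let T : 𝒜 →ₗ[k] Q.A :=
    ∑ i, LinearMap.toSpanSingleton k Q.A (e i) ∘ₗ θ ∘ₗ (bb.coord i).restrictScalars k
  have hT : ∀ a, T a = ∑ i, θ (bb.repr a i) • e i := by
    intro a; simp [T, LinearMap.sum_apply]
  have hT1 : ∀ b ∈ J, ∀ w, T (b • w) = θ b • ev w := by
    intro b hb w
    rw [hT, ev_eq ρ bb e ev h1 h2, Finset.smul_sum]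
    refine Finset.sum_congr rfl fun i _ => ?_
    simp [hθ' b hb, mul_smul]
  have hT2 : ∀ w, ∀ a ∈ J • (⊤ : Submodule B 𝒜), T (w * a) = ev w * T a := by
    intro w a ha
    refine Submodule.smul_induction_on ha (fun b hb x _ => ?_) (fun x y hx hy => ?_)
    · rw [mul_smul_comm, hT1 b hb, hT1 b hb, map_mul, mul_smul_comm]
    · rw [mul_add, map_add, map_add, hx, hy, mul_add]
  have hT3 : ∀ a ∈ J • (⊤ : Submodule B 𝒜), T a = 0 → a ∈ J' • (⊤ : Submodule B 𝒜) := by
    intro a ha h0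
    rw [mem_smul_top_iff_repr bb] at ha ⊢
    rw [hT] at h0
    exact fun i => ⟨ha i, Fintype.linearIndependent_iff.1 e.linearIndependent _ h0 i⟩
  have hT4 : ∀ a ∈ J' • (⊤ : Submodule B 𝒜), T a = 0 := by
    intro a ha
    rw [mem_smul_top_iff_repr bb] at ha
    rw [hT]
    exact Finset.sum_eq_zero fun i _ => by rw [(ha i).2, zero_smul]
  have hmF : m • J • (⊤ : Submodule B 𝒜) ≤ J' • ⊤ := by
    rw [← Submodule.smul_assoc]; exact Submodule.smul_mono_left hmJ
  obtain ⟨r, hr⟩ := exists_split ((m • C3 B z).restrictScalars k)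
    ((J • (⊤ : Submodule B 𝒜)).restrictScalars k) ((aeval z).toLinearMap ∘ₗ Q.I2.subtype) (by
      rintro ⟨f, hf⟩
      rw [← Submodule.restrictScalars_sup]
      change aeval z f ∈ _
      induction hf using Submodule.span_induction with
      | mem x hx => obtain ⟨j, rfl⟩ := hx; rw [Q.aeval_q]; exact hz j
      | zero => simp
      | add x y _ _ hx hy => rw [map_add]; exact add_mem hx hy
      | smul a x _ hx => rw [map_smul]; exact Submodule.smul_mem _ _ hx)
  have hr1 : ∀ f, r f ∈ J • (⊤ : Submodule B 𝒜) := fun f => (hr f).1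
  have hr2 : ∀ f : Q.I2, aeval z (f : MvPolynomial ι k) - r f ∈ m • C3 B z := fun f => (hr f).2
  obtain ⟨h, hh⟩ := hQ.t1 (T ∘ₗ r) (by
    intro f hf
    have e1 := congrArg (aeval z) hf
    simp only [map_sum, map_mul, aeval_X, map_zero] at e1
    have e2 : ∀ a, T (z a * (aeval z (f a : MvPolynomial ι k) - r (f a))) = 0 := by
      intro a
      apply hT4
      apply hmF
      refine Submodule.smul_induction_on (hr2 (f a)) (fun s hs x hx => ?_) (fun x y hx hy => ?_)
      · rw [mul_smul_comm]; exact Submodule.smul_mem_smul hs (quart_mem hQ hm hz a hx)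
      · rw [mul_add]; exact add_mem hx hy
    have e3 : ∀ a, Q.x a * (T ∘ₗ r) (f a) = T (z a * aeval z (f a : MvPolynomial ι k)) := by
      intro a
      have := e2 a
      rw [mul_sub, map_sub, sub_eq_zero] at this
      rw [this, hT2 _ _ (hr1 _), hz1]; rfl
    simp only [e3]
    rw [← map_sum, e1, map_zero])
  choose h' hh' using fun a => ev_surj bb e ev h2 (h a)
  refine ⟨J', ⟨fun b hb => hb.1, fun hle => one_ne_zero (hθt.symm.trans (hle htJ).2)⟩,
    fun a => z a - t • h' a, fun a => ?_, fun j => ?_⟩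
  · have : ρ t = 0 := by have := hJ htJ; rwa [hmdef] at this
    simp [hz1, h1, this]
  · obtain ⟨w, hw, hw'⟩ := lift_C3 (B := B) ev z Q.x hz1 (hh j)
    set z' : ι → 𝒜 := fun a => z a - t • h' a with hz'
    have hC : m • C3 B z ≤ m • C3 B z' ⊔ J' • ⊤ := by
      have : C3 B z ≤ C3 B z' ⊔ J • ⊤ := by
        rw [C3, Submodule.span_le]
        rintro _ ⟨⟨a, b, c⟩, rfl⟩
        have : cub z (a, b, c) = z' a * z' b * z' c +
            t • (h' a * z b * z c + z' a * h' b * z c + z' a * z' b * h' c) := by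
          simp only [cub, hz', Algebra.smul_def]; ring
        rw [this]
        exact Submodule.add_mem_sup (cub_mem B z' a b c) (Submodule.smul_mem_smul htJ trivial)
      refine (Submodule.smul_mono le_rfl this).trans ?_
      rw [Submodule.smul_sup]
      exact sup_le_sup_left hmF _
    set f : Q.I2 := ⟨Q.q j, Q.q_mem_I2 j⟩ with hf
    have e1 : Q.ev z' z' j = (aeval z (f : MvPolynomial ι k) - r f) + t • w +
        (r f - t • (Q.ev z h' j + Q.ev h' z j) - t • w) + t • t • Q.ev h' h' j := by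
      simp only [hf, Q.aeval_q, Binom.ev, hz', Algebra.smul_def]; ring
    rw [e1]
    refine add_mem (add_mem (add_mem (hC (hr2 f)) (hC (Submodule.smul_mem_smul (hJ htJ) hw)))
      (Submodule.mem_sup_right (hT3 _ ?_ ?_))) (Submodule.mem_sup_right (hmF ?_))
    · exact sub_mem (sub_mem (hr1 f) (Submodule.smul_mem_smul htJ trivial))
        (Submodule.smul_mem_smul htJ trivial)
    · rw [map_sub, map_sub, hT1 t htJ, hT1 t htJ, hθt, one_smul, one_smul, hw', map_add, Q.map_ev,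
        Q.map_ev]
      simp only [hz1, hh']
      exact sub_self _
    · exact Submodule.smul_mem_smul (hJ htJ) (Submodule.smul_mem_smul htJ trivial)

theorem lift_good [IsArtinianRing B] (hQ : Q.Rigid) (h1 : ∀ (b : B) a, ev (b • a) = ρ b • ev a)
    (h2 : ∀ i, ev (bb i) = e i) (hm : IsNilpotent (RingHom.ker ρ)) :
    ∃ z : ι → 𝒜, Good (Q.map (algebraMap k B)) z := by
  have hker : ∀ a, ev a = 0 → a ∈ RingHom.ker ρ • (⊤ : Submodule B 𝒜) := by
    intro a ha
    rw [ev_eq ρ bb e ev h1 h2] at ha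
    rw [mem_smul_top_iff_repr bb]
    exact fun i => Fintype.linearIndependent_iff.1 e.linearIndependent _ ha i
  obtain ⟨J, ⟨hJ, z, hz1, hz⟩, hmin⟩ := (IsWellFounded.wf (α := Ideal B) (r := (· < ·))).has_min
    {J | J ≤ RingHom.ker ρ ∧ ∃ z : ι → 𝒜, (∀ a, ev (z a) = Q.x a) ∧
      ∀ j, Q.ev z z j ∈ RingHom.ker ρ • C3 B z ⊔ J • (⊤ : Submodule B 𝒜)} (by
    choose z hz using fun a => ev_surj bb e ev h2 (Q.x a)
    refine ⟨_, le_rfl, z, hz, fun j => Submodule.mem_sup_right (hker _ ?_)⟩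
    rw [Q.map_ev]
    simp only [hz]
    exact Q.ev_x j)
  have hJ0 : J = ⊥ := by
    by_contra h0
    obtain ⟨J', hlt, z', h3, h4⟩ := lift_step ρ bb e ev hQ h1 h2 rfl hm hJ h0 hz1 hz
    exact hmin J' ⟨hlt.le.trans hJ, z', h3, h4⟩ hlt
  subst hJ0
  refine ⟨z, fun j => ?_, fun a b c d => ?_, ?_⟩
  · have := hz j
    rw [Submodule.bot_smul, sup_bot_eq] at this
    have e : (Q.map (algebraMap k B)).ev z z j = Q.ev z z j := by simp [Binom.ev, Binom.map]
    rw [e]
    exact Submodule.smul_le_right this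
  · have := quart_mem hQ hm hz a (cub_mem B z b c d)
    rw [Submodule.bot_smul, Submodule.mem_bot] at this
    rw [← this]; ring
  · have : ⊤ ≤ C3 B (opt z) := by
      apply nil_nakayama hm
      intro y _
      obtain ⟨w, hw, hw'⟩ := lift_C3 (B := B) ev (opt z) (opt Q.x)
        (fun a => by cases a <;> simp [opt, hz1]) (span_opt Q hQ.quart_x (ev y))
      rw [← sub_add_cancel y w]
      exact Submodule.add_mem_sup (hker _ (by rw [map_sub, hw', sub_self])) hw
    exact fun y => this trivial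

end lift

end Pool.Agent.MP_f49c72_ag

end

section

/-! Algebras given by structure constants. -/

namespace Pool.Agent.MP_f49c72_ag

open Module

universe u v

/-- structure constants of a commutative associative algebra with unit the `0`-th basis vector. -/
structure Valid {B : Type u} [CommRing B] {n : ℕ}
    (γ : Fin (n + 1) → Fin (n + 1) → Fin (n + 1) → B) : Prop where
  comm : ∀ i j l, γ i j l = γ j i l
  unit : ∀ j l, γ 0 j l = if j = l then 1 else 0
  assoc : ∀ i j l m, ∑ a, γ i j a * γ a l m = ∑ a, γ j l a * γ i a m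

variable {B : Type u} [CommRing B] {n : ℕ} {γ : Fin (n + 1) → Fin (n + 1) → Fin (n + 1) → B}

lemma Valid.map {B' : Type u} [CommRing B'] (h : Valid γ) (f : B →+* B') :
    Valid fun i j l => f (γ i j l) where
  comm i j l := by rw [h.comm]
  unit j l := by rw [h.unit]; split_ifs <;> simp
  assoc i j l m := by simpa using congrArg f (h.assoc i j l m)

/-- the algebra with the given structure constants. -/
def Alg (_ : Valid γ) : Type u := Fin (n + 1) → B

namespace Alg

variable (h : Valid γ)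

instance : AddCommGroup (Alg h) := inferInstanceAs (AddCommGroup (Fin (n + 1) → B))
instance : Module B (Alg h) := inferInstanceAs (Module B (Fin (n + 1) → B))
instance : Mul (Alg h) := ⟨fun a b l => ∑ i, ∑ j, a i * b j * γ i j l⟩
instance : One (Alg h) := ⟨(Pi.single 0 1 : Fin (n + 1) → B)⟩

variable {h}

lemma mul_apply (a b : Alg h) (l : Fin (n + 1)) : (a * b) l = ∑ i, ∑ j, a i * b j * γ i j l := rfl
lemma one_apply (l : Fin (n + 1)) : (1 : Alg h) l = (Pi.single 0 1 : Fin (n + 1) → B) l := rfl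
lemma add_apply (a b : Alg h) (l : Fin (n + 1)) : (a + b) l = a l + b l := rfl
lemma zero_apply (l : Fin (n + 1)) : (0 : Alg h) l = 0 := rfl
lemma smul_apply (r : B) (a : Alg h) (l : Fin (n + 1)) : (r • a) l = r * a l := rfl

protected lemma ext {a b : Alg h} (e : ∀ l, a l = b l) : a = b := funext e

protected lemma mul_comm (a b : Alg h) : a * b = b * a := Alg.ext fun l => by
  rw [mul_apply, mul_apply, Finset.sum_comm]
  refine Finset.sum_congr rfl fun i _ => Finset.sum_congr rfl fun j _ => ?_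
  rw [h.comm]; ring

protected lemma one_mul (a : Alg h) : 1 * a = a := Alg.ext fun l => by
  rw [mul_apply, Finset.sum_eq_single 0]
  · simp [one_apply, h.unit]
  · intro b _ hb; simp [one_apply, Pi.single_eq_of_ne hb]
  · simp

protected lemma mul_add (a b c : Alg h) : a * (b + c) = a * b + a * c := Alg.ext fun l => by
  simp only [mul_apply, add_apply, mul_add, add_mul, Finset.sum_add_distrib]

protected lemma mul_assoc (a b c : Alg h) : a * b * c = a * (b * c) := Alg.ext fun m => by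
  have e1 : (a * b * c) m = ∑ i, ∑ j, ∑ l, a i * b j * c l * ∑ s, γ i j s * γ s l m := by
    simp only [mul_apply, Finset.sum_mul, Finset.mul_sum]
    rw [Finset.sum_comm]
    simp only [Finset.sum_comm (β := B) (γ := Fin (n + 1)) (s := Finset.univ) (t := Finset.univ)
      (f := fun s i => ∑ j, a i * b j * γ i j s * _ * γ s _ m)]
    rw [Finset.sum_comm]
    refine Finset.sum_congr rfl fun i _ => ?_
    simp only [Finset.sum_comm (β := B) (γ := Fin (n + 1)) (s := Finset.univ) (t := Finset.univ)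
      (f := fun s j => a i * b j * γ i j s * _ * γ s _ m)]
    rw [Finset.sum_comm]
    refine Finset.sum_congr rfl fun j _ => Finset.sum_congr rfl fun l _ =>
      Finset.sum_congr rfl fun s _ => by ring
  have e2 : (a * (b * c)) m = ∑ i, ∑ j, ∑ l, a i * b j * c l * ∑ s, γ j l s * γ i s m := by
    simp only [mul_apply, Finset.sum_mul, Finset.mul_sum]
    refine Finset.sum_congr rfl fun i _ => ?_
    rw [Finset.sum_comm]
    refine Finset.sum_congr rfl fun j _ => ?_
    rw [Finset.sum_comm]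
    refine Finset.sum_congr rfl fun l _ => Finset.sum_congr rfl fun s _ => by ring
  rw [e1, e2]
  simp only [h.assoc]

instance : CommRing (Alg h) :=
  { (inferInstance : AddCommGroup (Alg h)), (inferInstance : Mul (Alg h)),
    (inferInstance : One (Alg h)) with
    left_distrib := Alg.mul_add
    right_distrib := fun a b c => by
      rw [Alg.mul_comm, Alg.mul_add, Alg.mul_comm c, Alg.mul_comm c]
    zero_mul := fun a => Alg.ext fun l => by simp [mul_apply, zero_apply]
    mul_zero := fun a => Alg.ext fun l => by simp [mul_apply, zero_apply]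
    mul_assoc := Alg.mul_assoc
    one_mul := Alg.one_mul
    mul_one := fun a => by rw [Alg.mul_comm, Alg.one_mul]
    mul_comm := Alg.mul_comm }

instance : Algebra B (Alg h) := Algebra.ofModule
  (fun r a b => Alg.ext fun l => by
    simp only [mul_apply, smul_apply, Finset.mul_sum, mul_assoc])
  (fun r a b => Alg.ext fun l => by
    simp only [mul_apply, smul_apply, Finset.mul_sum, mul_assoc, mul_left_comm])

variable (h)

noncomputable def basis : Basis (Fin (n + 1)) B (Alg h) := Pi.basisFun B (Fin (n + 1))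

variable {h}

lemma basis_repr (a : Alg h) (i : Fin (n + 1)) : (basis h).repr a i = a i := rfl

lemma basis_apply (i l : Fin (n + 1)) : basis h i l = if i = l then 1 else 0 := by
  rw [← basis_repr (basis h i), Basis.repr_self, Finsupp.single_apply]

lemma basis_zero : basis h 0 = 1 := Alg.ext fun l => by
  rw [basis_apply, one_apply, Pi.single_apply]; simp [eq_comm]

lemma basis_mul (i j : Fin (n + 1)) : basis h i * basis h j = ∑ l, γ i j l • basis h l := by
  conv_lhs => rw [← (basis h).sum_repr (basis h i * basis h j)]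
  simp [basis_repr, mul_apply, basis_apply]

/-- the homomorphism to an algebra with the same multiplication table. -/
def lift {B' : Type*} [CommRing B'] {A : Type*} [CommRing A] [Algebra B' A] (f : B →+* B')
    (e : Fin (n + 1) → A) (h0 : e 0 = 1) (hm : ∀ i j, e i * e j = ∑ l, f (γ i j l) • e l) :
    Alg h →+* A where
  toFun a := ∑ i, f (a i) • e i
  map_one' := by
    rw [Finset.sum_eq_single 0]
    · simp [one_apply, h0]
    · intro b _ hb; simp [one_apply, Pi.single_eq_of_ne hb]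
    · simp
  map_mul' a b := by
    simp only [mul_apply, map_sum, map_mul, Finset.sum_smul, Finset.sum_mul, Finset.mul_sum,
      smul_mul_smul_comm, hm, Finset.smul_sum, smul_smul]
    rw [Finset.sum_comm]
    conv_rhs => rw [Finset.sum_comm]
    refine Finset.sum_congr rfl fun i _ => ?_
    rw [Finset.sum_comm]
  map_zero' := by simp [zero_apply]
  map_add' a b := by simp [add_apply, add_smul, Finset.sum_add_distrib]

section
variable {B' : Type*} [CommRing B'] {A : Type*} [CommRing A] [Algebra B' A] (f : B →+* B')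
    (e : Fin (n + 1) → A) (h0 : e 0 = 1) (hm : ∀ i j, e i * e j = ∑ l, f (γ i j l) • e l)

lemma lift_apply (a : Alg h) : lift (h := h) f e h0 hm a = ∑ i, f (a i) • e i := rfl

lemma lift_smul (b : B) (a : Alg h) :
    lift (h := h) f e h0 hm (b • a) = f b • lift (h := h) f e h0 hm a := by
  simp [lift_apply, smul_apply, Finset.smul_sum, smul_smul]

lemma lift_basis (i : Fin (n + 1)) : lift (h := h) f e h0 hm (basis h i) = e i := by
  simp [lift_apply, basis_apply, apply_ite f]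

end

end Alg

variable {ι κ : Type}

lemma C3_map {B' : Type u} [CommRing B'] {𝒜 𝒜' : Type*} [CommRing 𝒜] [Algebra B 𝒜] [CommRing 𝒜']
    [Algebra B' 𝒜'] (f : B → B') (F : 𝒜 →+* 𝒜') (hF : ∀ (b : B) a, F (b • a) = f b • F a)
    {z : ι → 𝒜} {y : 𝒜} (hy : y ∈ C3 B z) : F y ∈ C3 B' fun a => F (z a) := by
  induction hy using Submodule.span_induction with
  | mem x hx =>
    obtain ⟨⟨a, b, c⟩, rfl⟩ := hx
    simpa [cub] using cub_mem B' (fun a => F (z a)) a b c
  | zero => simp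
  | add x y _ _ hx hy => rw [map_add]; exact add_mem hx hy
  | smul a x _ hx => rw [hF]; exact Submodule.smul_mem _ _ hx

lemma opt_map {𝒜 𝒜' : Type*} [CommRing 𝒜] [CommRing 𝒜'] (F : 𝒜 →+* 𝒜') (z : ι → 𝒜) :
    (fun a => F (opt z a)) = opt fun a => F (z a) := by
  funext a; cases a <;> simp [opt]

lemma Good.map {B' : Type u} [CommRing B'] {𝒜 𝒜' : Type*} [CommRing 𝒜] [Algebra B 𝒜]
    [CommRing 𝒜'] [Algebra B' 𝒜'] (f : B → B') (F : 𝒜 →+* 𝒜')
    (hF : ∀ (b : B) a, F (b • a) = f b • F a) (hs : ∀ y, y ∈ Submodule.span B' (Set.range F))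
    {Q : Binom B ι κ} {z : ι → 𝒜} (h : Good Q z) : Good (Q.map f) fun a => F (z a) where
  quad j := by
    have := C3_map f F hF (h.quad j)
    simpa [Binom.ev, Binom.map, hF] using this
  quart a b c d := by simpa using congrArg F (h.quart a b c d)
  span y := by
    refine (Submodule.span_le.2 ?_) (hs y)
    rintro _ ⟨x, rfl⟩
    rw [← opt_map]
    exact C3_map f F hF (h.span x)

lemma Good.alg_map {B' : Type u} [CommRing B'] (f : B →+* B') (h : Valid γ)
    {γ' : Fin (n + 1) → Fin (n + 1) → Fin (n + 1) → B'} (h' : Valid γ')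
    (e : ∀ i j l, γ' i j l = f (γ i j l)) {Q : Binom B ι κ} (H : ∃ z : ι → Alg h, Good Q z) :
    ∃ z : ι → Alg h', Good (Q.map f) z := by
  obtain ⟨z, hz⟩ := H
  have hm : ∀ i j, Alg.basis h' i * Alg.basis h' j = ∑ l, f (γ i j l) • Alg.basis h' l := by
    intro i j; simp only [Alg.basis_mul, e]
  refine ⟨_, hz.map f (Alg.lift f _ Alg.basis_zero hm) (Alg.lift_smul f _ _ hm) fun y => ?_⟩
  rw [← (Alg.basis h').sum_repr y]
  exact Submodule.sum_mem _ fun i _ => Submodule.smul_mem _ _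
    (Submodule.subset_span ⟨_, Alg.lift_basis f _ _ hm i⟩)

lemma Good.alg_pi [Fintype ι] {Bs : ℕ → Type u} [∀ N, CommRing (Bs N)]
    {γ : Fin (n + 1) → Fin (n + 1) → Fin (n + 1) → ∀ N, Bs N} (h : Valid γ)
    {Q : Binom (∀ N, Bs N) ι κ}
    (H : ∀ N, ∃ z : ι → Alg (h.map (Pi.evalRingHom Bs N)), Good (Q.map fun b => b N) z) :
    ∃ z : ι → Alg h, Good Q z := by
  choose zs hzs using H
  have hm : ∀ N i j, Alg.basis (h.map (Pi.evalRingHom Bs N)) i * Alg.basis _ j =
      ∑ l, Pi.evalRingHom Bs N (γ i j l) • Alg.basis (h.map (Pi.evalRingHom Bs N)) l :=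
    fun N i j => Alg.basis_mul i j
  let F : ∀ N, Alg h →+* Alg (h.map (Pi.evalRingHom Bs N)) :=
    fun N => Alg.lift (Pi.evalRingHom Bs N) _ Alg.basis_zero (hm N)
  have hF : ∀ N a l, F N a l = a l N := by
    intro N a l
    rw [← Alg.basis_repr (F N a)]
    simp [F, Alg.lift_apply, Finsupp.single_apply]
  have hF1 : ∀ N (b : ∀ N, Bs N) a, F N (b • a) = b N • F N a :=
    fun N => Alg.lift_smul _ _ _ (hm N)
  have hext : ∀ a b, (∀ N, F N a = F N b) → a = b := fun a b e =>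
    Alg.ext fun l => funext fun N => by rw [← hF N a, ← hF N b, e]
  let z : ι → Alg h := fun a l N => zs N a l
  have hz : ∀ N a, F N (z a) = zs N a := fun N a => Alg.ext fun l => hF N _ l
  have key : ∀ {ι' : Type} [Fintype ι'] (w : ι' → Alg h) (y : Alg h),
      (∀ N, F N y ∈ C3 (Bs N) fun a => F N (w a)) → y ∈ C3 (∀ N, Bs N) w := by
    intro ι' _ w y hy
    simp only [C3, Submodule.mem_span_range_iff_exists_fun] at hy ⊢
    choose c hc using hy
    refine ⟨fun p N => c N p, hext _ _ fun N => ?_⟩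
    rw [← hc N, map_sum]
    simp [hF1, cub]
  refine ⟨z, fun j => key _ _ fun N => ?_, fun a b c d => hext _ _ fun N => ?_,
    fun y => key _ _ fun N => ?_⟩
  · simpa [Binom.ev, Binom.map, hF1, hz] using (hzs N).quad j
  · simpa [hz] using (hzs N).quart a b c d
  · rw [opt_map]
    simpa [hz] using (hzs N).span (F N y)

end Pool.Agent.MP_f49c72_ag

end

section

/-! Two rigid, generically non-isomorphic algebras are separated by disjoint open sets. -/

namespace Pool.Agent.MP_f49c72_ag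

open Module TensorProduct

universe u

variable {k : Type u} [Field k] {n : ℕ} {ι κ : Type} [Fintype ι]

lemma good_artin {B : Type u} [CommRing B] [Algebra k B] [IsNoetherianRing B] (ρ : B →ₐ[k] k)
    (hm : IsNilpotent (RingHom.ker ρ)) {γ : Fin (n + 1) → Fin (n + 1) → Fin (n + 1) → B}
    (h : Valid γ) {Q : Binom k ι κ} (hQ : Q.Rigid) (e : Basis (Fin (n + 1)) k Q.A) (h0 : e 0 = 1)
    (he : ∀ i j, e i * e j = ∑ l, ρ (γ i j l) • e l) :
    ∃ z : ι → Alg h, Good (Q.map (algebraMap k B)) z := by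
  have hmax : (RingHom.ker ρ).IsMaximal :=
    RingHom.ker_isMaximal_of_surjective _ fun r => ⟨algebraMap k B r, ρ.commutes r⟩
  have : Ring.KrullDimLE 0 B := Ring.KrullDimLE.mk₀ fun I hI => by
    obtain ⟨N, hN⟩ := hm
    have : RingHom.ker ρ ≤ I := hI.le_of_pow_le (n := N) (by rw [hN]; exact bot_le)
    rwa [← hmax.eq_of_le hI.ne_top this]
  have : IsArtinianRing B := IsNoetherianRing.isArtinianRing_of_krullDimLE_zero
  let _ : Algebra k (Alg h) := ((algebraMap B (Alg h)).comp (algebraMap k B)).toAlgebra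
  have : IsScalarTower k B (Alg h) := IsScalarTower.of_algebraMap_eq fun _ => rfl
  let F := Alg.lift (h := h) (ρ : B →+* k) e h0 he
  have hF : ∀ (b : B) a, F (b • a) = ρ b • F a := Alg.lift_smul _ _ h0 he
  let ev : Alg h →ₐ[k] Q.A :=
    { F with
      commutes' := fun r => by
        change F (algebraMap B (Alg h) (algebraMap k B r)) = _
        rw [Algebra.algebraMap_eq_smul_one (A := Alg h), hF, map_one, ρ.commutes,
          Algebra.algebraMap_eq_smul_one (A := Q.A)]
        rfl }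
  exact lift_good ρ (Alg.basis h) e ev hQ hF (Alg.lift_basis _ _ h0 he) hm

lemma good_domain {R : Type u} [CommRing R] [Algebra k R] [IsNoetherianRing R] (ρ : R →ₐ[k] k)
    {γ : Fin (n + 1) → Fin (n + 1) → Fin (n + 1) → R}
    (h : Valid γ) {Q : Binom k ι κ} (hQ : Q.Rigid) (e : Basis (Fin (n + 1)) k Q.A) (h0 : e 0 = 1)
    (he : ∀ i j, e i * e j = ∑ l, ρ (γ i j l) • e l) {P : Ideal R} (hP : P ∈ minimalPrimes R)
    (hPm : P ≤ RingHom.ker ρ) : ∃ (D : Type u) (_ : CommRing D) (_ : IsDomain D) (f : R →+* D),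
      RingHom.ker f = P ∧ ∃ z : ι → Alg (h.map f), Good (Q.map fun r => f (algebraMap k R r)) z := by
  obtain ⟨m, hm⟩ : ∃ m, m = RingHom.ker ρ := ⟨_, rfl⟩
  let Bs : ℕ → Type u := fun N => R ⧸ m ^ (N + 1)
  let π : R →+* ∀ N, Bs N := RingHom.pi fun N => Ideal.Quotient.mk _
  have hG : ∃ z : ι → Alg (h.map π), Good (Q.map fun r => π (algebraMap k R r)) z := by
    refine Good.alg_pi _ fun N => ?_
    let ρN : Bs N →ₐ[k] k := Ideal.Quotient.liftₐ _ ρ fun a ha => by
      have := Ideal.pow_le_self (Nat.succ_ne_zero N) ha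
      rwa [hm] at this
    refine good_artin ρN ⟨N + 1, ?_⟩ _ hQ e h0 he
    have : RingHom.ker ρN ≤ m.map (Ideal.Quotient.mk _) := by
      intro a ha
      obtain ⟨a, rfl⟩ := Ideal.Quotient.mk_surjective a
      exact Ideal.mem_map_of_mem _ (by rw [hm]; exact ha)
    refine le_bot_iff.1 ((Ideal.pow_right_mono this _).trans ?_)
    rw [← Ideal.map_pow, Ideal.map_quotient_self]
  have hker : (⊥ : Ideal (∀ N, Bs N)).comap π ≤ P := by
    intro r hr
    have h1 : r ∈ (⨅ i : ℕ, m ^ i • ⊤ : Submodule R R) := by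
      rw [Submodule.mem_iInf]
      intro i
      have : r ∈ m ^ (i + 1) := Ideal.Quotient.eq_zero_iff_mem.1 (congrFun hr i)
      simpa using Ideal.pow_le_pow_right (Nat.le_succ i) this
    obtain ⟨⟨x, hx⟩, hxr⟩ := (Ideal.mem_iInf_smul_pow_eq_bot_iff m r).1 h1
    have h2 : (1 - x) * r ∈ P := by
      rw [sub_mul, one_mul, show x * r = r from hxr, sub_self]; exact zero_mem _
    refine (hP.1.1.mem_or_mem h2).resolve_left fun h3 => ?_
    have h4 := hPm h3
    rw [hm] at hx
    rw [RingHom.mem_ker] at h4 hx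
    simp [hx] at h4
  obtain ⟨P', hP', -, hPP⟩ := Ideal.exists_comap_eq_of_mem_minimalPrimes (I := ⊥) π P
    ⟨⟨hP.1.1, hker⟩, fun q hq hle => hP.2 ⟨hq.1, bot_le⟩ hle⟩
  refine ⟨(∀ N, Bs N) ⧸ P', inferInstance, inferInstance, (Ideal.Quotient.mk P').comp π, ?_, ?_⟩
  · rw [← RingHom.comap_ker, Ideal.mk_ker, hPP]
  · exact Good.alg_map (Ideal.Quotient.mk P') (h.map π) _ (fun _ _ _ => rfl) hG

lemma common_field {R D₁ D₂ : Type u} [CommRing R] [CommRing D₁] [CommRing D₂] [IsDomain D₁]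
    [IsDomain D₂] (g₁ : R →+* D₁) (g₂ : R →+* D₂) (h : RingHom.ker g₁ = RingHom.ker g₂) :
    ∃ (K : Type u) (_ : Field K) (f₁ : D₁ →+* K) (f₂ : D₂ →+* K), ∀ r, f₁ (g₁ r) = f₂ (g₂ r) := by
  let _ : Algebra (R ⧸ RingHom.ker g₁) D₁ := (RingHom.kerLift g₁).toAlgebra
  let _ : Algebra (R ⧸ RingHom.ker g₁) D₂ :=
    (Ideal.Quotient.lift _ g₂ fun a ha => by rwa [h] at ha).toAlgebra
  have := Algebra.TensorProduct.nontrivial_of_algebraMap_injective_of_isDomain
    (R ⧸ RingHom.ker g₁) D₁ D₂ (RingHom.kerLift_injective g₁)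
    (RingHom.lift_injective_of_ker_le_ideal _ _ h.ge)
  obtain ⟨M, hM⟩ := Ideal.exists_maximal (D₁ ⊗[R ⧸ RingHom.ker g₁] D₂)
  refine ⟨_ ⧸ M, Ideal.Quotient.field M,
    (Ideal.Quotient.mk M).comp Algebra.TensorProduct.includeLeftRingHom,
    (Ideal.Quotient.mk M).comp Algebra.TensorProduct.includeRight.toRingHom, fun r => ?_⟩
  simp only [RingHom.comp_apply]
  congr 1
  have e := RingHom.congr_fun (Algebra.TensorProduct.includeLeftRingHom_comp_algebraMap
    (R := R ⧸ RingHom.ker g₁) (A := D₁) (B := D₂)) (Ideal.Quotient.mk _ r)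
  exact e

open MvPolynomial in
theorem separate {κ' : Type} {γ₁ γ₂ : Fin (n + 1) → Fin (n + 1) → Fin (n + 1) → k} (h₁ : Valid γ₁)
    (h₂ : Valid γ₂) {Q₁ : Binom k ι κ} {Q₂ : Binom k ι κ'} (hQ₁ : Q₁.Rigid) (hQ₂ : Q₂.Rigid)
    (e₁ : Basis (Fin (n + 1)) k Q₁.A) (e₂ : Basis (Fin (n + 1)) k Q₂.A) (u₁ : e₁ 0 = 1)
    (u₂ : e₂ 0 = 1) (m₁ : ∀ i j, e₁ i * e₁ j = ∑ l, γ₁ i j l • e₁ l)
    (m₂ : ∀ i j, e₂ i * e₂ j = ∑ l, γ₂ i j l • e₂ l)
    (H : ∀ (K : Type u) [Field K] (φ : k →+* K) (γ : Fin (n + 1) → Fin (n + 1) → Fin (n + 1) → K)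
      (h : Valid γ), (∃ z : ι → Alg h, Good (Q₁.map φ) z) →
        (∃ z : ι → Alg h, Good (Q₂.map φ) z) → False) :
    ∃ s₁ s₂ : MvPolynomial (Fin (n + 1) × Fin (n + 1) × Fin (n + 1)) k,
      eval (fun p => γ₁ p.1 p.2.1 p.2.2) s₁ ≠ 0 ∧ eval (fun p => γ₂ p.1 p.2.1 p.2.2) s₂ ≠ 0 ∧
      ∀ γ : Fin (n + 1) → Fin (n + 1) → Fin (n + 1) → k, Valid γ →
        eval (fun p => γ p.1 p.2.1 p.2.2) s₁ * eval (fun p => γ p.1 p.2.1 p.2.2) s₂ = 0 := by
  by_contra hcon
  let J : Ideal (MvPolynomial (Fin (n + 1) × Fin (n + 1) × Fin (n + 1)) k) :=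
    ⨅ γ : {γ : Fin (n + 1) → Fin (n + 1) → Fin (n + 1) → k // Valid γ},
      RingHom.ker (aeval (R := k) fun p : Fin (n + 1) × Fin (n + 1) × Fin (n + 1) =>
        γ.1 p.1 p.2.1 p.2.2)
  have hJ : ∀ f, f ∈ J ↔ ∀ γ : Fin (n + 1) → Fin (n + 1) → Fin (n + 1) → k, Valid γ →
      aeval (fun p : Fin (n + 1) × Fin (n + 1) × Fin (n + 1) => γ p.1 p.2.1 p.2.2) f = 0 := by
    intro f; simp [J, RingHom.mem_ker]
  let R := MvPolynomial (Fin (n + 1) × Fin (n + 1) × Fin (n + 1)) k ⧸ J
  let mk : MvPolynomial (Fin (n + 1) × Fin (n + 1) × Fin (n + 1)) k →ₐ[k] R :=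
    Ideal.Quotient.mkₐ k J
  have hmk : ∀ f g, (∀ γ : Fin (n + 1) → Fin (n + 1) → Fin (n + 1) → k, Valid γ →
      aeval (fun p : Fin (n + 1) × Fin (n + 1) × Fin (n + 1) => γ p.1 p.2.1 p.2.2) f =
      aeval (fun p : Fin (n + 1) × Fin (n + 1) × Fin (n + 1) => γ p.1 p.2.1 p.2.2) g) →
      mk f = mk g := fun f g hfg =>
    Ideal.Quotient.eq.2 ((hJ _).2 fun γ hγ => by rw [map_sub, hfg γ hγ, sub_self])
  have hu : Valid fun i j l => mk (X (i, j, l)) := by
    refine ⟨fun i j l => hmk _ _ fun γ hγ => by simpa using hγ.comm i j l, fun j l => ?_,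
      fun i j l m => ?_⟩
    · have : (if j = l then 1 else 0 : R) = mk (if j = l then 1 else 0) := by split_ifs <;> simp
      rw [this]
      refine hmk _ _ fun γ hγ => ?_
      rw [aeval_X, hγ.unit]; split_ifs <;> simp
    · simp only [← map_mul, ← map_sum]
      exact hmk _ _ fun γ hγ => by simpa using hγ.assoc i j l m
  let ρ : ∀ γ : Fin (n + 1) → Fin (n + 1) → Fin (n + 1) → k, Valid γ → R →ₐ[k] k := fun γ hγ =>
    Ideal.Quotient.liftₐ J (aeval fun p => γ p.1 p.2.1 p.2.2) fun f hf => (hJ f).1 hf γ hγ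
  have hρ : ∀ γ hγ f, ρ γ hγ (mk f) = eval (fun p => γ p.1 p.2.1 p.2.2) f := fun γ hγ f => by
    rw [← coe_aeval_eq_eval]; rfl
  let T : Submonoid R :=
    { carrier := {r | ∃ a b, ρ γ₁ h₁ a ≠ 0 ∧ ρ γ₂ h₂ b ≠ 0 ∧ r = a * b}
      one_mem' := ⟨1, 1, by simp, by simp, by simp⟩
      mul_mem' := by
        rintro _ _ ⟨a, b, ha, hb, rfl⟩ ⟨a', b', ha', hb', rfl⟩
        exact ⟨a * a', b * b', by simp [ha, ha'], by simp [hb, hb'], by ring⟩ }
  obtain ⟨P₀, hP₀, -, hd⟩ := (⊥ : Ideal R).exists_le_prime_disjoint T (by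
    rw [Set.disjoint_left]
    rintro r (rfl : r = 0) ⟨a, b, ha, hb, hab⟩
    obtain ⟨a, rfl⟩ := Ideal.Quotient.mkₐ_surjective k J a
    obtain ⟨b, rfl⟩ := Ideal.Quotient.mkₐ_surjective k J b
    refine hcon ⟨a, b, by rwa [← hρ γ₁ h₁], by rwa [← hρ γ₂ h₂], fun γ hγ => ?_⟩
    rw [← hρ γ hγ, ← hρ γ hγ, ← map_mul, ← hab, map_zero])
  obtain ⟨P, hP, hle⟩ := Ideal.exists_minimalPrimes_le (I := ⊥) (J := P₀) bot_le
  have l₁ : P ≤ RingHom.ker (ρ γ₁ h₁) := fun r hr => by
    by_contra hne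
    exact Set.disjoint_left.1 hd (hle hr) ⟨r, 1, hne, by simp, by simp⟩
  have l₂ : P ≤ RingHom.ker (ρ γ₂ h₂) := fun r hr => by
    by_contra hne
    exact Set.disjoint_left.1 hd (hle hr) ⟨1, r, by simp, hne, by simp⟩
  obtain ⟨D₁, _, _, g₁, k₁, G₁⟩ := good_domain (ρ γ₁ h₁) hu hQ₁ e₁ u₁
    (fun i j => by simp only [hρ, eval_X, m₁]) hP l₁
  obtain ⟨D₂, _, _, g₂, k₂, G₂⟩ := good_domain (ρ γ₂ h₂) hu hQ₂ e₂ u₂
    (fun i j => by simp only [hρ, eval_X, m₂]) hP l₂
  obtain ⟨K, _, f₁, f₂, hf⟩ := common_field g₁ g₂ (k₁.trans k₂.symm)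
  refine H K ((f₁.comp g₁).comp (algebraMap k R)) _ (hu.map (f₁.comp g₁))
    (Good.alg_map f₁ _ _ (fun _ _ _ => rfl) G₁) ?_
  have := Good.alg_map f₂ _ (hu.map (f₁.comp g₁)) (fun _ _ _ => hf _) G₂
  convert this using 3
  simp only [Binom.map, ← hf]
  rfl

end Pool.Agent.MP_f49c72_ag

end
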