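import Mathlib

section

/-! Small linear algebra over `Fin 3` and seventh roots of unity. -/

namespace Pool.Agent.MP_f49c72_ag

abbrev Z7 := ZMod 7

/-- the row weights `0, 1, 3`. -/
def ew : Fin 3 → Z7 := ![0, 1, 3]

@[simp] lemma ew_zero : ew 0 = 0 := rfl
@[simp] lemma ew_one : ew 1 = 1 := rfl
@[simp] lemma ew_two : ew 2 = 3 := rfl

/-- the Levi-Civita symbol. -/
def epsZ (a b c : Fin 3) : ℤ :=
  if b = a + 1 ∧ c = a + 2 then 1 else if b = a + 2 ∧ c = a + 1 then -1 else 0

variable {k : Type*} [Field k]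

def eps (k : Type*) [Field k] (a b c : Fin 3) : k := (epsZ a b c : k)

lemma eps_cyc (a b c : Fin 3) : eps k a b c = eps k b c a := by
  unfold eps; congr 1; revert a b c; decide

lemma eps_swap (a b c : Fin 3) : eps k a b c = - eps k a c b := by
  unfold eps; rw [← Int.cast_neg]; congr 1; revert a b c; decide

lemma eps_swap12 (a b c : Fin 3) : eps k a b c = - eps k b a c := by
  unfold eps; rw [← Int.cast_neg]; congr 1; revert a b c; decide

lemma eps_self12 (a c : Fin 3) : eps k a a c = 0 := by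
  have : epsZ a a c = 0 := by revert a c; decide
  simp [eps, this]

lemma eps_self13 (a c : Fin 3) : eps k a c a = 0 := by
  have : epsZ a c a = 0 := by revert a c; decide
  simp [eps, this]

lemma eps_self23 (a c : Fin 3) : eps k c a a = 0 := by
  have : epsZ c a a = 0 := by revert a c; decide
  simp [eps, this]

lemma eps_succ (a : Fin 3) : eps k a (a + 1) (a + 2) = 1 := by
  have : epsZ a (a + 1) (a + 2) = 1 := by revert a; decide
  simp [eps, this]

lemma epsZ_weight (a b c : Fin 3) (h : epsZ a b c ≠ 0) : ew a + ew b + ew c = 4 := by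
  revert a b c; decide

lemma alt3 (h2 : (2 : k) ≠ 0) (φ : Fin 3 → Fin 3 → Fin 3 → k)
    (h12 : ∀ a b c, φ a b c + φ b a c = 0) (h13 : ∀ a b c, φ a b c + φ c b a = 0) :
    ∀ a b c, φ a b c = eps k a b c * φ 0 1 2 := by
  have d12 : ∀ a c, φ a a c = 0 := fun a c =>
    (mul_eq_zero.1 (by linear_combination h12 a a c : 2 * φ a a c = 0)).resolve_left h2
  have d13 : ∀ a b, φ a b a = 0 := fun a b =>
    (mul_eq_zero.1 (by linear_combination h13 a b a : 2 * φ a b a = 0)).resolve_left h2
  have d23 : ∀ a b, φ a b b = 0 := fun a b => by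
    linear_combination h12 a b b - d13 b a
  intro a b c
  fin_cases a <;> fin_cases b <;> fin_cases c <;> simp [eps, epsZ, d12, d13, d23]
  · linear_combination h12 0 2 1 - h13 2 0 1 + h12 1 0 2
  · linear_combination h12 1 0 2
  · linear_combination h13 1 2 0 - h12 0 2 1 + h13 2 0 1 - h12 1 0 2 + h12 1 0 2 - h12 1 0 2
  · linear_combination h13 2 0 1 - h12 1 0 2
  · linear_combination h13 2 1 0

lemma symalt (h2 : (2 : k) ≠ 0) (φ : Fin 3 → Fin 3 → Fin 3 → k)
    (h12 : ∀ a b c, φ a b c = φ b a c) (h23 : ∀ a b c, φ a b c + φ a c b = 0) :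
    ∀ a b c, φ a b c = 0 := by
  intro a b c
  have : 2 * φ a b c = 0 := by
    linear_combination h23 a b c - h12 a c b - h23 c a b + h12 c b a + h23 b c a + h12 a b c
  exact (mul_eq_zero.1 this).resolve_left h2

lemma alt23 (h2 : (2 : k) ≠ 0) (φ : Fin 3 → Fin 3 → Fin 3 → k)
    (h23 : ∀ a b c, φ a b c + φ a c b = 0) :
    ∀ a b c, φ a b c = ∑ l, eps k l b c * φ a (l + 1) (l + 2) := by
  have d23 : ∀ a b, φ a b b = 0 := fun a b =>
    (mul_eq_zero.1 (by linear_combination h23 a b b : 2 * φ a b b = 0)).resolve_left h2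
  intro a b c
  fin_cases b <;> fin_cases c <;> simp [eps, epsZ, d23, Fin.sum_univ_three]
  · linear_combination h23 a 0 2
  · linear_combination h23 a 1 0
  · linear_combination h23 a 2 1

/-- the trivial first order deformation attached to a matrix. -/
def TT (H : Fin 3 → Fin 3 → k) (G : Fin 3 → k) (m i j : Fin 3) : k :=
  ∑ l, (eps k m l j * H l i * G j + eps k m l i * H l j * G i)

lemma TT_eq_zero (h2 : (2 : k) ≠ 0) {H : Fin 3 → Fin 3 → k} {G : Fin 3 → k} (hG : ∀ i, G i ≠ 0)
    (hG0 : G 0 = 1) (h : ∀ m i j, TT H G m i j = 0) :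
    ∀ l i, H l i = if l = i then H 0 0 * G i else 0 := by
  have g0 := hG 0; have g1 := hG 1; have g2 := hG 2
  have aux : ∀ (x y : k), y ≠ 0 → x * y + x * y = 0 → x = 0 := fun x y hy hxy => by
    have : 2 * (x * y) = 0 := by linear_combination hxy
    exact (mul_eq_zero.1 ((mul_eq_zero.1 this).resolve_left h2)).resolve_right hy
  have aux' : ∀ (x y : k), y ≠ 0 → -(x * y) + -(x * y) = 0 → x = 0 := fun x y hy hxy =>
    aux x y hy (by linear_combination -hxy)
  intro l i
  fin_cases l <;> fin_cases i <;> simp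
  · simp [hG0]
  · have := h 2 1 1; simp [TT, eps, epsZ, Fin.sum_univ_three] at this; exact aux _ _ g1 this
  · have := h 1 2 2; simp only [TT, eps, epsZ, Fin.sum_univ_three] at this
    refine aux' _ _ g2 ?_; simpa using this
  · have := h 2 0 0; simp only [TT, eps, epsZ, Fin.sum_univ_three] at this
    refine aux' _ _ g0 ?_; simpa using this
  · have := h 2 0 1; simp [TT, eps, epsZ, Fin.sum_univ_three, hG0] at this
    linear_combination -this
  · have := h 0 2 2; simp [TT, eps, epsZ, Fin.sum_univ_three] at this; exact aux _ _ g2 this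
  · have := h 1 0 0; simp [TT, eps, epsZ, Fin.sum_univ_three] at this; exact aux _ _ g0 this
  · have := h 0 1 1; simp only [TT, eps, epsZ, Fin.sum_univ_three] at this
    refine aux' _ _ g1 ?_; simpa using this
  · have := h 1 0 2; simp [TT, eps, epsZ, Fin.sum_univ_three, hG0] at this
    linear_combination this


/-- standing assumptions on the field and the character. -/
structure GoodChar (χ : AddChar Z7 k) : Prop where
  two : (2 : k) ≠ 0
  three : (3 : k) ≠ 0
  seven : (7 : k) ≠ 0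
  inj : ∀ x, χ x = 1 → x = 0

section chi
variable {χ : AddChar Z7 k}

lemma chi_mul_neg (x : Z7) : χ x * χ (-x) = 1 := by
  rw [← AddChar.map_add_eq_mul]; simp

lemma chi_ne (x : Z7) : χ x ≠ 0 := left_ne_zero_of_mul_eq_one (chi_mul_neg x)

lemma GoodChar.injective (h : GoodChar χ) {x y : Z7} (hxy : χ x = χ y) : x = y := by
  have : χ (x - y) = 1 := by
    rw [sub_eq_add_neg, AddChar.map_add_eq_mul, hxy, chi_mul_neg]
  exact sub_eq_zero.1 (h.inj _ this)

lemma chi_pow (x : Z7) (n : ℕ) : χ x ^ n = χ ((n : Z7) * x) := by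
  rw [← AddChar.map_nsmul_eq_pow, nsmul_eq_mul]

lemma chi_pow_seven (x : Z7) : χ x ^ 7 = 1 := by
  rw [chi_pow]
  have : ((7 : ℕ) : Z7) = 0 := by decide
  rw [this, zero_mul, AddChar.map_zero_eq_one]

lemma GoodChar.ne_neg_one (h : GoodChar χ) (x : Z7) : χ x + 1 ≠ 0 := by
  intro hx
  have h1 : χ x = -1 := by linear_combination hx
  have h2 := chi_pow_seven (χ := χ) x
  rw [h1] at h2
  apply h.two
  linear_combination -h2

lemma GoodChar.phi (h : GoodChar χ) {x : Z7} (hx : x ≠ 0) :
    χ x ^ 6 + χ x ^ 5 + χ x ^ 4 + χ x ^ 3 + χ x ^ 2 + χ x + 1 = 0 := by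
  have h1 : χ x - 1 ≠ 0 := fun h0 => hx (h.inj x (by linear_combination h0))
  have h2 := chi_pow_seven (χ := χ) x
  apply (mul_eq_zero.1 (_ : (χ x - 1) * _ = 0)).resolve_left h1
  linear_combination h2

lemma GoodChar.sum_ne (h : GoodChar χ) {a b c : Z7} (hab : a ≠ b) (hac : a ≠ c) (hbc : b ≠ c) :
    χ a + χ b + χ c ≠ 0 := by
  have key : ∀ a b c : Z7, a ≠ b → a ≠ c → b ≠ c →
      (c - a = 2 * (b - a) ∨ c - a = 3 * (b - a) ∨ c - a = 4 * (b - a) ∨ c - a = 5 * (b - a) ∨
        c - a = 6 * (b - a)) := by decide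
  intro h0
  have hx : b - a ≠ 0 := sub_ne_zero.2 hab.symm
  have hp := h.phi hx
  have h7 := chi_pow_seven (χ := χ) (b - a)
  have hb : χ b = χ a * χ (b - a) := by rw [← AddChar.map_add_eq_mul]; congr 1; ring
  have hc : χ c = χ a * χ (c - a) := by rw [← AddChar.map_add_eq_mul]; congr 1; ring
  have h1 : 1 + χ (b - a) + χ (c - a) = 0 := by
    apply (mul_eq_zero.1 (_ : χ a * _ = 0)).resolve_left (chi_ne a)
    rw [hb, hc] at h0; linear_combination h0
  have h8 : (2 : k) ^ 3 ≠ 0 := pow_ne_zero _ h.two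
  set X := χ (b - a) with hX
  rcases key a b c hab hac hbc with e | e | e | e | e
  · have : χ (c - a) = X ^ 2 := by rw [e, hX, chi_pow]; rfl
    rw [this] at h1
    have : (1 : k) = 0 := by linear_combination hp - (X ^ 4 + X) * h1
    exact one_ne_zero this
  · have : χ (c - a) = X ^ 3 := by rw [e, hX, chi_pow]; rfl
    rw [this] at h1
    apply h8
    linear_combination ((-4) * X ^ 1 + (-4) * X ^ 2 + (-4) * X ^ 3 + (-4) * X ^ 5) * h1 + ((8) * X ^ 0 + (-4) * X ^ 1 + (4) * X ^ 2) * hp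
  · have : χ (c - a) = X ^ 4 := by rw [e, hX, chi_pow]; rfl
    rw [this] at h1
    apply h8
    linear_combination ((-8) * X ^ 2 + (-8) * X ^ 4) * h1 + ((8) * X ^ 0 + (-8) * X ^ 1 + (8) * X ^ 2) * hp
  · have : χ (c - a) = X ^ 5 := by rw [e, hX, chi_pow]; rfl
    rw [this] at h1
    apply h8
    linear_combination ((-4) * X ^ 1 + (-4) * X ^ 3 + (-4) * X ^ 4 + (-4) * X ^ 5) * h1 + ((8) * X ^ 0 + (-4) * X ^ 1 + (4) * X ^ 4) * hp
  · have : χ (c - a) = X ^ 6 := by rw [e, hX, chi_pow]; rfl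
    rw [this] at h1
    apply h8
    linear_combination ((-8) * X ^ 2 + (-8) * X ^ 5) * h1 + ((8) * X ^ 0 + (-8) * X ^ 1 + (8) * X ^ 2 + (-8) * X ^ 4 + (8) * X ^ 5) * hp

lemma chi_three (x : Z7) : χ (3 * x) = χ x ^ 3 := by rw [chi_pow]; rfl

/-- no three of the seven points `(1, ζ^a, ζ^{3a})` are collinear. -/
lemma GoodChar.three_pts (h : GoodChar χ) {a b c : Z7} (hab : a ≠ b) (hac : a ≠ c) (hbc : b ≠ c)
    (y : Fin 3 → k) (ha : ∑ m, y m * χ (ew m * a) = 0) (hb : ∑ m, y m * χ (ew m * b) = 0)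
    (hc : ∑ m, y m * χ (ew m * c) = 0) : ∀ m, y m = 0 := by
  simp only [Fin.sum_univ_three, ew_zero, ew_one, ew_two, zero_mul, one_mul,
    AddChar.map_zero_eq_one, mul_one, chi_three] at ha hb hc
  have n1 : χ a - χ b ≠ 0 := sub_ne_zero.2 fun e => hab (h.injective e)
  have n2 : χ a - χ c ≠ 0 := sub_ne_zero.2 fun e => hac (h.injective e)
  have n3 : χ b - χ c ≠ 0 := sub_ne_zero.2 fun e => hbc (h.injective e)
  have n4 := h.sum_ne hab hac hbc
  have e1 : y 1 + y 2 * (χ a ^ 2 + χ a * χ b + χ b ^ 2) = 0 := by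
    apply (mul_eq_zero.1 (_ : (χ a - χ b) * _ = 0)).resolve_left n1
    linear_combination ha - hb
  have e2 : y 1 + y 2 * (χ a ^ 2 + χ a * χ c + χ c ^ 2) = 0 := by
    apply (mul_eq_zero.1 (_ : (χ a - χ c) * _ = 0)).resolve_left n2
    linear_combination ha - hc
  have e3 : y 2 = 0 := by
    have : (χ b - χ c) * ((χ a + χ b + χ c) * y 2) = 0 := by linear_combination e1 - e2
    exact (mul_eq_zero.1 ((mul_eq_zero.1 this).resolve_left n3)).resolve_left n4
  have e4 : y 1 = 0 := by rw [e3] at e1; linear_combination e1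
  have e5 : y 0 = 0 := by rw [e3, e4] at ha; linear_combination ha
  intro m; fin_cases m <;> assumption

end chi


lemma sum_eps {n i j : Fin 3} (h1 : n ≠ i) (h2 : n ≠ j) (h3 : i ≠ j) (f : Fin 3 → k) :
    ∑ i', eps k n i' j * f i' = eps k n i j * f i := by
  fin_cases n <;> fin_cases i <;> fin_cases j <;> simp_all [eps, epsZ]

lemma sum_eps_self (j : Fin 3) (f : Fin 3 → k) : ∑ i', eps k j i' j * f i' = 0 := by
  simp [eps_self13]

lemma eps_sq {n i j : Fin 3} (h1 : n ≠ i) (h2 : n ≠ j) (h3 : i ≠ j) :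
    eps k n i j * eps k n i j = 1 := by
  fin_cases n <;> fin_cases i <;> fin_cases j <;> simp_all [eps, epsZ]

lemma eps_ne {n i j : Fin 3} (h1 : n ≠ i) (h2 : n ≠ j) (h3 : i ≠ j) : eps k n i j ≠ 0 :=
  left_ne_zero_of_mul_eq_one (eps_sq h1 h2 h3)

lemma exists_third {i j : Fin 3} (h : i ≠ j) :
    ∃ n, n ≠ i ∧ n ≠ j ∧ ∀ l, l = i ∨ l = j ∨ l = n := by
  revert i j; decide

lemma far1 (X : Fin 3 → k) (i j : Fin 3)
    (h : ∀ n m, epsZ m i j = 0 → ∑ i', eps k n i' m * X i' = 0) : ∀ l, X l = 0 := by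
  intro l
  obtain ⟨m, hm, hml⟩ : ∃ m, epsZ m i j = 0 ∧ l ≠ m := by clear h; revert i j l; decide
  obtain ⟨n, h1, h2, -⟩ := exists_third hml
  have := h n m hm
  rw [sum_eps h1 h2 hml] at this
  exact (mul_eq_zero.1 this).resolve_left (eps_ne h1 h2 hml)

lemma near1 (h2 : (2 : k) ≠ 0) (G : Fin 3 → k) (hG : ∀ i, G i ≠ 0)
    (φ : Fin 3 → Fin 3 → Fin 3 → Fin 3 → k) (halt : ∀ n i j l, φ n i j l + φ n i l j = 0)
    (X : Fin 3 → Fin 3 → Fin 3 → k)
    (hX : ∀ n i j l, G j * φ n i j l + G i * φ n j i l = ∑ i', eps k n i' l * X i j i') :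
    ∃ h : Fin 3 → k,
      (∀ i j l, X i j l = (if j = l then h i * G j else 0) + (if i = l then h j * G i else 0)) ∧
      ∀ n i j, i ≠ j → φ n i j i = eps k n j i * h i := by
  have d : ∀ n i j, φ n i j j = 0 := fun n i j =>
    (mul_eq_zero.1 (by linear_combination halt n i j j : 2 * φ n i j j = 0)).resolve_left h2
  have x1 : ∀ i l, l ≠ i → X i i l = 0 := by
    intro i l hl
    obtain ⟨n, h1, h3, -⟩ := exists_third hl
    have := hX n i i i
    rw [sum_eps h1 h3 hl, d, mul_zero, add_zero] at this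
    exact (mul_eq_zero.1 this.symm).resolve_left (eps_ne h1 h3 hl)
  have hphi : ∀ n i j, i ≠ j → φ n i j i = eps k n j i * (X i i i / (2 * G i)) := by
    intro n i j hij
    have e := hX n i i j
    have e2 : ∑ i', eps k n i' j * X i i i' = eps k n i j * X i i i := by
      rw [Finset.sum_eq_single i]
      · intro b _ hb; rw [x1 i b hb, mul_zero]
      · simp
    rw [e2] at e
    have g := hG i
    field_simp
    rw [eps_swap n j i]
    linear_combination 2 * G i * halt n i j i - e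
  refine ⟨fun i => X i i i / (2 * G i), ?_, hphi⟩
  have xs : ∀ i j, i ≠ j → X i j i = X j j j / (2 * G j) * G i := by
    intro i j hij
    obtain ⟨n, h1, h3, -⟩ := exists_third hij
    have e := hX n i j j
    rw [sum_eps h1 h3 hij, d, hphi n j i hij.symm] at e
    apply mul_left_cancel₀ (eps_ne (k := k) h1 h3 hij)
    linear_combination -e
  have xs' : ∀ i j, i ≠ j → X i j j = X i i i / (2 * G i) * G j := by
    intro i j hij
    obtain ⟨n, h1, h3, -⟩ := exists_third hij
    have e := hX n i j i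
    rw [sum_eps h3 h1 hij.symm, d, hphi n i j hij] at e
    apply mul_left_cancel₀ (eps_ne (k := k) h3 h1 hij.symm)
    linear_combination -e
  intro i j l
  by_cases hij : i = j
  · subst hij
    by_cases hl : i = l
    · subst hl
      have g := hG i
      simp only [if_true]; field_simp; ring
    · simp [hl, x1 i l (Ne.symm hl)]
  · obtain ⟨n, h1, h3, h4⟩ := exists_third hij
    rcases h4 l with rfl | rfl | rfl
    · simp [Ne.symm hij, xs l j hij]
    · simp [hij, xs' i l hij]
    · have e := hX i i j j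
      rw [sum_eps h1.symm hij h3, d, hphi i j i (Ne.symm hij), eps_self12] at e
      have : X i j l = 0 := by
        apply (mul_eq_zero.1 (_ : eps k i l j * X i j l = 0)).resolve_left (eps_ne h1.symm hij h3)
        linear_combination -e
      simp [this, h1.symm, h3.symm]

/-- contraction of a first order deformation on an edge. -/
def NN (Z : Fin 3 → Fin 3 → Fin 3 → k) (m i : Fin 3) : k := ∑ l, ∑ j, eps k l m j * Z l i j

def CC (Z : Fin 3 → Fin 3 → Fin 3 → k) (i j l : Fin 3) : k := Z l i j + Z i j l + Z j l i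

lemma recon (Z : Fin 3 → Fin 3 → Fin 3 → k) (hs : ∀ m i j, Z m i j = Z m j i)
    (hC : ∀ i j l, CC Z i j l = 0) (m i j : Fin 3) :
    3 * Z m i j = TT (NN Z) (fun _ => 1) m i j := by
  have : TT (NN Z) (fun _ => 1) m i j = Z m i j + Z m j i - Z j i m - Z i j m := by
    fin_cases m <;> fin_cases i <;> fin_cases j <;>
      simp [TT, NN, eps, epsZ, Fin.sum_univ_three] <;> ring
  rw [this]
  have e := hC i j m
  unfold CC at e
  linear_combination e + hs m i j - hs j m i

lemma tri0 (φ Z1 Z2 Z3 : Fin 3 → Fin 3 → Fin 3 → k)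
    (h1 : ∀ i j l, φ i j l + φ j i l = Z1 l i j) (h2 : ∀ i j l, φ i j l + φ i l j = Z2 i j l)
    (h3 : ∀ i j l, φ i j l + φ l j i = Z3 j l i) :
    (∀ i j l, CC Z1 i j l = CC Z2 i j l) ∧ ∀ m i, NN Z1 m i + NN Z2 m i + NN Z3 m i = 0 := by
  constructor
  · intro i j l
    simp only [CC, ← h1, ← h2]; ring
  · intro m i
    simp only [NN, ← h1, ← h2, ← h3]
    fin_cases m <;> simp [eps, epsZ, Fin.sum_univ_three] <;> ring

section chi
variable {χ : AddChar Z7 k}

def Wedge (χ : AddChar Z7 k) (Y : Fin 3 → Fin 3 → Fin 3 → k) (x y : Z7) : Prop :=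
  ∃ μ : k, ∀ m i j, Y m i j =
    μ * eps k m i j * (χ (ew i * x) * χ (ew j * y) - χ (ew j * x) * χ (ew i * y))

lemma Wedge.same {Y : Fin 3 → Fin 3 → Fin 3 → k} {x : Z7} (h : Wedge χ Y x x) (m i j : Fin 3) :
    Y m i j = 0 := by
  obtain ⟨μ, hμ⟩ := h
  rw [hμ]; ring

lemma Wedge.orth {Y : Fin 3 → Fin 3 → Fin 3 → k} {x y : Z7} (h : Wedge χ Y x y) :
    ∑ m, Y m (m + 1) (m + 2) * χ (ew m * x) = 0 ∧
      ∑ m, Y m (m + 1) (m + 2) * χ (ew m * y) = 0 := by
  obtain ⟨μ, hμ⟩ := h
  simp only [hμ, eps_succ]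
  constructor <;> simp [Fin.sum_univ_three] <;> ring

lemma Wedge.three (hχ : GoodChar χ) {Y : Fin 3 → Fin 3 → Fin 3 → k} {a b a' b' : Z7}
    (h : Wedge χ Y a b) (h' : Wedge χ Y a' b') (hab : a ≠ b)
    (h3 : (a ≠ a' ∧ b ≠ a') ∨ (a ≠ b' ∧ b ≠ b')) (m i j : Fin 3) : Y m i j = 0 := by
  have hy : ∀ m, Y m (m + 1) (m + 2) = 0 := by
    rcases h3 with ⟨h4, h5⟩ | ⟨h4, h5⟩
    · exact hχ.three_pts hab h4 h5 _ h.orth.1 h.orth.2 h'.orth.1
    · exact hχ.three_pts hab h4 h5 _ h.orth.1 h.orth.2 h'.orth.2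
  obtain ⟨μ, hμ⟩ := h
  have := hy m
  rw [hμ, eps_succ] at this
  rw [hμ]
  fin_cases m <;> fin_cases i <;> fin_cases j <;> simp [eps, epsZ] at this ⊢ <;>
    first | exact this | (rcases this with h | h
                          · exact Or.inl h
                          · right; linear_combination -h)

lemma wedge_of_TT (hχ : GoodChar χ) {H : Fin 3 → Fin 3 → k} {x y : Z7}
    (h : ∀ m i j, TT H (fun i => χ (ew i * x)) m i j = 0) :
    Wedge χ (TT H fun i => χ (ew i * y)) x y := by
  have := TT_eq_zero hχ.two (fun i => chi_ne _) (by simp) h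
  refine ⟨H 0 0, fun m i j => ?_⟩
  unfold TT
  generalize H 0 0 = μ at this
  rw [Finset.sum_add_distrib, Finset.sum_eq_single i, Finset.sum_eq_single j, eps_swap m j i,
    this i i, this j j]
  · simp; ring
  · intro b _ hb; simp [this b, hb]
  · simp
  · intro b _ hb; simp [this b, hb]
  · simp

end chi

end Pool.Agent.MP_f49c72_ag

end

section

/-! The combinatorial properties of the `ℤ/7`-valued cochain that are used. -/

namespace Pool.Agent.MP_f49c72_ag

variable {V : Type} (c : V → V → Z7)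

def hol (u v w : V) : Z7 := c u v + c v w + c w u

def Flat (u v w : V) : Prop := u ≠ v ∧ v ≠ w ∧ w ≠ u ∧ hol c u v w = 0

def C2 (s t u v : V) : Prop :=
  Flat c u s t ∨ ∃ r r', Flat c r s t ∧ Flat c r' s t ∧ r ≠ u ∧ r ≠ v ∧ r' ≠ u ∧ r' ≠ v ∧
    (c r s + c u r = c u v + c r s + c v r ∨
      (c r s + c u r ≠ c r' s + c u r' ∧ c u v + c r s + c v r ≠ c r' s + c u r') ∨
      (c r s + c u r ≠ c u v + c r' s + c v r' ∧
        c u v + c r s + c v r ≠ c u v + c r' s + c v r'))

structure Comb [Fintype V] : Prop where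
  anti : ∀ u v, c v u = - c u v
  diag : ∀ u, c u u = 0
  big : ∀ s u v : V, ∃ r, r ≠ s ∧ r ≠ u ∧ r ≠ v
  card : 3 < Fintype.card V
  nonflat : ∀ s t, s ≠ t → ∃ r, hol c r s t ≠ 0
  twoflat : ∀ s t u, s ≠ t → ∃ r, r ≠ u ∧ Flat c r s t
  c2 : ∀ s t u v, s ≠ t → u ≠ v → u ≠ s → u ≠ t → v ≠ s → v ≠ t →
    C2 c s t u v ∨ C2 c t s u v ∨ C2 c s t v u ∨ C2 c t s v u
  c1 : ∀ s u, s ≠ u → ∃ v1 v2, v1 ≠ u ∧ v2 ≠ u ∧ Flat c s v1 v2 ∧ ∀ Z : V → Prop, Z v1 → Z v2 →
    (∀ v a, Flat c s v a → c u a + c a s = c u v + c v s → Z a → Z v) →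
    (∀ v a b, Flat c s v a → Flat c s v b → c u v + c v s ≠ c u a + c a s →
      c u v + c v s ≠ c u b + c b s → c u a + c a s ≠ c u b + c b s → Z a → Z b → Z v) →
    ∀ v, v ≠ s → Z v
  cC : ∃ a b d f, Flat c a b d ∧ Flat c b d f ∧ Flat c f b a ∧ ∀ Z : V → V → Prop, Z a b →
    (∀ u v w, Flat c u v w → Z v w → Z u v) → (∀ u v, u ≠ v → Z v u → Z u v) →
    ∀ u v, u ≠ v → Z u v
  cH : ∃ (o u0 v0 : V) (n : V → V → ℤ), (∀ v, c o v = 0) ∧ c u0 v0 ≠ 0 ∧ (∀ v, n o v = 0) ∧
    (∀ v, n v o = 0) ∧ n u0 v0 = 1 ∧ n v0 u0 = -1 ∧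
    (∃ a b d, Flat c a b d ∧ n a b + n b d + n d a = 7) ∧
    ∀ Z : V → V → Prop, (∀ v, v ≠ o → Z o v) → (∀ v, v ≠ o → Z v o) → Z u0 v0 → Z v0 u0 →
      (∀ u v w, Flat c u v w → n u v + n v w + n w u = 0 → Z v w → Z w u → Z u v) →
      ∀ u v, u ≠ v → Z u v
  chir : ∀ π : Equiv.Perm V, (∀ u v w, Flat c u v w ↔ Flat c (π u) (π v) (π w)) →
    ∃ u v w, u ≠ v ∧ v ≠ w ∧ w ≠ u ∧ hol c u v w ≠ 0 ∧ π u = u ∧ π v = v ∧ π w = w

variable {c}

lemma Flat.cyc {u v w : V} (h : Flat c u v w) : Flat c v w u :=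
  ⟨h.2.1, h.2.2.1, h.1, by rw [← h.2.2.2]; unfold hol; ring⟩

variable [Fintype V]

lemma Comb.flat_swap (hc : Comb c) {u v w : V} (h : Flat c u v w) : Flat c u w v :=
  ⟨h.2.2.1.symm, h.2.1.symm, h.1.symm, by
    have := h.2.2.2
    unfold hol at this ⊢
    rw [hc.anti w u, hc.anti v w, hc.anti u v]; linear_combination -this⟩

lemma Comb.flat_add (hc : Comb c) {u v w : V} (h : Flat c u v w) : c u w = c u v + c v w := by
  have := h.2.2.2
  unfold hol at this
  rw [hc.anti w u]; linear_combination -this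

variable {k : Type*} [Field k] {χ : AddChar Z7 k}

/-- vanishing of the (twisted) first cohomology of the complex of flat triangles. -/
lemma Comb.h1 (hc : Comb c) (hχ : GoodChar χ) (w : Z7) (f : V → V → k)
    (hanti : ∀ u v, u ≠ v → f u v + χ (w * c u v) * f v u = 0)
    (hcoc : ∀ u v t, Flat c u v t →
      f u v + χ (w * c u v) * f v t + χ (w * c u t) * f t u = 0) :
    ∃ b : V → k, ∀ u v, u ≠ v → f u v = b u - χ (w * c u v) * b v := by
  classical
  obtain ⟨o, u0, v0, n, ho, h0, no1, no2, n1, n2, ⟨a, b, d, habd, h7⟩, hind⟩ := hc.cH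
  have ho' : ∀ v, c v o = 0 := fun v => by rw [hc.anti o v, ho, neg_zero]
  have hu0 : u0 ≠ o := fun e => h0 (by rw [e, ho])
  have hv0 : v0 ≠ o := fun e => h0 (by rw [e, ho'])
  have huv0 : u0 ≠ v0 := fun e => h0 (by rw [e, hc.diag])
  set β : k := (f u0 v0 + f o u0 - χ (w * c u0 v0) * f o v0) / (1 - χ (w * c u0 v0)) with hβ
  set B : V → k := fun v => if v = o then β else β - f o v with hB
  set g : V → V → k := fun u v => f u v - (B u - χ (w * c u v) * B v) with hg
  have ganti : ∀ u v, u ≠ v → g u v + χ (w * c u v) * g v u = 0 := by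
    intro u v huv
    have e : χ (w * c u v) * χ (w * c v u) = 1 := by
      rw [hc.anti u v, mul_neg, chi_mul_neg]
    simp only [hg]
    linear_combination hanti u v huv + B u * e
  have gcoc : ∀ u v t, Flat c u v t →
      g u v + χ (w * c u v) * g v t + χ (w * c u t) * g t u = 0 := by
    intro u v t h
    have e : χ (w * c u t) * χ (w * c t u) = 1 := by
      rw [hc.anti u t, mul_neg, chi_mul_neg]
    have e2 : χ (w * c u v) * χ (w * c v t) = χ (w * c u t) := by
      rw [← AddChar.map_add_eq_mul, hc.flat_add h, mul_add]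
    simp only [hg]
    linear_combination hcoc u v t h + B u * e + B t * e2
  have go : ∀ v, v ≠ o → g o v = 0 := by
    intro v hv
    simp [hg, hB, hv, ho]
  have go' : ∀ v, v ≠ o → g v o = 0 := by
    intro v hv
    have := ganti o v hv.symm
    rw [go v hv, ho] at this
    simpa using this
  have hx : w = 0 ∨ g u0 v0 = 0 := by
    by_cases hw : w = 0
    · exact Or.inl hw
    · right
      have hne : 1 - χ (w * c u0 v0) ≠ 0 := by
        intro e
        have : Fact (Nat.Prime 7) := ⟨by norm_num⟩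
        exact mul_ne_zero hw h0 (hχ.inj _ (by linear_combination -e))
      simp only [hg, hB, hu0, hv0, if_false]
      have : β * (1 - χ (w * c u0 v0)) = f u0 v0 + f o u0 - χ (w * c u0 v0) * f o v0 := by
        rw [hβ]; field_simp
      linear_combination -this
  have key : ∀ u v, u ≠ v → g u v = n u v * g u0 v0 := by
    apply hind
    · intro v hv; rw [go v hv, no1]; simp
    · intro v hv; rw [go' v hv, no2]; simp
    · rw [n1]; simp
    · rw [n2]
      have := ganti u0 v0 huv0
      rcases hx with hw | hx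
      · rw [hw] at this; simp at this ⊢; linear_combination this
      · rw [hx] at this ⊢
        simpa [chi_ne] using this
    · intro u v t h hn h1 h2
      have := gcoc u v t h
      have hn' : (n u v : k) + n v t + n t u = 0 := by exact_mod_cast congrArg (Int.cast : ℤ → k) hn
      rw [h1, h2] at this
      rcases hx with hw | hx
      · rw [hw] at this; simp at this; linear_combination this - g u0 v0 * hn'
      · rw [hx] at this ⊢; simpa using this
  have hz : g u0 v0 = 0 := by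
    rcases hx with hw | hx
    · have := gcoc a b d habd
      rw [key a b habd.1, key b d habd.2.1, key d a habd.2.2.1, hw] at this
      have hn' : (n a b : k) + n b d + n d a = 7 := by
        exact_mod_cast congrArg (Int.cast : ℤ → k) h7
      simp at this
      have h3 : 7 * g u0 v0 = 0 := by linear_combination this - g u0 v0 * hn'
      exact (mul_eq_zero.1 h3).resolve_left hχ.seven
    · exact hx
  refine ⟨B, fun u v huv => ?_⟩
  have := key u v huv
  rw [hz, mul_zero] at this
  simp only [hg] at this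
  linear_combination this

/-- vanishing of the cubic part. -/
lemma Comb.hC (hc : Comb c) (hχ : GoodChar χ) (w : Z7) (f : V → V → k)
    (hanti : ∀ u v, u ≠ v → f u v + χ (w * c u v) * f v u = 0)
    (hcoc : ∀ u v t, Flat c u v t → f u v = χ (w * c u v) * f v t) :
    ∀ u v, u ≠ v → f u v = 0 := by
  obtain ⟨a, b, d, e, h1, h2, h3, hind⟩ := hc.cC
  apply hind (fun u v => f u v = 0)
  · have e1 := hcoc a b d h1
    have e2 := hcoc b d e h2
    have e3 := hcoc d e b h2.cyc
    have e4 := hcoc e b a h3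
    have e5 := hanti a b h1.1
    have : f b a * (χ (w * c a b) * (χ (w * c b d + w * c d e + w * c e b) + 1)) = 0 := by
      rw [AddChar.map_add_eq_mul, AddChar.map_add_eq_mul]
      rw [e2, e3, e4] at e1
      linear_combination e5 - e1
    have h0 : f b a = 0 :=
      (mul_eq_zero.1 this).resolve_right (mul_ne_zero (chi_ne _) (hχ.ne_neg_one _))
    rw [h0] at e5; simpa using e5
  · intro u v t h h0
    rw [hcoc u v t h, h0, mul_zero]
  · intro u v huv h0
    have := hanti u v huv
    rw [h0] at this; simpa using this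

end Pool.Agent.MP_f49c72_ag

end

section

/-! No linear substitution carries the conjugate quadrics to the original ones. -/

namespace Pool.Agent.MP_f49c72_ag

open Module

variable {K : Type*} [Field K] {V : Type}

lemma cross_zero_smul {a b : Fin 3 → K} (ha : a ≠ 0) (h : crossProduct a b = 0) :
    ∃ μ : K, b = μ • a := by
  by_contra hn
  push Not at hn
  exact crossProduct_ne_zero_iff_linearIndependent.2
    ((LinearIndependent.pair_iff' ha).2 fun μ e => hn μ e.symm) h

lemma sym_zero {M ι : Type*} [AddCommGroup M] [Module K M] (h2 : (2 : K) ≠ 0) (l : ι → K)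
    (β : ι → M) (h : ∀ i j, l i • β j + l j • β i = 0) {i0 : ι} (h0 : l i0 ≠ 0) (j : ι) :
    β j = 0 := by
  have e : β i0 = 0 := by
    have := h i0 i0
    rw [← two_smul K, smul_smul] at this
    exact (smul_eq_zero.1 this).resolve_left (mul_ne_zero h2 h0)
  have := h i0 j
  rw [e, smul_zero, add_zero] at this
  exact (smul_eq_zero.1 this).resolve_left h0

lemma cross_prop (h2 : (2 : K) ≠ 0) {a y : Fin 3 → Fin 3 → K} (ha : LinearIndependent K a)
    (h : ∀ i j, crossProduct (a i) (y j) + crossProduct (a j) (y i) = 0) :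
    ∃ ν : K, ∀ j, y j = ν • a j := by
  have : ∀ i, ∃ μ : K, y i = μ • a i := by
    intro i
    apply cross_zero_smul (ha.ne_zero i)
    have := h i i
    rw [← two_smul K] at this
    exact (smul_eq_zero.1 this).resolve_left h2
  choose κ hκ using this
  refine ⟨κ 0, fun j => ?_⟩
  by_cases hj : j = 0
  · rw [hj, hκ]
  have e := h 0 j
  rw [hκ j, hκ 0, map_smul, map_smul, ← cross_anticomm (a 0), smul_neg, ← sub_eq_add_neg,
    ← sub_smul] at e
  rcases smul_eq_zero.1 e with e | e
  · rw [hκ j, sub_eq_zero.1 e]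
  · obtain ⟨μ, hμ⟩ := cross_zero_smul (ha.ne_zero 0) e
    exfalso
    have := Fintype.linearIndependent_iff.1 ha (Pi.single j 1 - Pi.single 0 μ)
      (by simp [sub_smul, Finset.sum_sub_distrib, Pi.single_apply, hμ]) j
    simp [Pi.single_eq_of_ne hj] at this

lemma col_ne {a : Fin 3 → Fin 3 → K} (ha : LinearIndependent K a) (n : Fin 3) : ∃ j, a j n ≠ 0 := by
  by_contra hn
  push Not at hn
  have h1 : IsUnit (Matrix.of a) := Matrix.linearIndependent_rows_iff_isUnit.1 ha
  rw [Matrix.isUnit_iff_isUnit_det, Matrix.det_eq_zero_of_column_eq_zero (A := Matrix.of a) n hn] at h1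
  exact not_isUnit_zero h1

variable (χ : AddChar Z7 K) (c : V → V → Z7)

def hat (s t : V) : (Fin 3 × V → K) →ₗ[K] (Fin 3 → K) where
  toFun y n := χ (-(ew n * c s t)) * y (n, t)
  map_add' y y' := by funext n; simp [mul_add]
  map_smul' r y := by funext n; simp [mul_left_comm]

lemma hat_apply (s t : V) (y : Fin 3 × V → K) (n : Fin 3) :
    hat χ c s t y n = χ (-(ew n * c s t)) * y (n, t) := rfl

lemma hat_eq_zero {s t : V} {y : Fin 3 × V → K} : hat χ c s t y = 0 ↔ ∀ n, y (n, t) = 0 := by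
  simp [funext_iff, hat_apply, chi_ne]

def Bil (s t : V) (y y' : Fin 3 × V → K) : Fin 3 → K :=
  crossProduct (hat χ c s s y) (hat χ c s t y') + crossProduct (hat χ c s s y') (hat χ c s t y)

/-- the relations on an edge. -/
def Rel (w y : Fin 3 → Fin 3 × V → K) : Prop :=
  ∀ s t i j, Bil χ c s t (w i) (y j) + Bil χ c s t (w j) (y i) = 0

variable {χ c}

lemma Rel.self (h2 : (2 : K) ≠ 0) {w : Fin 3 → Fin 3 × V → K} (h : Rel χ c w w) (s t : V)
    (i j : Fin 3) : Bil χ c s t (w i) (w j) = 0 := by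
  have := h s t i j
  have e : Bil χ c s t (w j) (w i) = Bil χ c s t (w i) (w j) := add_comm _ _
  rw [e, ← two_smul K] at this
  exact (smul_eq_zero.1 this).resolve_left h2

variable [Fintype V] [DecidableEq V]

/-- a nonzero block is invertible. -/
lemma block_li (h2 : (2 : K) ≠ 0) (hV : 3 < Fintype.card V) {w : Fin 3 → Fin 3 × V → K}
    (hw : LinearIndependent K w) (hN : Rel χ c w w) {S : Set (Fin 3 × V → K)}
    (hS : ∀ y, y ∈ Submodule.span K S)
    (hR : ∀ y ∈ S, ∃ (Y : Fin 3 → Fin 3 × V → K) (j : Fin 3) (r : K), Rel χ c w Y ∧ y = r • Y j)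
    {s : V} {i0 : Fin 3} (h0 : hat χ c s s (w i0) ≠ 0) :
    LinearIndependent K fun i => hat χ c s s (w i) := by
  by_contra hn
  obtain ⟨μ, hμ, i1, hi1⟩ := Fintype.not_linearIndependent_iff.1 hn
  have hw0 : ∑ i, μ i • w i ≠ 0 := fun e => hi1 (Fintype.linearIndependent_iff.1 hw μ e i1)
  obtain ⟨⟨n0, t0⟩, ht0⟩ := Function.ne_iff.1 hw0
  set a := hat χ c s t0 (∑ i, μ i • w i) with ha
  have ha0 : a ≠ 0 := fun e => ht0 ((hat_eq_zero χ c).1 e n0)
  have hB := hN.self h2
  have e1 : ∀ i, crossProduct a (hat χ c s s (w i)) = 0 := by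
    intro i
    have h1 : Bil χ c s t0 (w i) (∑ j, μ j • w j) = ∑ j, μ j • Bil χ c s t0 (w i) (w j) := by
      simp only [Bil, map_sum, map_smul, LinearMap.sum_apply, LinearMap.smul_apply, smul_add,
        Finset.sum_add_distrib]
    simp only [hB, smul_zero, Finset.sum_const_zero] at h1
    simp only [← map_smul, ← map_sum] at hμ
    rw [Bil, hμ, ← ha, LinearMap.map_zero₂, add_zero] at h1
    rw [← cross_anticomm, h1, neg_zero]
  choose l0 hl0 using fun i => cross_zero_smul ha0 (e1 i)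
  have hl00 : l0 i0 ≠ 0 := fun e => h0 (by rw [hl0, e, zero_smul])
  have e2 : ∀ t j, crossProduct a (hat χ c s t (w j)) = 0 := by
    intro t
    refine sym_zero h2 l0 _ (fun i j => ?_) hl00
    have := hB s t i j
    rwa [Bil, hl0, hl0, LinearMap.map_smul₂, LinearMap.map_smul₂] at this
  choose l hl using fun t j => cross_zero_smul ha0 (e2 t j)
  have hdep : ¬ LinearIndependent K l := fun h => by
    have := h.fintype_card_le_finrank
    simp at this
    omega
  obtain ⟨ν, hν, t1, ht1⟩ := Fintype.not_linearIndependent_iff.1 hdep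
  have hν' : ∀ j, ∑ t, ν t * l t j = 0 := fun j => by simpa using congrFun hν j
  let Λ : (Fin 3 × V → K) →ₗ[K] (Fin 3 → K) := ∑ t, ν t • (crossProduct a ∘ₗ hat χ c s t)
  have hΛ : ∀ y, Λ y = ∑ t, ν t • crossProduct a (hat χ c s t y) := by
    intro y; simp [Λ, LinearMap.sum_apply]
  have e3 : ∀ y, Λ y = 0 := by
    intro y
    refine (Submodule.span_le (p := LinearMap.ker Λ)).2 ?_ (hS y)
    intro y hy
    obtain ⟨Y, j, r, hY, rfl⟩ := hR y hy
    refine Submodule.smul_mem _ _ ?_
    refine sym_zero h2 l0 (fun j => Λ (Y j)) (fun i j => ?_) hl00 j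
    have : ∑ t, ν t • (Bil χ c s t (w i) (Y j) + Bil χ c s t (w j) (Y i)) = 0 := by simp [hY s]
    simp only [Bil, hl0, LinearMap.map_smul₂, smul_add, Finset.sum_add_distrib] at this
    simp only [hl, map_smul, smul_smul, ← Finset.sum_smul, hν', zero_smul, add_zero] at this
    simp only [hΛ, Finset.smul_sum, smul_smul, mul_comm (l0 _)]
    exact this
  have e4 : ∀ n, crossProduct a (Pi.single n 1) = 0 := by
    intro n
    have := e3 (Pi.single (n, t1) (χ (ew n * c s t1)))
    rw [hΛ, Finset.sum_eq_single t1] at this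
    · have e : hat χ c s t1 (Pi.single (n, t1) (χ (ew n * c s t1))) = Pi.single n 1 := by
        funext m
        by_cases hm : m = n
        · subst hm; simp [hat_apply, mul_comm, chi_mul_neg]
        · simp [hat_apply, hm]
      rw [e] at this
      exact (smul_eq_zero.1 this).resolve_left ht1
    · intro t _ ht
      rw [(hat_eq_zero χ c).2 fun m => by simp [ht]]; simp
    · simp
  apply ha0
  have f0 := e4 0
  have f1 := e4 1
  simp [cross_apply] at f0 f1
  funext m
  fin_cases m <;> simp [f0, f1]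

omit [Fintype V] [DecidableEq V] in
lemma third_zero (hχ : GoodChar χ) (hanti : ∀ u v, c v u = - c u v) (hd : ∀ u, c u u = 0)
    {w y : Fin 3 → Fin 3 × V → K} (hN : Rel χ c w w) {s t r : V} (hr : hol c r s t ≠ 0)
    (hs : LinearIndependent K fun i => hat χ c s s (w i))
    (ht : LinearIndependent K fun i => hat χ c t t (w i))
    (h1 : ∀ i j, crossProduct (hat χ c s s (w i)) (hat χ c s r (y j)) +
      crossProduct (hat χ c s s (w j)) (hat χ c s r (y i)) = 0)
    (h2 : ∀ i j, crossProduct (hat χ c t t (w i)) (hat χ c t r (y j)) +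
      crossProduct (hat χ c t t (w j)) (hat χ c t r (y i)) = 0) (j n : Fin 3) : y j (n, r) = 0 := by
  obtain ⟨ν, hν⟩ := cross_prop hχ.two hs h1
  obtain ⟨ν', hν'⟩ := cross_prop hχ.two ht h2
  obtain ⟨κ, hκ⟩ := cross_prop hχ.two hs (hN.self hχ.two s t)
  have key : ∀ n, ν = ν' * κ * χ (ew n * hol c r s t) := by
    intro n
    obtain ⟨j, hj⟩ := col_ne hs n
    have e1 := congrFun (hν j) n
    have e2 := congrFun (hν' j) n
    have e3 := congrFun (hκ j) n
    simp only [hat_apply, hd, mul_zero, neg_zero, AddChar.map_zero_eq_one, one_mul, Pi.smul_apply,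
      smul_eq_mul] at e1 e2 e3 hj
    have e4 : χ (ew n * hol c r s t) * χ (-(ew n * c s t)) * χ (-(ew n * c t r)) =
        χ (-(ew n * c s r)) := by
      simp only [← AddChar.map_add_eq_mul, hol, hanti s r]; congr 1; ring
    apply mul_right_cancel₀ hj
    linear_combination (-1 : K) * e1 - y j (n, r) * e4 +
      χ (ew n * hol c r s t) * χ (-(ew n * c s t)) * e2 + ν' * χ (ew n * hol c r s t) * e3
  have k0 := key 0
  have k1 := key 1
  simp only [ew_zero, zero_mul, AddChar.map_zero_eq_one, mul_one, ew_one, one_mul] at k0 k1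
  have : ν = 0 := by
    by_contra h0
    apply hr
    apply hχ.inj
    apply mul_left_cancel₀ h0
    rw [mul_one]
    nth_rewrite 1 [k0]
    exact k1.symm
  have := hν j
  rw [‹ν = 0›, zero_smul] at this
  exact (hat_eq_zero χ c).1 this n

lemma dec_chir : ∀ J h h' C : Z7, (J = 3 ∨ J = 5 ∨ J = 6) →
    (∀ j, ∃ n, J * (ew j * h) - ew n * h' = C) → (∀ n, ∃ j, J * (ew j * h) - ew n * h' = C) →
    (h = 0 ↔ h' = 0) ∧ (h = h' → h = 0) := by decide +kernel

theorem no_iso (hχ : GoodChar χ) (hC : Comb c) {J : Z7} (hJ : J = 3 ∨ J = 5 ∨ J = 6)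
    (g : Fin 3 × V → Fin 3 × V → K) (hli : LinearIndependent K g)
    (hsp : ∀ y, y ∈ Submodule.span K (Set.range g))
    (hrel : ∀ u v, Rel χ c (fun i => g (i, u)) fun j => χ (J * (ew j * c u v)) • g (j, v)) :
    False := by
  have hN : ∀ u, Rel χ c (fun i => g (i, u)) fun i => g (i, u) := by
    intro u; simpa [hC.diag] using hrel u u
  have hw : ∀ u, LinearIndependent K fun i => g (i, u) := fun u =>
    hli.comp (fun i => (i, u)) fun i j e => (Prod.ext_iff.1 e).1
  have hb : ∀ u s i0, hat χ c s s (g (i0, u)) ≠ 0 →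
      LinearIndependent K fun i => hat χ c s s (g (i, u)) := by
    intro u s i0 h0
    refine block_li hχ.two hC.card (hw u) (hN u) hsp ?_ h0
    rintro _ ⟨⟨j, v⟩, rfl⟩
    refine ⟨_, j, χ (-(J * (ew j * c u v))), hrel u v, ?_⟩
    rw [smul_smul, mul_comm, chi_mul_neg, one_smul]
  have hcol : ∀ r, ¬ ∀ j v n, g (j, v) (n, r) = 0 := by
    intro r h
    have : ∀ y : Fin 3 × V → K, y (0, r) = 0 := by
      intro y
      refine (Submodule.span_le (p := LinearMap.ker (LinearMap.proj (R := K)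
        (φ := fun _ : Fin 3 × V => K) (0, r)))).2 ?_ (hsp y)
      rintro _ ⟨⟨j, v⟩, rfl⟩
      exact h j v 0
    exact one_ne_zero (this 1)
  have hex : ∀ u, ∃ s, LinearIndependent K fun i => hat χ c s s (g (i, u)) := by
    intro u
    obtain ⟨⟨n, s⟩, hs⟩ := Function.ne_iff.1 (hli.ne_zero (0, u))
    exact ⟨s, hb u s 0 fun e => hs ((hat_eq_zero χ c).1 e n)⟩
  choose π hπ using hex
  have hz : ∀ u t, t ≠ π u → ∀ i n, g (i, u) (n, t) = 0 := by
    intro u t htu i
    by_contra h0
    have ht := hb u t i fun e => h0 ((hat_eq_zero χ c).1 e)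
    obtain ⟨r, hr⟩ := hC.nonflat (π u) t htu.symm
    have h1 := third_zero hχ hC.anti hC.diag (hN u) hr (hπ u) ht ((hN u).self hχ.two _ _)
      ((hN u).self hχ.two _ _)
    have h2 : ∀ s i, hat χ c s r (g (i, u)) = 0 := fun s i => (hat_eq_zero χ c).2 (h1 i)
    refine hcol r fun j v n => ?_
    have := third_zero hχ hC.anti hC.diag (y := fun j => χ (J * (ew j * c u v)) • g (j, v)) (hN u)
      hr (hπ u) ht (fun i j => by simpa only [Bil, h2, map_zero, add_zero] using hrel u v (π u) r i j)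
      (fun i j => by simpa only [Bil, h2, map_zero, add_zero] using hrel u v t r i j) j n
    simpa [chi_ne] using this
  have hsurj : Function.Surjective π := by
    intro s
    by_contra h
    push Not at h
    exact hcol s fun j v n => hz v s (h v).symm j n
  let p : Equiv.Perm V := Equiv.ofBijective π ⟨Finite.injective_iff_surjective.2 hsurj, hsurj⟩
  have hedge : ∀ u v, u ≠ v → ∃ l : K, ∀ j n,
      χ (J * (ew j * c u v) - ew n * c (π u) (π v)) * g (j, v) (n, π v) = l * g (j, u) (n, π u) := by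
    intro u v huv
    have hne : π u ≠ π v := fun e => huv (p.injective e)
    have h0 : ∀ j (r : K), hat χ c (π u) (π u) (r • g (j, v)) = 0 := fun j r => by
      rw [map_smul, (hat_eq_zero χ c).2 (hz v _ hne j), smul_zero]
    obtain ⟨l, hl⟩ := cross_prop hχ.two (hπ u)
      (y := fun j => hat χ c (π u) (π v) (χ (J * (ew j * c u v)) • g (j, v)))
      (fun i j => by
        simpa only [Bil, h0, LinearMap.map_zero₂, add_zero] using hrel u v (π u) (π v) i j)
    refine ⟨l, fun j n => ?_⟩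
    have := congrFun (hl j) n
    simp only [hat_apply, hC.diag, mul_zero, neg_zero, AddChar.map_zero_eq_one, one_mul,
      Pi.smul_apply, smul_eq_mul] at this
    rw [← this, sub_eq_add_neg, AddChar.map_add_eq_mul]; ring
  have htri : ∀ u v w, u ≠ v → v ≠ w → w ≠ u →
      (hol c u v w = 0 ↔ hol c (π u) (π v) (π w) = 0) ∧
        (hol c u v w = hol c (π u) (π v) (π w) → hol c u v w = 0) := by
    intro u v w h1 h2 h3
    obtain ⟨l1, e1⟩ := hedge u v h1
    obtain ⟨l2, e2⟩ := hedge v w h2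
    obtain ⟨l3, e3⟩ := hedge w u h3
    have key : ∀ j n, g (j, u) (n, π u) ≠ 0 →
        χ (J * (ew j * hol c u v w) - ew n * hol c (π u) (π v) (π w)) = l1 * l2 * l3 := by
      intro j n hne
      have e : χ (J * (ew j * hol c u v w) - ew n * hol c (π u) (π v) (π w)) =
          χ (J * (ew j * c u v) - ew n * c (π u) (π v)) *
          χ (J * (ew j * c v w) - ew n * c (π v) (π w)) *
          χ (J * (ew j * c w u) - ew n * c (π w) (π u)) := by
        simp only [← AddChar.map_add_eq_mul, hol]; congr 1; ring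
      apply mul_right_cancel₀ hne
      rw [e]
      linear_combination (χ (J * (ew j * c u v) - ew n * c (π u) (π v)) *
          χ (J * (ew j * c v w) - ew n * c (π v) (π w))) * e3 j n +
          (l3 * χ (J * (ew j * c u v) - ew n * c (π u) (π v))) * e2 j n + l3 * l2 * e1 j n
    have hrow : ∀ j, ∃ n, g (j, u) (n, π u) ≠ 0 := by
      intro j
      by_contra h
      push Not at h
      exact (hπ u).ne_zero j ((hat_eq_zero χ c).2 h)
    have hcl : ∀ n, ∃ j, g (j, u) (n, π u) ≠ 0 := by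
      intro n
      obtain ⟨j, hj⟩ := col_ne (hπ u) n
      exact ⟨j, right_ne_zero_of_mul hj⟩
    obtain ⟨n0, hn0⟩ := hrow 0
    refine dec_chir J _ _ (J * (ew 0 * hol c u v w) - ew n0 * hol c (π u) (π v) (π w)) hJ
      (fun j => ?_) (fun n => ?_)
    · obtain ⟨n, hn⟩ := hrow j
      exact ⟨n, hχ.injective ((key j n hn).trans (key 0 n0 hn0).symm)⟩
    · obtain ⟨j, hj⟩ := hcl n
      exact ⟨j, hχ.injective ((key j n hj).trans (key 0 n0 hn0).symm)⟩
  obtain ⟨u, v, w, h1, h2, h3, h4, pu, pv, pw⟩ := hC.chir p (by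
    intro u v w
    constructor
    · rintro ⟨h1, h2, h3, h4⟩
      exact ⟨p.injective.ne h1, p.injective.ne h2, p.injective.ne h3, (htri u v w h1 h2 h3).1.1 h4⟩
    · rintro ⟨h1, h2, h3, h4⟩
      have g1 : u ≠ v := fun e => h1 (by rw [e])
      have g2 : v ≠ w := fun e => h2 (by rw [e])
      have g3 : w ≠ u := fun e => h3 (by rw [e])
      exact ⟨g1, g2, g3, (htri u v w g1 g2 g3).1.2 h4⟩)
  change π u = u at pu
  change π v = v at pv
  change π w = w at pw
  exact h4 ((htri u v w h1 h2 h3).2 (by rw [pu, pv, pw]))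

end Pool.Agent.MP_f49c72_ag

end
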