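import Pool.Agent.Mg.Ff49c72.G71e3bc
import Pool.Agent.Mg.Ff49c72.Gfd55e4

section

/-! The twisted quadrics, framed variables and the functionals vanishing on the ideal. -/

namespace Pool.Agent.MP_f49c72_ag

open MvPolynomial

universe u

variable {k : Type u} [Field k] {V : Type}

/-- the family of quadrics. -/
def QQ (χ : AddChar Z7 k) (c : V → V → Z7) : Binom k (Fin 3 × V) (V × V × Fin 3 × Fin 3) where
  a := fun p => (p.2.2.1, p.1)
  b := fun p => (p.2.2.2, p.2.1)
  a' := fun p => (p.2.2.2, p.1)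
  b' := fun p => (p.2.2.1, p.2.1)
  α := fun p => χ (ew p.2.2.2 * c p.1 p.2.1)
  β := fun p => χ (ew p.2.2.1 * c p.1 p.2.1)

lemma mem_of_X_mul {ι : Type} (W : Submodule k (MvPolynomial ι k))
    (hW : ∀ a, ∀ f ∈ W, X a * f ∈ W) (g : MvPolynomial ι k) : ∀ f ∈ W, g * f ∈ W := by
  induction g using MvPolynomial.induction_on with
  | C r => intro f hf; rw [← smul_eq_C_mul]; exact W.smul_mem _ hf
  | add p q hp hq => intro f hf; rw [add_mul]; exact add_mem (hp f hf) (hq f hf)
  | mul_X p e hp => intro f hf; rw [mul_assoc]; exact hp _ (hW e f hf)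

lemma Binom.I_le {ι κ : Type} (Q : Binom k ι κ) (W : Submodule k (MvPolynomial ι k))
    (hW : ∀ a, ∀ f ∈ W, X a * f ∈ W) (hq : ∀ j, Q.q j ∈ W) : ∀ f ∈ Q.I, f ∈ W := by
  intro f hf
  induction hf using Submodule.span_induction with
  | mem x hx => obtain ⟨j, rfl⟩ := hx; exact hq j
  | zero => exact zero_mem _
  | add x y _ _ hx hy => exact add_mem hx hy
  | smul a x _ hx => exact mem_of_X_mul W hW a x hx

variable (χ : AddChar Z7 k)

noncomputable def xf (u : V) (a : Z7) (i : Fin 3) : MvPolynomial (Fin 3 × V) k :=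
  χ (ew i * a) • X (i, u)

noncomputable def qf (u : V) (a : Z7) (v : V) (b : Z7) (i j : Fin 3) :
    MvPolynomial (Fin 3 × V) k :=
  xf χ u a i * xf χ v b j + xf χ u a j * xf χ v b i

lemma xf_zero (u : V) (i : Fin 3) : xf χ u 0 i = X (i, u) := by simp [xf]

lemma xf_re (u : V) (a a' : Z7) (i : Fin 3) : xf χ u a i = χ (ew i * (a - a')) • xf χ u a' i := by
  rw [xf, xf, smul_smul, ← AddChar.map_add_eq_mul]; congr 2; ring

lemma qf_comm (u : V) (a : Z7) (v : V) (b : Z7) (i j : Fin 3) :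
    qf χ v b u a i j = qf χ u a v b i j := by unfold qf; ring

lemma qf_symm (u : V) (a : Z7) (v : V) (b : Z7) (i j : Fin 3) :
    qf χ u a v b j i = qf χ u a v b i j := by unfold qf; ring

lemma qf_shift (u : V) (a : Z7) (v : V) (b δ : Z7) (i j : Fin 3) :
    qf χ u (a + δ) v (b + δ) i j = χ ((ew i + ew j) * δ) • qf χ u a v b i j := by
  unfold qf
  rw [xf_re χ u (a + δ) a i, xf_re χ u (a + δ) a j, xf_re χ v (b + δ) b i, xf_re χ v (b + δ) b j]
  rw [add_mul (ew i), AddChar.map_add_eq_mul]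
  simp only [add_sub_cancel_left, mul_smul_comm, smul_smul, smul_add, mul_comm]

variable (c : V → V → Z7)

lemma qf_eq_q (u v : V) (i j : Fin 3) : qf χ u 0 v (c u v) i j = (QQ χ c).q (u, v, i, j) := by
  simp [qf, xf, Binom.q, Binom.ev, QQ]

lemma qf_mem {u v : V} {a b : Z7} (h : b = a + c u v) (i j : Fin 3) :
    qf χ u a v b i j ∈ (QQ χ c).I2 := by
  have := qf_shift χ u 0 v (c u v) a i j
  rw [zero_add, add_comm, ← h, qf_eq_q] at this
  rw [this]
  exact Submodule.smul_mem _ _ ((QQ χ c).q_mem_I2 _)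

noncomputable def D1 (s : V) (p : Z7) (i : Fin 3) : MvPolynomial (Fin 3 × V) k →ₗ[k] k :=
  χ (-(ew i * p)) • d1 (i, s)

noncomputable def D2 (s : V) (p : Z7) (i : Fin 3) (t : V) (q : Z7) (j : Fin 3) :
    MvPolynomial (Fin 3 × V) k →ₗ[k] k :=
  (χ (-(ew i * p)) * χ (-(ew j * q))) • d2 (i, s) (j, t)

noncomputable def D3 (r : V) (o : Z7) (i : Fin 3) (s : V) (p : Z7) (j : Fin 3) (t : V) (q : Z7)
    (l : Fin 3) : MvPolynomial (Fin 3 × V) k →ₗ[k] k :=
  (χ (-(ew i * o)) * χ (-(ew j * p)) * χ (-(ew l * q))) • d3 (i, r) (j, s) (l, t)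

noncomputable def L2 (s : V) (p : Z7) (t : V) (q : Z7) (m : Fin 3) :
    MvPolynomial (Fin 3 × V) k →ₗ[k] k :=
  ∑ i, ∑ j, eps k m i j • D2 χ s p i t q j

noncomputable def L3 (r : V) (o : Z7) (s : V) (p : Z7) (t : V) (q : Z7) :
    MvPolynomial (Fin 3 × V) k →ₗ[k] k :=
  ∑ i, ∑ j, ∑ l, eps k i j l • D3 χ r o i s p j t q l

lemma L2_apply (s : V) (p : Z7) (t : V) (q : Z7) (m : Fin 3) (f : MvPolynomial (Fin 3 × V) k) :
    L2 χ s p t q m f = ∑ i, ∑ j, eps k m i j * D2 χ s p i t q j f := by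
  simp [L2, LinearMap.sum_apply]

lemma L3_apply (r : V) (o : Z7) (s : V) (p : Z7) (t : V) (q : Z7)
    (f : MvPolynomial (Fin 3 × V) k) :
    L3 χ r o s p t q f = ∑ i, ∑ j, ∑ l, eps k i j l * D3 χ r o i s p j t q l f := by
  simp [L3, LinearMap.sum_apply]

@[simp] lemma c0_xf (u : V) (a : Z7) (i : Fin 3) : c0 (xf χ u a i) = 0 := by simp [xf]

lemma D1_re (s : V) (p p' : Z7) (i : Fin 3) (f : MvPolynomial (Fin 3 × V) k) :
    D1 χ s p i f = χ (ew i * (p' - p)) * D1 χ s p' i f := by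
  simp only [D1, LinearMap.smul_apply, smul_eq_mul]
  rw [← mul_assoc, ← AddChar.map_add_eq_mul]; congr 2; ring

lemma L2_shift (s : V) (p : Z7) (t : V) (q δ : Z7) (m : Fin 3) (f : MvPolynomial (Fin 3 × V) k) :
    L2 χ s (p + δ) t (q + δ) m f = χ ((ew m - 4) * δ) * L2 χ s p t q m f := by
  simp only [L2_apply, Finset.mul_sum]
  refine Finset.sum_congr rfl fun i _ => Finset.sum_congr rfl fun j _ => ?_
  by_cases h : epsZ m i j = 0
  · simp [eps, h]
  · have hw := epsZ_weight m i j h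
    simp only [D2, LinearMap.smul_apply, smul_eq_mul]
    have : χ (-(ew i * (p + δ))) * χ (-(ew j * (q + δ))) =
        χ ((ew m - 4) * δ) * (χ (-(ew i * p)) * χ (-(ew j * q))) := by
      simp only [← AddChar.map_add_eq_mul]; congr 1
      rw [← hw]; ring
    rw [this]; ring

variable [DecidableEq V]

lemma D1_xf (s : V) (p : Z7) (m : Fin 3) (u : V) (a : Z7) (i : Fin 3) :
    D1 χ s p m (xf χ u a i) = if s = u ∧ m = i then χ (ew i * (a - p)) else 0 := by
  simp only [D1, xf, LinearMap.smul_apply, map_smul, d1_X, smul_eq_mul, Prod.mk.injEq]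
  by_cases h : s = u ∧ m = i
  · obtain ⟨rfl, rfl⟩ := h
    simp only [and_self, if_true, mul_one, ← AddChar.map_add_eq_mul]; congr 1; ring
  · rw [if_neg h, if_neg (fun h' => h h'.symm)]; simp

lemma D1_xf_mul (s : V) (p : Z7) (m : Fin 3) (u : V) (a : Z7) (i : Fin 3)
    (g : MvPolynomial (Fin 3 × V) k) :
    D1 χ s p m (xf χ u a i * g) = (if s = u ∧ m = i then χ (ew i * (a - p)) else 0) * c0 g := by
  rw [← D1_xf]
  simp only [D1, LinearMap.smul_apply, d1_mul, c0_xf, smul_eq_mul]; ring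

lemma D2_xf_mul (s : V) (p : Z7) (m : Fin 3) (t : V) (q : Z7) (n : Fin 3) (u : V) (a : Z7)
    (i : Fin 3) (g : MvPolynomial (Fin 3 × V) k) :
    D2 χ s p m t q n (xf χ u a i * g) = D1 χ s p m (xf χ u a i) * D1 χ t q n g +
      D1 χ t q n (xf χ u a i) * D1 χ s p m g := by
  have : d2 (m, s) (n, t) (xf χ u a i) = 0 := by simp [xf]
  simp only [D1, D2, LinearMap.smul_apply, d2_mul, c0_xf, smul_eq_mul, this]; ring

lemma D2_comm (s : V) (p : Z7) (m : Fin 3) (t : V) (q : Z7) (n : Fin 3)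
    (g : MvPolynomial (Fin 3 × V) k) : D2 χ t q n s p m g = D2 χ s p m t q n g := by
  simp only [D2, LinearMap.smul_apply, smul_eq_mul, d2_comm (n, t)]; ring

lemma D3_xf_mul (r : V) (o : Z7) (l : Fin 3) (s : V) (p : Z7) (m : Fin 3) (t : V) (q : Z7)
    (n : Fin 3) (u : V) (a : Z7) (i : Fin 3) (g : MvPolynomial (Fin 3 × V) k) :
    D3 χ r o l s p m t q n (xf χ u a i * g) =
      D1 χ r o l (xf χ u a i) * D2 χ s p m t q n g + D1 χ s p m (xf χ u a i) * D2 χ t q n r o l g +
        D1 χ t q n (xf χ u a i) * D2 χ r o l s p m g := by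
  have h2 : ∀ e f, d2 e f (xf χ u a i) = 0 := by intro e f; simp [xf]
  have h3 : ∀ e f h, d3 e f h (xf χ u a i) = 0 := by intro e f h; simp [xf]
  rw [D2_comm χ r o l t q n]
  simp only [D1, D2, D3, LinearMap.smul_apply, d3_mul, c0_xf, smul_eq_mul, h2, h3]; ring

lemma L2_swap (s : V) (p : Z7) (t : V) (q : Z7) (m : Fin 3) (g : MvPolynomial (Fin 3 × V) k) :
    L2 χ t q s p m g = - L2 χ s p t q m g := by
  rw [L2_apply, L2_apply, Finset.sum_comm, ← Finset.sum_neg_distrib]
  refine Finset.sum_congr rfl fun i _ => ?_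
  rw [← Finset.sum_neg_distrib]
  refine Finset.sum_congr rfl fun j _ => ?_
  rw [D2_comm, eps_swap]; ring

lemma L2_xf_mul (s : V) (p : Z7) (t : V) (q : Z7) (m : Fin 3) (u : V) (a : Z7)
    (i : Fin 3) (g : MvPolynomial (Fin 3 × V) k) :
    L2 χ s p t q m (xf χ u a i * g) =
      (if s = u then χ (ew i * (a - p)) * ∑ j, eps k m i j * D1 χ t q j g else 0) +
      (if t = u then χ (ew i * (a - q)) * ∑ j, eps k m j i * D1 χ s p j g else 0) := by
  simp only [L2_apply, D2_xf_mul, D1_xf, mul_add, Finset.sum_add_distrib]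
  congr 1
  · rw [Finset.sum_comm]
    by_cases h : s = u <;> simp [h, Finset.mul_sum, mul_left_comm]
  · by_cases h : t = u <;> simp [h, Finset.mul_sum, mul_left_comm]

lemma L3_xf_mul (r : V) (o : Z7) (s : V) (p : Z7) (t : V) (q : Z7) (u : V) (a : Z7)
    (i : Fin 3) (g : MvPolynomial (Fin 3 × V) k) :
    L3 χ r o s p t q (xf χ u a i * g) =
      (if r = u then χ (ew i * (a - o)) * L2 χ s p t q i g else 0) +
      (if s = u then χ (ew i * (a - p)) * L2 χ t q r o i g else 0) +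
      (if t = u then χ (ew i * (a - q)) * L2 χ r o s p i g else 0) := by
  simp only [L3_apply, L2_apply, D3_xf_mul, D1_xf, mul_add, Finset.sum_add_distrib]
  congr 1
  congr 1
  · by_cases h : r = u
    · rw [if_pos h, Finset.sum_eq_single i] <;> simp +contextual [h, Finset.mul_sum, mul_left_comm]
    · simp [h]
  · by_cases h : s = u
    · rw [if_pos h, Finset.sum_comm, Finset.sum_eq_single i, Finset.sum_comm]
      · simp only [h, and_self, if_true, Finset.mul_sum]
        refine Finset.sum_congr rfl fun j _ => Finset.sum_congr rfl fun l _ => ?_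
        rw [eps_cyc l i j]; ring
      · simp +contextual
      · simp
    · simp [h]
  · by_cases h : t = u
    · simp only [h, true_and, if_true, Finset.mul_sum]
      refine Finset.sum_congr rfl fun j _ => Finset.sum_congr rfl fun l _ => ?_
      rw [Finset.sum_eq_single i]
      · rw [eps_cyc i j l]; simp; ring
      · simp +contextual
      · simp
    · simp [h]

lemma L2_xf_xf (s : V) (p : Z7) (t : V) (q : Z7) (m : Fin 3) (u : V) (a : Z7)
    (i : Fin 3) (v : V) (b : Z7) (j : Fin 3) :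
    L2 χ s p t q m (xf χ u a i * xf χ v b j) =
      (if s = u ∧ t = v then eps k m i j * χ (ew i * (a - p)) * χ (ew j * (b - q)) else 0) +
      (if t = u ∧ s = v then eps k m j i * χ (ew i * (a - q)) * χ (ew j * (b - p)) else 0) := by
  rw [L2_xf_mul]
  simp only [D1_xf]
  congr 1
  · by_cases h : s = u <;> by_cases h' : t = v <;> simp [h, h']; ring
  · by_cases h : t = u <;> by_cases h' : s = v <;> simp [h, h']; ring

variable {c}

lemma L2_qf (hc : ∀ u v, c v u = - c u v) {s t u v : V} {p q a b : Z7} (h1 : q = p + c s t)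
    (h2 : b = a + c u v) (m i j : Fin 3) : L2 χ s p t q m (qf χ u a v b i j) = 0 := by
  simp only [qf, map_add, L2_xf_xf]
  have e1 : s = u ∧ t = v → b - q = a - p := by rintro ⟨rfl, rfl⟩; rw [h1, h2]; ring
  have e2 : t = u ∧ s = v → b - p = a - q := by rintro ⟨rfl, rfl⟩; rw [h1, h2, hc s t]; ring
  rw [eps_swap m j i]
  by_cases h : s = u ∧ t = v <;> by_cases h' : t = u ∧ s = v
  · simp only [if_pos h, if_pos h', e1 h, e2 h']; ring
  · simp only [if_pos h, if_neg h', e1 h]; ring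
  · simp only [if_neg h, if_pos h', e2 h']; ring
  · simp only [if_neg h, if_neg h']; ring

lemma kill_I (hc : ∀ u v, c v u = - c u v) {f : MvPolynomial (Fin 3 × V) k}
    (hf : f ∈ (QQ χ c).I) : c0 f = 0 ∧ (∀ s p m, D1 χ s p m f = 0) ∧
      (∀ s p t q m, q = p + c s t → L2 χ s p t q m f = 0) ∧
      ∀ r o s p t q, p = o + c r s → q = p + c s t → o = q + c t r → L3 χ r o s p t q f = 0 := by
  let W : Submodule k (MvPolynomial (Fin 3 × V) k) :=
    { carrier := {f | c0 f = 0 ∧ (∀ s p m, D1 χ s p m f = 0) ∧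
        (∀ s p t q m, q = p + c s t → L2 χ s p t q m f = 0) ∧
        ∀ r o s p t q, p = o + c r s → q = p + c s t → o = q + c t r → L3 χ r o s p t q f = 0}
      add_mem' := by
        rintro f g ⟨h1, h2, h3, h4⟩ ⟨g1, g2, g3, g4⟩
        refine ⟨by simp [h1, g1], by simp [h2, g2], ?_, ?_⟩
        · intro s p t q m h; rw [map_add, h3 s p t q m h, g3 s p t q m h, add_zero]
        · intro r o s p t q e1 e2 e3
          rw [map_add, h4 r o s p t q e1 e2 e3, g4 r o s p t q e1 e2 e3, add_zero]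
      zero_mem' := by simp
      smul_mem' := by
        rintro r f ⟨h1, h2, h3, h4⟩
        refine ⟨by simp [h1], by simp [h2], ?_, ?_⟩
        · intro s p t q m h; rw [map_smul, h3 s p t q m h, smul_zero]
        · intro r o s p t q e1 e2 e3
          rw [map_smul, h4 r o s p t q e1 e2 e3, smul_zero] }
  refine (QQ χ c).I_le W ?_ ?_ f hf
  · rintro ⟨i, u⟩ f ⟨h1, h2, h3, h4⟩
    rw [← xf_zero χ]
    refine ⟨by simp, ?_, ?_, ?_⟩
    · intro s p m; rw [D1_xf_mul, h1, mul_zero]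
    · intro s p t q m _; simp [L2_xf_mul, h2]
    · intro r o s p t q e1 e2 e3
      rw [L3_xf_mul, h3 s p t q i e2, h3 t q r o i e3, h3 r o s p i e1]; simp
  · rintro ⟨u, v, i, j⟩
    refine ⟨by simp, by simp [D1], ?_, ?_⟩
    · intro s p t q m h
      rw [← qf_eq_q]
      exact L2_qf χ hc h (zero_add _).symm m i j
    · intro r o s p t q _ _ _
      simp [L3_apply, D3]

end Pool.Agent.MP_f49c72_ag

end

section

/-! First order deformations: local lemmas. -/

namespace Pool.Agent.MP_f49c72_ag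

open MvPolynomial

universe u

variable {k : Type u} [Field k] {V : Type}

/-- dual form of the compatibility with linear syzygies. -/
def Binom.HT {ι κ : Type} (Q : Binom k ι κ) (Ψ : MvPolynomial ι k →ₗ[k] MvPolynomial ι k) : Prop :=
  ∀ L : MvPolynomial ι k →ₗ[k] k, (∀ f ∈ Q.I, L f = 0) →
    ∃ τ : MvPolynomial ι k →ₗ[k] k, ∀ a, ∀ f ∈ Q.I2, τ (X a * f) = L (X a * Ψ f)

lemma Binom.HT.sub {ι κ : Type} {Q : Binom k ι κ} {Ψ : MvPolynomial ι k →ₗ[k] MvPolynomial ι k}
    (h : Q.HT Ψ) (D : Derivation k (MvPolynomial ι k) (MvPolynomial ι k)) :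
    Q.HT (Ψ - D.toLinearMap) := by
  intro L hL
  obtain ⟨τ, hτ⟩ := h L hL
  refine ⟨τ - L ∘ₗ D.toLinearMap, fun a f hf => ?_⟩
  have := hL (f * D (X a)) (Ideal.mul_mem_right _ _ (Q.I2_le hf))
  simp [hτ a f hf, mul_sub, this]

lemma Binom.exists_HT {ι κ : Type} [Fintype ι] [DecidableEq ι] (Q : Binom k ι κ)
    (ψ : Q.I2 →ₗ[k] Q.A)
    (h : ∀ f : ι → Q.I2, ∑ a, X a * (f a : MvPolynomial ι k) = 0 → ∑ a, Q.x a * ψ (f a) = 0) :
    ∃ Ψ, Q.HT Ψ ∧ ∀ f : Q.I2, Q.pr (Ψ f) = ψ f := by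
  obtain ⟨ψ', hψ'⟩ := LinearMap.exists_extend ψ
  obtain ⟨σ, hσ⟩ := LinearMap.exists_rightInverse_of_surjective Q.pr.toLinearMap
    (LinearMap.range_eq_top.2 Q.pr_surj)
  have e : ∀ f : Q.I2, Q.pr ((σ ∘ₗ ψ') f) = ψ f := by
    intro f
    have h1 := LinearMap.congr_fun hσ (ψ' f)
    have h2 := LinearMap.congr_fun hψ' f
    simp only [LinearMap.comp_apply, LinearMap.id_apply, AlgHom.toLinearMap_apply,
      Submodule.subtype_apply] at h1 h2 ⊢
    rw [h1, h2]
  refine ⟨σ ∘ₗ ψ', fun L hL => ?_, e⟩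
  let μ : (ι → Q.I2) →ₗ[k] MvPolynomial ι k :=
    ∑ a, LinearMap.mulLeft k (X a) ∘ₗ Q.I2.subtype ∘ₗ LinearMap.proj a
  let ν : (ι → Q.I2) →ₗ[k] k :=
    ∑ a, L ∘ₗ LinearMap.mulLeft k (X a) ∘ₗ (σ ∘ₗ ψ') ∘ₗ Q.I2.subtype ∘ₗ LinearMap.proj a
  have hμ : ∀ f, μ f = ∑ a, X a * (f a : MvPolynomial ι k) := by
    intro f; simp [μ, LinearMap.sum_apply]
  have hν : ∀ f, ν f = ∑ a, L (X a * (σ ∘ₗ ψ') (f a)) := by
    intro f; simp [ν, LinearMap.sum_apply]
  have : ν ∈ (LinearMap.ker μ).dualAnnihilator := by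
    rw [Submodule.mem_dualAnnihilator]
    intro f hf
    rw [LinearMap.mem_ker, hμ] at hf
    rw [hν, ← map_sum]
    apply hL
    rw [← Q.pr_eq_zero, map_sum, ← h f hf]
    refine Finset.sum_congr rfl fun a _ => ?_
    rw [map_mul, e]; rfl
  rw [← LinearMap.range_dualMap_eq_dualAnnihilator_ker] at this
  obtain ⟨τ, hτ⟩ := this
  refine ⟨τ, fun a f hf => ?_⟩
  have := LinearMap.congr_fun hτ (Pi.single a ⟨f, hf⟩)
  rw [LinearMap.dualMap_apply, hμ, hν, Finset.sum_eq_single a, Finset.sum_eq_single a] at this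
  · simpa using this
  · intro b _ hb; simp [Pi.single_eq_of_ne hb]
  · simp
  · intro b _ hb; simp [Pi.single_eq_of_ne hb]
  · simp

variable {χ : AddChar Z7 k} {c : V → V → Z7}
  {Ψ : MvPolynomial (Fin 3 × V) k →ₗ[k] MvPolynomial (Fin 3 × V) k}

lemma HT_xf (h : (QQ χ c).HT Ψ) (L : MvPolynomial (Fin 3 × V) k →ₗ[k] k)
    (hL : ∀ f ∈ (QQ χ c).I, L f = 0) : ∃ τ : MvPolynomial (Fin 3 × V) k →ₗ[k] k,
      ∀ w d l u a v b i j, b = a + c u v →
        τ (xf χ w d l * qf χ u a v b i j) = L (xf χ w d l * Ψ (qf χ u a v b i j)) := by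
  obtain ⟨τ, hτ⟩ := h L hL
  refine ⟨τ, fun w d l u a v b i j e => ?_⟩
  simp only [xf, smul_mul_assoc, map_smul]
  rw [hτ _ _ (qf_mem χ c e i j)]

lemma far (hχ : GoodChar χ) (h : (QQ χ c).HT Ψ) (L : MvPolynomial (Fin 3 × V) k →ₗ[k] k)
    (hL : ∀ f ∈ (QQ χ c).I, L f = 0) {u v : V} (hu : ∀ a i g, L (xf χ u a i * g) = 0)
    (hv : ∀ a i g, L (xf χ v a i * g) = 0) {a b : Z7} (hb : b = a + c u v) (r : V) (o : Z7) :
    Wedge χ (fun l i j => L (xf χ r o l * Ψ (qf χ u a v b i j))) (a - (o + c r u))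
      (b - (o + c r v)) := by
  obtain ⟨τ, hτ⟩ := HT_xf h L hL
  set φ : Fin 3 → Fin 3 → Fin 3 → k :=
    fun l i j => τ (xf χ r o l * xf χ u (o + c r u) i * xf χ v (o + c r v) j) with hφ
  have key := alt3 hχ.two φ (fun l i j => by
      have := hτ v (o + c r v) j r o u (o + c r u) l i rfl
      rw [hv] at this
      rw [← this, hφ, ← map_add]; congr 1; unfold qf; ring)
    (fun l i j => by
      have := hτ u (o + c r u) i r o v (o + c r v) l j rfl
      rw [hu] at this
      rw [← this, hφ, ← map_add]; congr 1; unfold qf; ring)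
  refine ⟨φ 0 1 2, fun l i j => ?_⟩
  have e : τ (xf χ r o l * qf χ u a v b i j) =
      χ (ew i * (a - (o + c r u))) * χ (ew j * (b - (o + c r v))) * φ l i j +
      χ (ew j * (a - (o + c r u))) * χ (ew i * (b - (o + c r v))) * φ l j i := by
    rw [qf, xf_re χ u a (o + c r u) i, xf_re χ u a (o + c r u) j, xf_re χ v b (o + c r v) i,
      xf_re χ v b (o + c r v) j]
    simp only [hφ, mul_add, map_add, smul_mul_assoc, mul_smul_comm, map_smul, smul_eq_mul,
      mul_assoc, mul_left_comm]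
  simp only
  rw [← hτ r o l u a v b i j hb, e, key l i j, key l j i, eps_swap l j i]; ring

variable [DecidableEq V]

lemma D1_kill (hc : ∀ u v, c v u = - c u v) (s : V) (p : Z7) (m : Fin 3) :
    ∀ f ∈ (QQ χ c).I, D1 χ s p m f = 0 := fun _ hf => (kill_I χ hc hf).2.1 s p m

lemma L2_kill (hc : ∀ u v, c v u = - c u v) {s t : V} {p q : Z7} (e : q = p + c s t) (m : Fin 3) :
    ∀ f ∈ (QQ χ c).I, L2 χ s p t q m f = 0 := fun _ hf => (kill_I χ hc hf).2.2.1 s p t q m e

lemma L3_kill (hc : ∀ u v, c v u = - c u v) {r s t : V} {o p q : Z7} (e1 : p = o + c r s)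
    (e2 : q = p + c s t) (hf : Flat c r s t) :
    ∀ f ∈ (QQ χ c).I, L3 χ r o s p t q f = 0 := fun _ h =>
  (kill_I χ hc h).2.2.2 r o s p t q e1 e2 (by
    have := hf.2.2.2
    unfold hol at this
    rw [e2, e1]; linear_combination -this)

/-- degree `-2`. -/
lemma deg2 (hχ : GoodChar χ) (hc : ∀ u v, c v u = - c u v) (h : (QQ χ c).HT Ψ) {u v r : V}
    (hru : r ≠ u) (hrv : r ≠ v) {a b : Z7} (hb : b = a + c u v) (i j : Fin 3) :
    c0 (Ψ (qf χ u a v b i j)) = 0 := by
  obtain ⟨μ, hμ⟩ := far hχ h _ (D1_kill hc r 0 i) (u := u) (v := v)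
    (fun a i g => by simp [D1_xf_mul, hru]) (fun a i g => by simp [D1_xf_mul, hrv]) hb r 0
  have := hμ i i j
  simpa [D1_xf_mul, eps_self12] using this

/-- degree `-1`, far from the edge. -/
lemma deg1_far (hχ : GoodChar χ) (hc : ∀ u v, c v u = - c u v) (h : (QQ χ c).HT Ψ) {s u v r : V}
    (hsu : s ≠ u) (hsv : s ≠ v) (hrs : r ≠ s)
    (hru : r ≠ u) (hrv : r ≠ v) {a b : Z7} (hb : b = a + c u v) (p : Z7) (m i j : Fin 3) :
    D1 χ s p m (Ψ (qf χ u a v b i j)) = 0 := by
  refine far1 (fun m => D1 χ s p m (Ψ (qf χ u a v b i j))) i j (fun n l hl => ?_) m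
  obtain ⟨μ, hμ⟩ := far hχ h _ (L2_kill hc (s := s) (t := r) (p := p) rfl n) (u := u) (v := v)
    (fun a i g => by simp [L2_xf_mul, hru, hsu]) (fun a i g => by simp [L2_xf_mul, hrv, hsv])
    hb r (p + c s r)
  have := hμ l i j
  simpa [L2_xf_mul, eps, hl, hrs.symm] using this

/-- the shape of the degree `-1` part on an edge. -/
def Near (χ : AddChar Z7 k) (c : V → V → Z7)
    (Ψ : MvPolynomial (Fin 3 × V) k →ₗ[k] MvPolynomial (Fin 3 × V) k) (v u : V) (h : Fin 3 → k) :
    Prop :=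
  ∀ i j l, D1 χ u (c v u) l (Ψ (qf χ v 0 u (c v u) i j)) =
    (if j = l then h i else 0) + (if i = l then h j else 0)

omit [DecidableEq V] in
lemma near_aux {u v : V} {a' : Z7} {g : Fin 3 → k}
    (H : ∀ i j l, D1 χ u a' l (Ψ (qf χ v 0 u (c v u) i j)) =
      (if j = l then g i * χ (ew j * (c v u - a')) else 0) +
        (if i = l then g j * χ (ew i * (c v u - a')) else 0)) : Near χ c Ψ v u g := by
  intro i j l
  rw [D1_re χ u (c v u) a', H]
  have : χ (ew l * (a' - c v u)) * χ (ew l * (c v u - a')) = 1 := by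
    rw [← AddChar.map_add_eq_mul, ← AddChar.map_zero_eq_one χ]; congr 1; ring
  by_cases h1 : j = l <;> by_cases h2 : i = l
  · subst h1; subst h2; simp only [if_true]; linear_combination (2 * g i) * this
  · subst h1; simp only [if_true, if_neg h2]; linear_combination (g i) * this
  · subst h2; simp only [if_true, if_neg h1]; linear_combination (g j) * this
  · simp [h1, h2]

lemma near_pair (hχ : GoodChar χ) (hc : ∀ u v, c v u = - c u v) (h : (QQ χ c).HT Ψ) {u v r : V}
    (huv : u ≠ v) (hrv : r ≠ v) (hur : u ≠ r) : ∃ g, Near χ c Ψ v u g ∧ Near χ c Ψ v r g := by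
  have := fun n => HT_xf h _ (L2_kill (χ := χ) hc (s := u) (t := r) (p := 0) rfl n)
  choose τ hτ using this
  set ρ := 0 + c u r with hρ
  set φ : Fin 3 → Fin 3 → Fin 3 → Fin 3 → k :=
    fun n i j l => τ n (xf χ v 0 i * xf χ u 0 j * xf χ r ρ l) with hφ
  have halt : ∀ n i j l, φ n i j l + φ n i l j = 0 := by
    intro n i j l
    have := hτ n v 0 i u 0 r ρ j l rfl
    rw [L2_xf_mul, if_neg huv, if_neg hrv, add_zero] at this
    rw [← this, hφ, ← map_add]; congr 1; unfold qf; ring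
  obtain ⟨g, hg, hg'⟩ := near1 hχ.two (fun j => χ (ew j * (c v u - 0))) (fun _ => chi_ne _) φ halt
    (fun i j l => D1 χ u 0 l (Ψ (qf χ v 0 u (c v u) i j))) (fun n i j l => by
      have := hτ n r ρ l v 0 u (c v u) i j (zero_add _).symm
      rw [L2_xf_mul, if_neg hur, if_pos rfl, zero_add, sub_self, mul_zero,
        AddChar.map_zero_eq_one, one_mul] at this
      rw [← this, qf, xf_re χ u (c v u) 0 i, xf_re χ u (c v u) 0 j]
      simp only [hφ, mul_add, map_add, mul_smul_comm, map_smul, smul_eq_mul]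
      congr 3 <;> ring)
  obtain ⟨g2, hg2, hg2'⟩ := near1 hχ.two (fun j => χ (ew j * (c v r - ρ))) (fun _ => chi_ne _)
    (fun n i j l => - φ n i l j) (fun n i j l => by linear_combination - halt n i j l)
    (fun i j l => D1 χ r ρ l (Ψ (qf χ v 0 r (c v r) i j))) (fun n i j l => by
      have := hτ n u 0 l v 0 r (c v r) i j (zero_add _).symm
      rw [L2_xf_mul, if_neg hur.symm, if_pos rfl, add_zero, sub_self, mul_zero,
        AddChar.map_zero_eq_one, one_mul] at this
      simp only [eps_swap n _ l, neg_mul, Finset.sum_neg_distrib]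
      rw [← this, qf, xf_re χ r (c v r) ρ i, xf_re χ r (c v r) ρ j]
      simp only [hφ, mul_add, map_add, mul_smul_comm, map_smul, smul_eq_mul, neg_add, mul_neg]
      congr 4 <;> ring)
  have e : g2 = g := by
    funext i
    obtain ⟨j, hij⟩ : ∃ j, i ≠ j := ⟨i + 1, by revert i; decide⟩
    obtain ⟨n, h1, h2, -⟩ := exists_third hij
    apply mul_left_cancel₀ (eps_ne (k := k) h2 h1 hij.symm)
    rw [← hg' n i j hij, ← hg2' n i j hij]
    linear_combination - halt n i i j
  subst e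
  exact ⟨g2, near_aux hg, near_aux hg2⟩

omit [DecidableEq V] in
lemma Near.unique (hχ : GoodChar χ) {u v : V} {g g' : Fin 3 → k} (h : Near χ c Ψ v u g)
    (h' : Near χ c Ψ v u g') : g = g' := by
  funext i
  have e := (h i i i).symm.trans (h' i i i)
  simp only [if_true] at e
  apply mul_left_cancel₀ hχ.two
  linear_combination e

lemma near_all (hχ : GoodChar χ) (hc : ∀ u v, c v u = - c u v) (h : (QQ χ c).HT Ψ)
    (big : ∀ s u v : V, ∃ r, r ≠ s ∧ r ≠ u ∧ r ≠ v) (v : V) :
    ∃ g, ∀ u, u ≠ v → Near χ c Ψ v u g := by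
  obtain ⟨u0, hu0, -⟩ := big v v v
  obtain ⟨r0, hr0, hr1, -⟩ := big v u0 v
  obtain ⟨g, hg, -⟩ := near_pair hχ hc h hu0 hr0 hr1.symm
  refine ⟨g, fun u hu => ?_⟩
  by_cases e : u0 = u
  · rw [← e]; exact hg
  · obtain ⟨g', h1, h2⟩ := near_pair hχ hc h hu0 hu e
    rw [hg.unique hχ h1]; exact h2

/-- degree `-1` on a loop. -/
lemma deg1_loop (hχ : GoodChar χ) (hc : ∀ u v, c v u = - c u v) (h : (QQ χ c).HT Ψ) {u r : V}
    (hd : c u u = 0) (hur : u ≠ r)
    (h0 : ∀ i j l, D1 χ r (c u r) l (Ψ (qf χ u 0 r (c u r) i j)) = 0) (i j m : Fin 3) :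
    D1 χ u 0 m (Ψ (qf χ u 0 u 0 i j)) = 0 := by
  refine far1 (fun m => D1 χ u 0 m (Ψ (qf χ u 0 u 0 i j))) i j (fun n l _ => ?_) m
  obtain ⟨τ, hτ⟩ := HT_xf h _ (L2_kill (χ := χ) hc (s := u) (t := r) (p := 0) (q := c u r)
    (zero_add _).symm n)
  have key := symalt hχ.two (fun i j l => τ (xf χ u 0 i * xf χ u 0 j * xf χ r (c u r) l))
    (fun i j l => by congr 1; ring) (fun i j l => by
      have := hτ u 0 i u 0 r (c u r) j l (zero_add _).symm
      rw [L2_xf_mul, if_neg hur.symm] at this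
      simp only [h0, mul_zero, Finset.sum_const_zero, ite_self, add_zero] at this
      rw [← this, ← map_add]; congr 1; unfold qf; ring)
  have := hτ r (c u r) l u 0 u 0 i j (by rw [hd, add_zero])
  rw [L2_xf_mul, if_neg hur, if_pos rfl, zero_add, sub_self, mul_zero,
    AddChar.map_zero_eq_one, one_mul] at this
  rw [← this, ← add_zero (0 : k)]
  nth_rewrite 1 [← key i j l]
  rw [← key j i l, ← map_add]; congr 1; unfold qf; ring

end Pool.Agent.MP_f49c72_ag

end

section

/-! First order deformations: degree zero. -/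

namespace Pool.Agent.MP_f49c72_ag

open MvPolynomial

universe u

variable {k : Type u} [Field k] {V : Type}

/-- vanishing of the `(s,t)` component of the image of the quadrics on `(u,v)`. -/
def Zero2 (χ : AddChar Z7 k) (c : V → V → Z7)
    (Ψ : MvPolynomial (Fin 3 × V) k →ₗ[k] MvPolynomial (Fin 3 × V) k) (s t u v : V) : Prop :=
  ∀ p q a b, q = p + c s t → b = a + c u v → ∀ m i j, L2 χ s p t q m (Ψ (qf χ u a v b i j)) = 0

variable {χ : AddChar Z7 k} {c : V → V → Z7}
  {Ψ : MvPolynomial (Fin 3 × V) k →ₗ[k] MvPolynomial (Fin 3 × V) k}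

lemma Zero2.intro {s t u v : V} {p q a b : Z7} (h1 : q = p + c s t) (h2 : b = a + c u v)
    (h : ∀ m i j, L2 χ s p t q m (Ψ (qf χ u a v b i j)) = 0) : Zero2 χ c Ψ s t u v := by
  intro p' q' a' b' e1 e2 m i j
  have f1 : p' = p + (p' - p) := by ring
  have f2 : q' = q + (p' - p) := by rw [e1, h1]; ring
  have f3 : a' = a + (a' - a) := by ring
  have f4 : b' = b + (a' - a) := by rw [e2, h2]; ring
  rw [f2, f4]
  nth_rewrite 1 [f1, f3]
  rw [L2_shift, qf_shift, map_smul, map_smul, h]; simp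

lemma Zero2.swap_uv (hc : ∀ u v, c v u = - c u v) {s t u v : V} (h : Zero2 χ c Ψ s t u v) :
    Zero2 χ c Ψ s t v u := by
  intro p q a b e1 e2 m i j
  rw [qf_comm]
  exact h p q b a e1 (by rw [e2, hc u v]; ring) m i j

variable [DecidableEq V]

lemma Zero2.swap_st (hc : ∀ u v, c v u = - c u v) {s t u v : V} (h : Zero2 χ c Ψ s t u v) :
    Zero2 χ c Ψ t s u v := by
  intro p q a b e1 e2 m i j
  rw [L2_swap, h q p a b (by rw [e1, hc s t]; ring) e2, neg_zero]

lemma Zero2.self (hχ : GoodChar χ) (hd : ∀ u, c u u = 0) (s u v : V) : Zero2 χ c Ψ s s u v := by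
  intro p q a b e1 _ m i j
  rw [hd, add_zero] at e1
  subst e1
  have := L2_swap χ s q s q m (Ψ (qf χ u a v b i j))
  apply mul_left_cancel₀ hχ.two
  linear_combination this

lemma wedge_far (hχ : GoodChar χ) (hc : ∀ u v, c v u = - c u v) (h : (QQ χ c).HT Ψ)
    {r s t u v : V} (hf : Flat c r s t) (hru : r ≠ u) (hrv : r ≠ v) (hsu : s ≠ u) (hsv : s ≠ v)
    (htu : t ≠ u) (htv : t ≠ v) :
    Wedge χ (fun m i j => L2 χ s 0 t (c s t) m (Ψ (qf χ u 0 v (c u v) i j))) (c r s + c u r)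
      (c u v + c r s + c v r) := by
  have := far hχ h _ (L3_kill hc (o := - c r s) (p := 0) (q := c s t) (by ring) (by ring) hf)
    (u := u) (v := v) (fun a i g => by simp [L3_xf_mul, hru, hsu, htu])
    (fun a i g => by simp [L3_xf_mul, hrv, hsv, htv]) (a := 0) (b := c u v) (by ring) r (- c r s)
  convert this using 1
  · funext m i j
    simp [L3_xf_mul, hf.1.symm, hf.2.2.1]
  · rw [hc u r]; ring
  · rw [hc v r]; ring

lemma zero2_flat (hχ : GoodChar χ) (hc : ∀ u v, c v u = - c u v) (hd : ∀ u, c u u = 0)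
    (h : (QQ χ c).HT Ψ) {s t u v : V} (hf : Flat c u s t) (huv : u ≠ v) (hsv : s ≠ v)
    (htv : t ≠ v) : Zero2 χ c Ψ s t u v := by
  obtain ⟨τ, hτ⟩ := HT_xf h _
    (L3_kill hc (o := 0) (p := c u s) (q := c u s + c s t) (by ring) (by ring) hf)
  have key : ∀ i j l, τ (xf χ u 0 i * xf χ u 0 j * xf χ v (c u v) l) = 0 := by
    intro i j l
    have := hτ v (c u v) l u 0 u 0 i j (by rw [hd, add_zero])
    rw [L3_xf_mul, if_neg huv, if_neg hsv, if_neg htv] at this
    apply mul_left_cancel₀ hχ.two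
    rw [mul_zero, two_mul, ← map_add]
    simp only [add_zero] at this
    rw [← this]; congr 1; unfold qf; ring
  refine Zero2.intro (p := c u s) (q := c u s + c s t) (a := 0) (b := c u v) rfl (by ring) ?_
  intro m i j
  have := hτ u 0 m u 0 v (c u v) i j (by ring)
  rw [L3_xf_mul, if_pos rfl, if_neg hf.1.symm, if_neg hf.2.2.1] at this
  simp only [sub_self, mul_zero, AddChar.map_zero_eq_one, one_mul, add_zero] at this
  rw [← this, ← add_zero (0 : k)]
  nth_rewrite 1 [← key m i j]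
  rw [← key m j i, ← map_add]; congr 1; unfold qf; ring

lemma zero2_C2 (hχ : GoodChar χ) (hc : ∀ u v, c v u = - c u v) (hd : ∀ u, c u u = 0)
    (h : (QQ χ c).HT Ψ) {s t u v : V} (huv : u ≠ v) (hsu : s ≠ u) (hsv : s ≠ v) (htu : t ≠ u)
    (htv : t ≠ v) (H : C2 c s t u v) : Zero2 χ c Ψ s t u v := by
  rcases H with H | ⟨r, r', f1, f2, h1, h2, h3, h4, H⟩
  · exact zero2_flat hχ hc hd h H huv hsv htv
  · refine Zero2.intro (p := 0) (q := c s t) (a := 0) (b := c u v) (by ring) (by ring) ?_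
    have w1 := wedge_far hχ hc h f1 h1 h2 hsu hsv htu htv
    have w2 := wedge_far hχ hc h f2 h3 h4 hsu hsv htu htv
    by_cases e : c r s + c u r = c u v + c r s + c v r
    · rw [← e] at w1; exact w1.same
    · exact w1.three hχ w2 e (H.resolve_left e)

/-- one new vertex: the deformation on two edges is governed by one matrix. -/
lemma edge_pair (hχ : GoodChar χ) (hc : ∀ u v, c v u = - c u v)
    (h : (QQ χ c).HT Ψ) {s v w u : V} (hf : Flat c s v w) (hsw : c s w = c s v + c v w)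
    (hsu : s ≠ u) (hvu : v ≠ u) (hwu : w ≠ u) : ∃ H : Fin 3 → Fin 3 → k,
      (∀ m i j, L2 χ s 0 v (c s v) m (Ψ (qf χ u 0 v (c u v) i j)) =
        TT H (fun j => χ (ew j * (c u v + c v s))) m i j) ∧
      ∀ m i j, L2 χ s 0 w (c s w) m (Ψ (qf χ u 0 w (c u w) i j)) =
        TT H (fun j => χ (ew j * (c u w + c w s))) m i j := by
  obtain ⟨τ, hτ⟩ := HT_xf h _
    (L3_kill hc (o := 0) (p := c s v) (q := c s w) (by ring) hsw hf)
  set φ : Fin 3 → Fin 3 → Fin 3 → k :=
    fun i j l => τ (xf χ u 0 i * xf χ v (c s v) j * xf χ w (c s w) l) with hφ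
  have key := alt23 hχ.two φ (fun i j l => by
    have := hτ u 0 i v (c s v) w (c s w) j l hsw
    rw [L3_xf_mul, if_neg hsu, if_neg hvu, if_neg hwu] at this
    simp only [add_zero] at this
    rw [← this, hφ, ← map_add]; congr 1; unfold qf; ring)
  refine ⟨fun l i => φ i (l + 1) (l + 2), fun m i j => ?_, fun m i j => ?_⟩
  · have := hτ w (c s w) m u 0 v (c u v) i j (by ring)
    rw [L3_xf_mul, if_pos rfl, if_neg hf.2.2.1.symm, if_neg hf.2.1] at this
    simp only [sub_self, mul_zero, AddChar.map_zero_eq_one, one_mul, zero_add] at this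
    have e : τ (xf χ w (c s w) m * qf χ u 0 v (c u v) i j) =
        χ (ew j * (c u v + c v s)) * φ i j m + χ (ew i * (c u v + c v s)) * φ j i m := by
      rw [qf, xf_re χ v (c u v) (c s v) i, xf_re χ v (c u v) (c s v) j, hc s v, ← sub_eq_add_neg]
      simp only [hφ, mul_add, map_add, mul_smul_comm, map_smul, smul_eq_mul]
      congr 3 <;> ring
    rw [← this, e, key i j m, key j i m, TT, Finset.mul_sum, Finset.mul_sum,
      ← Finset.sum_add_distrib]
    refine Finset.sum_congr rfl fun l _ => ?_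
    rw [eps_cyc m l j, eps_cyc m l i]; ring
  · have := hτ v (c s v) m u 0 w (c u w) i j (by ring)
    rw [L3_xf_mul, if_pos rfl, if_neg hf.1, if_neg hf.2.1.symm, L2_swap] at this
    simp only [sub_self, mul_zero, AddChar.map_zero_eq_one, one_mul, zero_add, add_zero] at this
    have e : τ (xf χ v (c s v) m * qf χ u 0 w (c u w) i j) =
        χ (ew j * (c u w + c w s)) * φ i m j + χ (ew i * (c u w + c w s)) * φ j m i := by
      rw [qf, xf_re χ w (c u w) (c s w) i, xf_re χ w (c u w) (c s w) j, hc s w, ← sub_eq_add_neg]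
      simp only [hφ, mul_add, map_add, mul_smul_comm, map_smul, smul_eq_mul]
      congr 3 <;> ring
    rw [← neg_eq_iff_eq_neg] at this
    rw [← this, e, key i m j, key j m i, TT, Finset.mul_sum, Finset.mul_sum,
      ← Finset.sum_add_distrib, ← Finset.sum_neg_distrib]
    refine Finset.sum_congr rfl fun l _ => ?_
    rw [eps_swap12 m l j, eps_swap12 m l i]; ring

lemma edge_loop (hχ : GoodChar χ) (hc : ∀ u v, c v u = - c u v) (hd : ∀ u, c u u = 0)
    (h : (QQ χ c).HT Ψ) {s v u : V} (hf : Flat c s v u) (hsu : c s u = c s v + c v u) :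
    Zero2 χ c Ψ s u u u ↔ Zero2 χ c Ψ s v u v := by
  obtain ⟨τ, hτ⟩ := HT_xf h _
    (L3_kill hc (o := 0) (p := c s v) (q := c s u) (by ring) hsu hf)
  have hb : c s v = c s u + c u v := by rw [hsu, hc u v]; ring
  set φ : Fin 3 → Fin 3 → Fin 3 → k :=
    fun i j l => τ (xf χ u (c s u) i * xf χ u (c s u) j * xf χ v (c s v) l) with hφ
  have e1 : ∀ i j l, 2 * φ i j l =
      - L2 χ s 0 u (c s u) l (Ψ (qf χ u (c s u) u (c s u) i j)) := by
    intro i j l
    have := hτ v (c s v) l u (c s u) u (c s u) i j (by rw [hd, add_zero])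
    rw [L3_xf_mul, if_pos rfl, if_neg hf.1, if_neg hf.2.1.symm, L2_swap] at this
    simp only [sub_self, mul_zero, AddChar.map_zero_eq_one, one_mul, zero_add, add_zero] at this
    rw [← this, two_mul, hφ, ← map_add]; congr 1; unfold qf; ring
  have e2 : ∀ i j l, φ i j l + φ i l j =
      L2 χ s 0 v (c s v) i (Ψ (qf χ u (c s u) v (c s v) j l)) := by
    intro i j l
    have := hτ u (c s u) i u (c s u) v (c s v) j l hb
    rw [L3_xf_mul, if_pos rfl, if_neg hf.2.2.1.symm, if_neg hf.2.1] at this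
    simp only [sub_self, mul_zero, AddChar.map_zero_eq_one, one_mul, zero_add] at this
    rw [← this, hφ, ← map_add]; congr 1; unfold qf; ring
  constructor
  · intro H
    have : ∀ i j l, φ i j l = 0 := by
      intro i j l
      apply mul_left_cancel₀ hχ.two
      rw [e1, H 0 _ _ _ (by ring) (by rw [hd, add_zero])]; simp
    refine Zero2.intro (p := 0) (q := c s v) (by ring) hb fun m i j => ?_
    rw [← e2, this, this, add_zero]
  · intro H
    have := symalt hχ.two φ (fun i j l => by simp only [hφ]; congr 1; ring) (fun i j l => by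
      rw [e2, H 0 _ _ _ (by ring) hb])
    refine Zero2.intro (p := 0) (q := c s u) (a := c s u) (b := c s u) (by ring)
      (by rw [hd, add_zero]) fun m i j => ?_
    rw [← neg_eq_zero, ← e1, this, mul_zero]

/-- the diagonal part on an edge. -/
noncomputable def ZZ (χ : AddChar Z7 k) (c : V → V → Z7)
    (Ψ : MvPolynomial (Fin 3 × V) k →ₗ[k] MvPolynomial (Fin 3 × V) k) (u v : V) (a : Z7)
    (m i j : Fin 3) : k :=
  L2 χ u a v (a + c u v) m (Ψ (qf χ u a v (a + c u v) i j))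

omit [DecidableEq V] in
lemma ZZ_shift (u v : V) (a : Z7) (m i j : Fin 3) :
    ZZ χ c Ψ u v a m i j = χ ((ew m + ew i + ew j - 4) * a) * ZZ χ c Ψ u v 0 m i j := by
  have e1 := L2_shift χ u 0 v (0 + c u v) a m (Ψ (qf χ u a v (a + c u v) i j))
  have e2 := qf_shift χ u 0 v (0 + c u v) a i j
  simp only [zero_add, add_comm (c u v)] at e1 e2
  rw [ZZ, e1, e2, map_smul, map_smul, smul_eq_mul, ← mul_assoc, ← AddChar.map_add_eq_mul, ZZ,
    zero_add]
  congr 2; ring

lemma ZZ_swap (hc : ∀ u v, c v u = - c u v) (u v : V) (m i j : Fin 3) :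
    ZZ χ c Ψ v u (c u v) m i j = - ZZ χ c Ψ u v 0 m i j := by
  rw [ZZ, ZZ, hc u v, add_neg_cancel, zero_add, L2_swap, qf_comm]

omit [DecidableEq V] in
lemma CC_shift (u v : V) (a : Z7) (i j l : Fin 3) :
    CC (ZZ χ c Ψ u v a) i j l = χ ((ew i + ew j + ew l - 4) * a) * CC (ZZ χ c Ψ u v 0) i j l := by
  simp only [CC, ZZ_shift u v a, mul_add]
  congr 1
  · congr 4; ring
  · congr 4; ring

omit [DecidableEq V] in
lemma NN_shift (u v : V) (a : Z7) (m i : Fin 3) :
    NN (ZZ χ c Ψ u v a) m i = χ ((ew i - ew m) * a) * NN (ZZ χ c Ψ u v 0) m i := by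
  simp only [NN, ZZ_shift u v a, Finset.mul_sum]
  refine Finset.sum_congr rfl fun l _ => Finset.sum_congr rfl fun j _ => ?_
  by_cases h : epsZ l m j = 0
  · simp [eps, h]
  · have hw := epsZ_weight l m j h
    have : ew l + ew i + ew j - 4 = ew i - ew m := by rw [← hw]; ring
    rw [this]; ring

lemma ZZ_tri (hc : ∀ u v, c v u = - c u v) (h : (QQ χ c).HT Ψ) {u v w : V} (hf : Flat c u v w)
    (huw : c u w = c u v + c v w) :
    (∀ i j l, CC (ZZ χ c Ψ u v 0) i j l = CC (ZZ χ c Ψ v w (c u v)) i j l) ∧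
      ∀ m i, NN (ZZ χ c Ψ u v 0) m i + NN (ZZ χ c Ψ v w (c u v)) m i +
        NN (ZZ χ c Ψ w u (c u w)) m i = 0 := by
  obtain ⟨τ, hτ⟩ := HT_xf h _
    (L3_kill hc (o := 0) (p := c u v) (q := c u w) (by ring) huw hf)
  refine tri0 (fun i j l => τ (xf χ u 0 i * xf χ v (c u v) j * xf χ w (c u w) l)) _ _ _
    (fun i j l => ?_) (fun i j l => ?_) (fun i j l => ?_)
  · have := hτ w (c u w) l u 0 v (c u v) i j (by ring)
    rw [L3_xf_mul, if_pos rfl, if_neg hf.2.2.1.symm, if_neg hf.2.1] at this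
    simp only [sub_self, mul_zero, AddChar.map_zero_eq_one, one_mul, zero_add] at this
    rw [ZZ, zero_add, ← this, ← map_add]; congr 1; unfold qf; ring
  · have := hτ u 0 i v (c u v) w (c u w) j l huw
    rw [L3_xf_mul, if_pos rfl, if_neg hf.1.symm, if_neg hf.2.2.1] at this
    simp only [sub_self, mul_zero, AddChar.map_zero_eq_one, one_mul, add_zero] at this
    rw [ZZ, ← huw, ← this, ← map_add]; congr 1; unfold qf; ring
  · have := hτ v (c u v) j w (c u w) u 0 l i (by rw [hc u w]; ring)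
    rw [L3_xf_mul, if_pos rfl, if_neg hf.1, if_neg hf.2.1.symm] at this
    simp only [sub_self, mul_zero, AddChar.map_zero_eq_one, one_mul, add_zero, zero_add] at this
    rw [ZZ, hc u w, add_neg_cancel, ← this, ← map_add]; congr 1; unfold qf; ring

variable [Fintype V]

lemma zero2_far (hχ : GoodChar χ) (hC : Comb c) (h : (QQ χ c).HT Ψ) {s t u v : V}
    (hsu : s ≠ u) (hsv : s ≠ v) (htu : t ≠ u) (htv : t ≠ v) : Zero2 χ c Ψ s t u v := by
  by_cases hst : s = t
  · subst hst; exact Zero2.self hχ hC.diag _ _ _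
  by_cases huv : u = v
  · subst huv
    obtain ⟨r, hr, hf⟩ := hC.twoflat s t u hst
    have := wedge_far hχ hC.anti h hf hr hr hsu hsu htu htu
    refine Zero2.intro (p := 0) (q := c s t) (a := 0) (b := c u u) (by ring) (by ring) ?_
    nth_rewrite 2 [hC.diag u] at this
    rw [zero_add] at this
    exact this.same
  rcases hC.c2 s t u v hst huv hsu.symm htu.symm hsv.symm htv.symm with H | H | H | H
  · exact zero2_C2 hχ hC.anti hC.diag h huv hsu hsv htu htv H
  · exact (zero2_C2 hχ hC.anti hC.diag h huv htu htv hsu hsv H).swap_st hC.anti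
  · exact (zero2_C2 hχ hC.anti hC.diag h (Ne.symm huv) hsv hsu htv htu H).swap_uv hC.anti
  · exact ((zero2_C2 hχ hC.anti hC.diag h (Ne.symm huv) htv htu hsv hsu H).swap_uv
      hC.anti).swap_st hC.anti

lemma zero2_perc (hχ : GoodChar χ) (hC : Comb c) (h : (QQ χ c).HT Ψ) {s u : V} (hsu : s ≠ u) :
    (∀ v a, Flat c s v a → c u a + c a s = c u v + c v s → Zero2 χ c Ψ s a u a →
      Zero2 χ c Ψ s v u v) ∧
    (∀ v a b, Flat c s v a → Flat c s v b → c u v + c v s ≠ c u a + c a s →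
      c u v + c v s ≠ c u b + c b s → c u a + c a s ≠ c u b + c b s → Zero2 χ c Ψ s a u a →
      Zero2 χ c Ψ s b u b → Zero2 χ c Ψ s v u v) := by
  have t1 : ∀ v a, Flat c s v a → v = u ∨ a = u → Zero2 χ c Ψ s a u a → Zero2 χ c Ψ s v u v := by
    rintro v a hf (rfl | rfl) H
    · have hf' := hC.flat_swap hf
      exact (edge_loop hχ hC.anti hC.diag h hf' (hC.flat_add hf')).2 H
    · exact (edge_loop hχ hC.anti hC.diag h hf (hC.flat_add hf)).1 H
  constructor
  · intro v a hf e H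
    by_cases h0 : v = u ∨ a = u
    · exact t1 v a hf h0 H
    push Not at h0
    obtain ⟨M, h1, h2⟩ := edge_pair hχ hC.anti h hf (hC.flat_add hf) hsu h0.1 h0.2
    refine Zero2.intro (p := 0) (q := c s v) (a := 0) (b := c u v) (by ring) (by ring) ?_
    intro m i j
    rw [h1, ← e, ← h2, H 0 _ 0 _ (by ring) (by ring)]
  · intro v a b hf hf' n1 n2 n3 H H'
    by_cases h0 : v = u ∨ a = u
    · exact t1 v a hf h0 H
    by_cases h0' : v = u ∨ b = u
    · exact t1 v b hf' h0' H'
    push Not at h0 h0'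
    obtain ⟨M, h1, h2⟩ := edge_pair hχ hC.anti h hf (hC.flat_add hf) hsu h0.1 h0.2
    obtain ⟨M', h1', h2'⟩ := edge_pair hχ hC.anti h hf' (hC.flat_add hf') hsu h0'.1 h0'.2
    refine Zero2.intro (p := 0) (q := c s v) (a := 0) (b := c u v) (by ring) (by ring) ?_
    have w1 := wedge_of_TT hχ (H := M) (x := c u a + c a s) (y := c u v + c v s)
      (fun m i j => by rw [← h2, H 0 _ 0 _ (by ring) (by ring)])
    have w2 := wedge_of_TT hχ (H := M') (x := c u b + c b s) (y := c u v + c v s)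
      (fun m i j => by rw [← h2', H' 0 _ 0 _ (by ring) (by ring)])
    have e : (TT M' fun i => χ (ew i * (c u v + c v s))) =
        TT M fun i => χ (ew i * (c u v + c v s)) := by
      funext m i j; rw [← h1, ← h1']
    rw [e] at w2
    intro m i j
    rw [h1]
    exact w1.three hχ w2 n1.symm (Or.inl ⟨n3, n2⟩) m i j

lemma diag_part (hχ : GoodChar χ) (hC : Comb c) (h : (QQ χ c).HT Ψ) :
    ∃ H : V → Fin 3 → Fin 3 → k, ∀ u v, u ≠ v → ∀ m i j, ZZ χ c Ψ u v 0 m i j =
      TT (H u) (fun _ => 1) m i j -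
        TT (fun l j => χ ((ew j - ew l) * c u v) * H v l j) (fun _ => 1) m i j := by
  have hCC : ∀ i j l u v, u ≠ v → CC (ZZ χ c Ψ u v 0) i j l = 0 := by
    intro i j l
    refine hC.hC hχ (ew i + ew j + ew l - 4) (fun u v => CC (ZZ χ c Ψ u v 0) i j l) ?_ ?_
    · intro u v _
      rw [← CC_shift]
      simp only [CC, ZZ_swap hC.anti]; ring
    · intro u v t hf
      rw [← CC_shift]
      exact (ZZ_tri hC.anti h hf (hC.flat_add hf)).1 i j l
  have hNN : ∀ m i, ∃ b : V → k, ∀ u v, u ≠ v →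
      NN (ZZ χ c Ψ u v 0) m i = b u - χ ((ew i - ew m) * c u v) * b v := by
    intro m i
    refine hC.h1 hχ (ew i - ew m) (fun u v => NN (ZZ χ c Ψ u v 0) m i) ?_ ?_
    · intro u v _
      rw [← NN_shift]
      simp only [NN, ZZ_swap hC.anti, mul_neg, Finset.sum_neg_distrib]; ring
    · intro u v t hf
      rw [← NN_shift, ← NN_shift]
      exact (ZZ_tri hC.anti h hf (hC.flat_add hf)).2 m i
  choose b hb using hNN
  refine ⟨fun u l i => b l i u / 3, fun u v huv m i j => ?_⟩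
  have := recon (ZZ χ c Ψ u v 0) (fun m i j => by rw [ZZ, ZZ, qf_symm]) (fun i j l => hCC i j l u v huv)
    m i j
  have h3 := hχ.three
  apply mul_left_cancel₀ h3
  rw [this]
  simp only [TT, hb _ _ u v huv, Fin.sum_univ_three]
  field_simp
  ring

end Pool.Agent.MP_f49c72_ag

end

section

/-! Rigidity of the twisted quadrics in non-positive degrees. -/

namespace Pool.Agent.MP_f49c72_ag

open MvPolynomial

universe u

variable {k : Type u} [Field k] {V : Type}

lemma sym_of_eps (F : Fin 3 → Fin 3 → k) (h : ∀ m, ∑ i, ∑ j, eps k m i j * F i j = 0) (i j : Fin 3) :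
    F i j = F j i := by
  have h0 := h 0; have h1 := h 1; have h2 := h 2
  simp [eps, epsZ, Fin.sum_univ_three] at h0 h1 h2
  fin_cases i <;> fin_cases j <;> simp
  · linear_combination h2
  · linear_combination -h1
  · linear_combination -h2
  · linear_combination h0
  · linear_combination h1
  · linear_combination -h0

variable {χ : AddChar Z7 k} {c : V → V → Z7}

lemma quart (hχ : GoodChar χ) (a b d e : Fin 3 × V) :
    ∃ (f g : Fin 3 × V) (j : V × V × Fin 3 × Fin 3) (γ : k),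
      (X a * X b * X d * X e : MvPolynomial (Fin 3 × V) k) = γ • (X f * X g * (QQ χ c).q j) := by
  have key : ∀ (a b : Fin 3 × V), a.1 = b.1 → ∃ (j : V × V × Fin 3 × Fin 3) (γ : k),
      (X a * X b : MvPolynomial (Fin 3 × V) k) = γ • (QQ χ c).q j := by
    rintro ⟨i, u⟩ ⟨j, v⟩ (rfl : i = j)
    refine ⟨(u, v, i, i), (2 * χ (ew i * c u v))⁻¹, ?_⟩
    simp only [Binom.q, Binom.ev, QQ]
    rw [← add_smul, smul_smul, ← two_mul, inv_mul_cancel₀ (mul_ne_zero hχ.two (chi_ne _)), one_smul]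
  have ph : ∀ i j l m : Fin 3, i = j ∨ i = l ∨ i = m ∨ j = l ∨ j = m ∨ l = m := by decide
  rcases ph a.1 b.1 d.1 e.1 with h | h | h | h | h | h <;> obtain ⟨j, γ, hj⟩ := key _ _ h
  · exact ⟨d, e, j, γ, by rw [← mul_smul_comm, ← hj]; ring⟩
  · exact ⟨b, e, j, γ, by rw [← mul_smul_comm, ← hj]; ring⟩
  · exact ⟨b, d, j, γ, by rw [← mul_smul_comm, ← hj]; ring⟩
  · exact ⟨a, e, j, γ, by rw [← mul_smul_comm, ← hj]; ring⟩
  · exact ⟨a, d, j, γ, by rw [← mul_smul_comm, ← hj]; ring⟩
  · exact ⟨a, b, j, γ, by rw [← mul_smul_comm, ← hj]; ring⟩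

variable [DecidableEq V] [Fintype V]

lemma mem_M3 (hχ : GoodChar χ) (g : MvPolynomial (Fin 3 × V) k) (h0 : c0 g = 0)
    (h1 : ∀ s m, D1 χ s 0 m g = 0) (h2 : ∀ s t m, L2 χ s 0 t (c s t) m g = 0) :
    (QQ χ c).pr g ∈ (QQ χ c).M3 := by
  have hq : ∀ a b d e, (QQ χ c).x a * (QQ χ c).x b * (QQ χ c).x d * (QQ χ c).x e = 0 := by
    intro a b d e
    obtain ⟨f, g, j, γ, h⟩ := quart (c := c) hχ a b d e
    have := congrArg (QQ χ c).pr h
    rw [map_smul, map_mul (QQ χ c).pr _ ((QQ χ c).q j),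
      (QQ χ c).pr_eq_zero.2 ((QQ χ c).q_mem_I j)] at this
    simpa [Binom.x] using this
  have := (QQ χ c).Rigid0_taylor hχ.two hq g
  have e1 : ∀ a, d1 a g = 0 := by
    rintro ⟨m, s⟩; simpa [D1] using h1 s m
  have e2 : ∑ a, ∑ b, d2 a b g • ((QQ χ c).x a * (QQ χ c).x b) = 0 := by
    simp only [Fintype.sum_prod_type_right]
    refine Finset.sum_eq_zero fun s _ => ?_
    rw [Finset.sum_comm]
    refine Finset.sum_eq_zero fun t _ => ?_
    have hs := sym_of_eps (fun i j => D2 χ s 0 i t (c s t) j g)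
      (fun m => by rw [← L2_apply, h2])
    have e3 : ∀ i j, d2 (i, s) (j, t) g • ((QQ χ c).x (i, s) * (QQ χ c).x (j, t)) =
        D2 χ s 0 i t (c s t) j g • (QQ χ c).pr (xf χ s 0 i * xf χ t (c s t) j) := by
      intro i j
      simp only [D2, xf, mul_zero, neg_zero, AddChar.map_zero_eq_one, one_smul, one_mul,
        LinearMap.smul_apply, smul_eq_mul, mul_smul_comm, map_smul, map_mul, smul_smul, Binom.x]
      congr 1
      linear_combination (- d2 (i, s) (j, t) g) * chi_mul_neg (χ := χ) (ew j * c s t)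
    simp only [e3]
    have e4 : (2 : k) • ∑ i, ∑ j,
        D2 χ s 0 i t (c s t) j g • (QQ χ c).pr (xf χ s 0 i * xf χ t (c s t) j) = 0 := by
      rw [two_smul]
      nth_rewrite 2 [Finset.sum_comm]
      simp only [← Finset.sum_add_distrib]
      refine Finset.sum_eq_zero fun i _ => Finset.sum_eq_zero fun j _ => ?_
      rw [hs j i, ← smul_add, ← map_add]
      have := (QQ χ c).pr_eq_zero.2 ((QQ χ c).I2_le (qf_mem χ c (zero_add (c s t)).symm i j))
      rw [qf] at this
      rw [this, smul_zero]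
    exact (smul_eq_zero.1 e4).resolve_left hχ.two
  simpa [h0, e1, e2] using this

/-- the vector field with constant part `g` and linear part `H`. -/
noncomputable def vf (g : V → Fin 3 → k) (H : V → V → Fin 3 → Fin 3 → k) (a : Fin 3 × V) :
    MvPolynomial (Fin 3 × V) k :=
  C (g a.2 a.1) + ∑ s, ∑ l, H s a.2 l a.1 • X (l, s)

section vf
variable (g : V → Fin 3 → k) (H : V → V → Fin 3 → Fin 3 → k)

omit [DecidableEq V] in
lemma der_qf (u : V) (a : Z7) (v : V) (b : Z7) (i j : Fin 3) :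
    mkDerivation k (vf g H) (qf χ u a v b i j) =
      xf χ u a i * (χ (ew j * b) • vf g H (j, v)) + xf χ v b j * (χ (ew i * a) • vf g H (i, u)) +
      (xf χ u a j * (χ (ew i * b) • vf g H (i, v)) + xf χ v b i * (χ (ew j * a) • vf g H (j, u))) := by
  have : ∀ u a i, mkDerivation k (vf g H) (xf χ u a i) = χ (ew i * a) • vf g H (i, u) := by
    intro u a i; simp [xf]
  simp only [qf, map_add, Derivation.leibniz, this, smul_eq_mul]

omit [DecidableEq V] in
lemma c0_vf (u : V) (i : Fin 3) : c0 (vf g H (i, u)) = g u i := by simp [vf]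

lemma D1_vf (s : V) (p : Z7) (l : Fin 3) (u : V) (i : Fin 3) :
    D1 χ s p l (vf g H (i, u)) = χ (-(ew l * p)) * H s u l i := by
  simp only [D1, vf, LinearMap.smul_apply, map_add, d1_C, map_sum, map_smul, d1_X, smul_eq_mul,
    Prod.mk.injEq]
  rw [Finset.sum_eq_single s, Finset.sum_eq_single l] <;> simp +contextual [eq_comm, mul_comm]

lemma near_vf {u v : V} (huv : u ≠ v) :
    Near χ c (mkDerivation k (vf g H)).toLinearMap v u (g v) := by
  intro i j l
  simp only [Derivation.coeFn_coe, der_qf, map_add, D1_xf_mul, map_smul, c0_vf, huv, false_and,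
    if_false, true_and, sub_self, mul_zero, AddChar.map_zero_eq_one, one_smul, zero_mul, zero_add,
    eq_comm (a := l)]
  simp

lemma edge_vf (hc : ∀ u v, c v u = - c u v) {s u v : V} (hsu : s ≠ u) (hsv : s ≠ v) (hvu : v ≠ u)
    (m i j : Fin 3) :
    L2 χ s 0 v (c s v) m (mkDerivation k (vf g H) (qf χ u 0 v (c u v) i j)) =
      TT (H s u) (fun j => χ (ew j * (c u v + c v s))) m i j := by
  simp only [der_qf, map_add, L2_xf_mul, map_smul, D1_vf, hsu, hsv, hvu, if_false, if_true,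
    mul_zero, neg_zero, AddChar.map_zero_eq_one, one_smul, one_mul, zero_add, add_zero, TT,
    hc s v, ← sub_eq_add_neg, Finset.sum_add_distrib, Finset.mul_sum]
  congr 1 <;> refine Finset.sum_congr rfl fun l _ => ?_ <;> ring

lemma diag_vf {u v : V} (huv : u ≠ v) (m i j : Fin 3) :
    ZZ χ c (mkDerivation k (vf g H)).toLinearMap u v 0 m i j =
      TT (H u u) (fun _ => 1) m i j -
        TT (fun l j => χ ((ew j - ew l) * c u v) * H v v l j) (fun _ => 1) m i j := by
  have e : ∀ j l, χ ((ew j - ew l) * c u v) = χ (ew j * c u v) * χ (-(ew l * c u v)) := by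
    intro j l; rw [← AddChar.map_add_eq_mul]; congr 1; ring
  simp only [ZZ, Derivation.coeFn_coe, der_qf, map_add, L2_xf_mul, map_smul, D1_vf, huv, huv.symm,
    if_false, if_true, mul_zero, neg_zero, AddChar.map_zero_eq_one, one_smul, one_mul, zero_add,
    add_zero, TT, sub_self, e, smul_eq_mul, mul_one, eps_swap m i, eps_swap m j,
    Fin.sum_univ_three]
  ring

end vf

theorem rigid (hχ : GoodChar χ) (hC : Comb c) : (QQ χ c).Rigid := by
  refine ⟨quart hχ, fun ψ hψ => ?_⟩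
  obtain ⟨Ψ, hΨ, hψΨ⟩ := (QQ χ c).exists_HT ψ hψ
  choose g hg using near_all hχ hC.anti hΨ hC.big
  obtain ⟨H0, hH0⟩ := diag_part hχ hC hΨ
  choose! v1 v2 hv1 hv2 hfl hperc using hC.c1
  have := fun s u (hsu : s ≠ u) => edge_pair hχ hC.anti hΨ (hfl s u hsu)
    (hC.flat_add (hfl s u hsu)) hsu (hv1 s u hsu) (hv2 s u hsu)
  choose! H1 hH1 hH2 using this
  set H : V → V → Fin 3 → Fin 3 → k := fun s u => if s = u then H0 u else H1 s u with hH
  set D := mkDerivation k (vf g H) with hD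
  have h' := hΨ.sub D
  set Φ := Ψ - D.toLinearMap with hΦ
  have z1 : ∀ u v, u ≠ v → ∀ i j l, D1 χ v (c u v) l (Φ (qf χ u 0 v (c u v) i j)) = 0 := by
    intro u v huv i j l
    rw [hΦ, LinearMap.sub_apply, map_sub, hg u v huv.symm, near_vf g H huv.symm, sub_self]
  have zd : ∀ u v, u ≠ v → Zero2 χ c Φ u v u v := by
    intro u v huv
    refine Zero2.intro (p := 0) (a := 0) rfl rfl fun m i j => ?_
    rw [hΦ, LinearMap.sub_apply, map_sub]
    have e1 := hH0 u v huv m i j
    have e2 := diag_vf (χ := χ) (c := c) g H huv m i j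
    simp only [hH, if_true] at e2
    rw [ZZ] at e1 e2
    rw [e1, e2, sub_self]
  have zb : ∀ s u, s ≠ u → ∀ v, v ≠ s → Zero2 χ c Φ s v u v := by
    intro s u hsu
    have hf := hfl s u hsu
    refine hperc s u hsu (fun v => Zero2 χ c Φ s v u v) ?_ ?_ (zero2_perc hχ hC h' hsu).1
      (zero2_perc hχ hC h' hsu).2
    · refine Zero2.intro (p := 0) (a := 0) (zero_add _).symm (zero_add _).symm fun m i j => ?_
      rw [hΦ, LinearMap.sub_apply, map_sub, hH1 s u hsu, Derivation.coeFn_coe,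
        edge_vf g H hC.anti hsu hf.1 (hv1 s u hsu)]
      simp [hH, hsu]
    · refine Zero2.intro (p := 0) (a := 0) (zero_add _).symm (zero_add _).symm fun m i j => ?_
      rw [hΦ, LinearMap.sub_apply, map_sub, hH2 s u hsu, Derivation.coeFn_coe,
        edge_vf g H hC.anti hsu hf.2.2.1.symm (hv2 s u hsu)]
      simp [hH, hsu]
  have z2' : ∀ s u v, Zero2 χ c Φ s v u v := by
    intro s u v
    by_cases h1 : s = v
    · subst h1; exact Zero2.self hχ hC.diag _ _ _
    by_cases h2 : s = u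
    · subst h2; exact zd s v h1
    · exact zb s u h2 v (Ne.symm h1)
  have z2 : ∀ s t u v, Zero2 χ c Φ s t u v := by
    intro s t u v
    by_cases h1 : t = v
    · subst h1; exact z2' s u t
    by_cases h2 : t = u
    · subst h2; exact (z2' s v t).swap_uv hC.anti
    by_cases h3 : s = v
    · subst h3; exact (z2' t u s).swap_st hC.anti
    by_cases h4 : s = u
    · subst h4; exact ((z2' t v s).swap_uv hC.anti).swap_st hC.anti
    exact zero2_far hχ hC h' h4 h3 h2 h1
  refine ⟨fun a => (QQ χ c).pr (vf g H a), ?_⟩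
  rintro ⟨u, v, i, j⟩
  have key : (QQ χ c).pr (Φ (qf χ u 0 v (c u v) i j)) ∈ (QQ χ c).M3 := by
    refine mem_M3 hχ _ ?_ ?_ ?_
    · obtain ⟨r, h1, h2, -⟩ := hC.big u v v
      exact deg2 hχ hC.anti h' h1 h2 (zero_add _).symm i j
    · intro s m
      by_cases h1 : s = v
      · subst h1
        by_cases h2 : s = u
        · subst h2
          obtain ⟨r, h1, -⟩ := hC.big s s s
          rw [hC.diag]
          exact deg1_loop hχ hC.anti h' (hC.diag s) h1.symm (z1 s r h1.symm) i j m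
        · rw [D1_re χ s 0 (c u s), z1 u s (Ne.symm h2), mul_zero]
      by_cases h2 : s = u
      · subst h2
        have := qf_shift χ v 0 s (c v s) (c s v) i j
        rw [zero_add, hC.anti s v, neg_add_cancel, ← hC.anti s v] at this
        rw [← qf_comm, this, map_smul, map_smul, D1_re χ s 0 (c v s), z1 v s (Ne.symm h1)]
        simp
      · obtain ⟨r, r1, r2, r3⟩ := hC.big s u v
        exact deg1_far hχ hC.anti h' h2 h1 r1 r2 r3 (zero_add _).symm 0 m i j
    · intro s t m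
      exact z2 s t u v 0 _ 0 _ (zero_add _).symm (zero_add _).symm m i j
  convert key using 1
  rw [hΦ, LinearMap.sub_apply, map_sub, qf_eq_q, ← hψΨ]
  congr 1
  simp only [Binom.q, Binom.ev, hD, Derivation.coeFn_coe, map_add,
    Derivation.leibniz, mkDerivation_X, smul_eq_mul, map_smul, map_mul, Binom.x, smul_add]
  simp only [mul_comm]; abel

end Pool.Agent.MP_f49c72_ag

end
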